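import Mathlib
import Pool.Agent.ZPOrd.NbrCongr
import Pool.Agent.ZPOrd.WalkWord

/-!
Points whose residue is not in the field with `p ^ 2` elements: the canonical step, canonical lifts,
isogenous residues.
-/

open UpperHalfPlane hiding I
open MatrixGroups

namespace Pool.Agent.ZPF

open Pool.Agent.Lib.ModularZP Pool.Agent.ZPOrd

/-- `y` is integral and its residue is not in the field with `p ^ 2` elements -/
def NF (p : ℕ) (V : ValuationSubring ℂ) (y : ℂ) : Prop := y ∈ V ∧ V.valuation (y ^ (p ^ 2) - y) = 1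

/-- one step of the canonical isogeny (on `j`-invariants) -/
def TS (p : ℕ) (V : ValuationSubring ℂ) (y x : ℂ) : Prop :=
  ∃ (τ : ℍ) (M : M2), M.det = p ∧ jInv τ = y ∧ jInv (gl M • τ) = x ∧ V.valuation (x - y ^ p) < 1

/-- a canonical lift of the residue of `z`, fixed by a matrix of determinant `p ^ s` and trace `t` -/
structure OLF (p : ℕ) (V : ValuationSubring ℂ) (s : ℕ) (z : ℂ) (t : ℤ) (τ : ℍ) (E : M2) : Prop where
  det : E.det = (p : ℤ) ^ s
  tr : E.trace = t
  ndvd : ¬ (p : ℤ) ∣ t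
  fix : gl E • τ = τ
  close : V.valuation (jInv τ - z) < 1

/-- two residues which are residues of isogenous points -/
def IsoV (V : ValuationSubring ℂ) (u v : IsLocalRing.ResidueField V) : Prop :=
  ∃ (τ : ℍ) (M : M2), 0 < M.det ∧ ∃ (h1 : jInv τ ∈ V) (h2 : jInv (gl M • τ) ∈ V),
    IsLocalRing.residue V ⟨jInv τ, h1⟩ = u ∧ IsLocalRing.residue V ⟨jInv (gl M • τ), h2⟩ = v

end Pool.Agent.ZPF
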