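import Mathlib
import Pool.Agent.ZPOrd.Abs
import Pool.Agent.ZPF.Defs

/-!
Criterion for an empty atypical set; the points with two disjoint isogenies are excluded by residues in
arbitrary finite fields.
-/

open UpperHalfPlane hiding I

namespace Pool.Agent.ZPF

open Pool.Agent.Lib.ModularZP Pool.Agent.ZPOrd

/-- `a` and `b` are isogenous -/
def Isg (a b : ℂ) : Prop := ∃ (τ : ℍ) (M : M2), 0 < M.det ∧ a = jInv τ ∧ b = jInv (gl M • τ)

/-- local conditions at a place of residue characteristic `p` which is private for the coordinate `i` -/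
structure LocC' {n : ℕ} (d : ∀ p : ℕ, ValuationSubring ℂ → ZMod p → ℤ) (C : Set (Fin n → ℂ)) (i : Fin n)
    (p : ℕ) (V : ValuationSubring ℂ) (R : Finset (Fin n → ℤ)) : Prop where
  prime : p.Prime
  two : p ≠ 2
  val : V.valuation (p : ℂ) < 1
  near : ∀ x ∈ C, x i ∈ V → ∃ r ∈ R, ∀ j, j ≠ i → V.valuation (x j - (r j : ℂ)) < 1
  ord : ∀ r ∈ R, ∀ j, j ≠ i → d p V (r j : ZMod p) ≠ 0
  cross : ∀ r ∈ R, ∀ j k, j ≠ i → k ≠ i → j ≠ k → ¬ IsSquare (d p V (r j : ZMod p) * d p V (r k : ZMod p))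
  far : ∀ x ∈ C, ∀ j k, j ≠ i → k ≠ i → j ≠ k → x j ∈ V ∨ x k ∈ V
  four : ∀ x ∈ C, ∀ j k m, j ≠ i → k ≠ i → m ≠ i → j ≠ k → j ≠ m → k ≠ m → x j ∉ V → ¬ Isg (x k) (x m)

lemma isg_of_block {n m : ℕ} {x : Fin n → ℂ} {D : SpecialDatum n m} (hx : x ∈ D.variety) {j k : Fin n}
    (hb : D.block j = D.block k) (hn : D.block j ≠ none) : Isg (x j) (x k) := by
  obtain ⟨a, ha⟩ := Option.ne_none_iff_exists'.mp hn
  have ha' : D.block k = some a := by rw [← hb]; exact ha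
  obtain ⟨τ, hτ⟩ := hx
  have hi' : x j = jInv ((D.g j).map (algebraMap ℚ ℝ) • τ a) := by
    rw [hτ j]; unfold SpecialDatum.coord; rw [ha]
  have hj' : x k = jInv ((D.g k).map (algebraMap ℚ ℝ) • τ a) := by
    rw [hτ k]; unfold SpecialDatum.coord; rw [ha']
  have hdet : 0 < (D.g k * (D.g j)⁻¹).det.val := by
    have h1 := D.g_det j
    have h2 := D.g_det k
    rw [map_mul, map_inv, Units.val_mul, Units.val_inv_eq_inv_val]
    positivity
  have hk' : x k = jInv ((D.g k * (D.g j)⁻¹).map (algebraMap ℚ ℝ) • ((D.g j).map (algebraMap ℚ ℝ) • τ a)) := by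
    rw [hj', map_mul, map_inv, mul_smul, inv_smul_smul]
  obtain ⟨N, hN, B, hB⟩ := exists_toGL _ hdet
  refine ⟨(D.g j).map (algebraMap ℚ ℝ) • τ a, B.1, ?_, hi', ?_⟩
  · rw [B.2]
    exact_mod_cast Nat.pos_of_ne_zero hN.ne
  · rw [hk', gl_toGL, hB]

theorem atyp_empty' {n : ℕ} {d : ∀ p : ℕ, ValuationSubring ℂ → ZMod p → ℤ} (hd : DiscFn d) {C : Set (Fin n → ℂ)}
    (h : ∀ i, ∃ (p q : ℕ) (V V' : ValuationSubring ℂ) (R R' : Finset (Fin n → ℤ)),
      LocC' d C i p V R ∧ LocC' d C i q V' R' ∧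
      ∀ r ∈ R, ∀ r' ∈ R', ∀ j, j ≠ i → ¬ IsSquare (d p V (r j : ZMod p) * d q V' (r' j : ZMod q))) :
    atyp C = ∅ := by
  rw [Set.eq_empty_iff_forall_notMem]
  rintro x ⟨hx, m, D, hm, hxD⟩
  have hnone : ∀ (V : ValuationSubring ℂ) i, D.block i = none → x i ∈ V := by
    intro V i hi
    obtain ⟨e, he⟩ := pattern D hxD V
    rw [he i, hi]
    trivial
  have hsame : ∀ (V : ValuationSubring ℂ) i j, D.block i = D.block j → (x i ∈ V ↔ x j ∈ V) := by
    intro V i j hij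
    obtain ⟨e, he⟩ := pattern D hxD V
    rw [he i, he j, hij]
  -- two isogenous coordinates near the zero of the `i`-th coordinate
  have hiso : ∀ (i j k : Fin n), j ≠ i → k ≠ i → j ≠ k → D.block j = D.block k → D.block j ≠ none →
      ∀ p V R, LocC' d C i p V R → x i ∉ V := by
    intro i j k hji hki hjk hb1 hb2 p V R hR hxi
    obtain ⟨r, hr, hv⟩ := hR.near x hx hxi
    exact hR.cross r hr j k hji hki hjk (iso_contra hd hxD hb1 hb2 hR.prime hR.val (hv j hji) (hv k hki)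
      (hR.ord r hr j hji) (hR.ord r hr k hki))
  rcases types D.block hm with ⟨i, j, hij, hi, hj⟩ | ⟨i, j, k, hij, hik, hjk, hi, hjk', hne⟩ |
    ⟨i, j, k, hij, hik, hjk, hij', hjk', hne⟩ | ⟨i, j, k, m, hij, hik, him, hjk, hjm, hkm, hij', hkm', hne, hne'⟩
  · obtain ⟨p, q, V, V', R, R', hR, hR', hcr⟩ := h i
    have hCM : ∃ τ : ℍ, IsCM τ ∧ x j = jInv τ := by
      obtain ⟨τ, hτ⟩ := hxD
      refine ⟨D.cm j, D.cm_isCM j, ?_⟩
      rw [hτ j]; unfold SpecialDatum.coord; rw [hj]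
    obtain ⟨τ, hτCM, hτ⟩ := hCM
    obtain ⟨D0, hD0, hD⟩ := hd.cm τ hτCM
    obtain ⟨r, hr, hv⟩ := hR.near x hx (hnone V i hi)
    obtain ⟨r', hr', hv'⟩ := hR'.near x hx (hnone V' i hi)
    have hve := hv j hij.symm
    have hve' := hv' j hij.symm
    rw [hτ] at hve hve'
    have h1 := (hD p V (r j) hR.prime hR.two hR.val hve).resolve_left (hR.ord r hr j hij.symm)
    have h2 := (hD q V' (r' j) hR'.prime hR'.two hR'.val hve').resolve_left (hR'.ord r' hr' j hij.symm)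
    exact hcr r hr r' hr' j hij.symm (isSquare_of_mul hD0 h1 h2)
  · obtain ⟨p, q, V, V', R, R', hR, hR', hcr⟩ := h i
    exact hiso i j k hij.symm hik.symm hjk hjk' hne p V R hR (hnone V i hi)
  · obtain ⟨p, q, V, V', R, R', hR, hR', hcr⟩ := h i
    have hxi := hiso i j k hij.symm hik.symm hjk hjk' hne p V R hR
    have h5 := hsame V j k hjk'
    have h6 := hsame V i j hij'
    rcases hR.far x hx j k hij.symm hik.symm hjk with h7 | h7
    · exact hxi (h6.mpr h7)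
    · exact hxi (h6.mpr (h5.mpr h7))
  · obtain ⟨p, q, V, V', R, R', hR, hR', hcr⟩ := h i
    have hxi := hiso i k m hik.symm him.symm hkm hkm' hne' p V R hR
    have hxj : x j ∉ V := fun h => hxi ((hsame V i j hij').mpr h)
    exact hR.four x hx j k m hij.symm hik.symm him.symm hjk hjm hkm hxj (isg_of_block hxD hkm' hne')

end Pool.Agent.ZPF
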