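import Mathlib
import Pool.Agent.ZPF.Defs
import Pool.Agent.ZPOrd.RatDefs
import Pool.Agent.ZPOrd.ThreeDens

/-!
Functions `A / B` on the curve `y ^ (e + 1) = ∑ f_b(x) y ^ b`: local conditions at a prime.
-/

namespace Pool.Agent.ZPF

open Pool.Agent.Lib.ModularZP Pool.Agent.ZPOrd

/-- the monomials `x ^ a * y ^ b` of the numerators: `b ≤ e`, `a + m * b ≤ d` -/
abbrev Mo (m d e : ℕ) := (b : Fin (e + 1)) × Fin (d - m * (b : ℕ) + 1)

/-- the coefficients of a pair `(A, B)` -/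
abbrev Cf (m d e : ℕ) := Mo m d e ⊕ Fin (d + 1)

section

variable {R : Type*} [CommRing R] {m d e : ℕ}

/-- the value of the numerator with coefficients `c` at `(x, y)` -/
def numP (c : Cf m d e → R) (x y : R) : R := ∑ s : Mo m d e, c (Sum.inl s) * x ^ (s.2 : ℕ) * y ^ (s.1 : ℕ)

/-- the value of the denominator with coefficients `c` at `x` -/
def denP (c : Cf m d e → R) (x : R) : R := ∑ a : Fin (d + 1), c (Sum.inr a) * x ^ (a : ℕ)

end

section

variable {m d e n : ℕ} (f : Fin (e + 1) → Polynomial ℂ) (p : ℕ) [Fact p.Prime]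

/-- the equation of the points at infinity modulo `p` -/
def InfRoot (m : ℕ) (r : ℂ → ZMod p) (η : ZMod p) : Prop :=
  η ^ (e + 1) = ∑ b : Fin (e + 1), r ((f b).coeff (m * (e + 1 - (b : ℕ)))) * η ^ (b : ℕ)

/-- the value modulo `p` at the point `η` at infinity of the `j`-th coordinate -/
def infVal (c : Fin n → Cf m d e → ℚ) (j : Fin n) (η : ZMod p) : ZMod p :=
  (∑ b : Fin (e + 1), redQ p (c j (Sum.inl ⟨b, Fin.last _⟩)) * η ^ (b : ℕ)) / redQ p (c j (Sum.inr (Fin.last _)))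

/-- local conditions at a prime `p` which is private for the coordinate `i` -/
structure LocF (V : ValuationSubring ℂ) (ψ : ZMod p →+* IsLocalRing.ResidueField V) (r : ℂ → ZMod p)
    (dd : ZMod p → ℤ) (c : Fin n → Cf m d e → ℚ) (i : Fin n) : Prop where
  two : p ≠ 2
  large : p ∣ (c i (Sum.inl ⟨0, 0⟩)).den
  den : ∀ j s, (j, s) ≠ (i, Sum.inl ⟨0, 0⟩) → ¬ p ∣ (c j s).den
  lead : ∀ j, redQ p (c j (Sum.inr (Fin.last d))) ≠ 0
  coprime : ∀ j k, j ≠ i → k ≠ i → j ≠ k → ∀ z : IsLocalRing.ResidueField V,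
    denP (fun s => ψ (redQ p (c j s))) z = 0 → denP (fun s => ψ (redQ p (c k s))) z ≠ 0
  ordInf : ∀ η, InfRoot f p m r η → ∀ j, j ≠ i → dd (infVal p c j η) ≠ 0
  crossInf : ∀ η, InfRoot f p m r η → ∀ j k, j ≠ i → k ≠ i → j ≠ k →
    ¬ IsSquare (dd (infVal p c j η) * dd (infVal p c k η))
  four : ∀ j k l, j ≠ i → k ≠ i → l ≠ i → j ≠ k → j ≠ l → k ≠ l → ∀ z w : IsLocalRing.ResidueField V,
    denP (fun s => ψ (redQ p (c j s))) z = 0 →
    w ^ (e + 1) = ∑ b : Fin (e + 1), ((f b).sum fun a u => ψ (r u) * z ^ a) * w ^ (b : ℕ) →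
    ¬ IsoV V (numP (fun s => ψ (redQ p (c k s))) z w / denP (fun s => ψ (redQ p (c k s))) z)
      (numP (fun s => ψ (redQ p (c l s))) z w / denP (fun s => ψ (redQ p (c l s))) z)

end

/-- two good private primes in every coordinate, with independent residual discriminants -/
def AllLoc {m d e n : ℕ} (f : Fin (e + 1) → Polynomial ℂ) (dd : ∀ p : ℕ, ValuationSubring ℂ → ZMod p → ℤ) (S : Finset ℂ)
    (c : Fin n → Cf m d e → ℚ) : Prop :=
  ∀ i, ∃ (p q : ℕ) (_ : Fact p.Prime) (_ : Fact q.Prime) (V V' : ValuationSubring ℂ)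
    (ψ : ZMod p →+* IsLocalRing.ResidueField V) (ψ' : ZMod q →+* IsLocalRing.ResidueField V')
    (r : ℂ → ZMod p) (r' : ℂ → ZMod q), V.valuation (p : ℂ) < 1 ∧ V'.valuation (q : ℂ) < 1 ∧
      (∀ s ∈ S, Rs ψ s (r s)) ∧ (∀ s ∈ S, Rs ψ' s (r' s)) ∧
      LocF f p V ψ r (dd p V) c i ∧ LocF f q V' ψ' r' (dd q V') c i ∧
      ∀ j, j ≠ i → ∀ η η', InfRoot f p m r η → InfRoot f q m r' η' →
        ¬ IsSquare (dd p V (infVal p c j η) * dd q V' (infVal q c j η'))

/-- the rational coefficient vectors of height at most `H` -/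
def boxF (n m d e H : ℕ) : Set (Fin n → Cf m d e → ℚ) := {c | ∀ i s, |(c i s).num| ≤ H ∧ (c i s).den ≤ H}

end Pool.Agent.ZPF
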