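import Mathlib
import Pool.Agent.ZPF.AllDefs

/-!
Reduction of the functions `A / B` at a valuation ring, in the finite part and at infinity.
-/

namespace Pool.Agent.ZPF

open Pool.Agent.Lib.ModularZP Pool.Agent.ZPOrd

section maps

variable {R S : Type*} [CommRing R] [CommRing S] {m d e : ℕ}

lemma numP_map (φ : R →+* S) (c : Cf m d e → R) (x y : R) :
    numP (fun s => φ (c s)) (φ x) (φ y) = φ (numP c x y) := by
  unfold numP
  simp [map_sum, map_mul, map_pow]

lemma denP_map (φ : R →+* S) (c : Cf m d e → R) (x : R) : denP (fun s => φ (c s)) (φ x) = φ (denP c x) := by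
  unfold denP
  simp [map_sum, map_mul, map_pow]

lemma numP_congr {c c' : Cf m d e → R} (h : ∀ s, c (Sum.inl s) = c' (Sum.inl s)) (x y : R) :
    numP c x y = numP c' x y := by
  unfold numP
  exact Finset.sum_congr rfl fun s _ => by rw [h]

end maps

section red

variable {L : Type*} [Field L] {O : ValuationSubring L} {m d e : ℕ}

/-- the equation of the curve, with coefficients `F b a` of `x ^ a` in `f b` -/
def Eqn {R : Type*} [CommRing R] (m e : ℕ) (F : Fin (e + 1) → ℕ → R) (x y : R) : Prop :=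
  y ^ (e + 1) = ∑ b : Fin (e + 1), (∑ a ∈ Finset.range (m * (e + 1 - (b : ℕ)) + 1), F b a * x ^ a) * y ^ (b : ℕ)

lemma Eqn.map {R S : Type*} [CommRing R] [CommRing S] (φ : R →+* S) {F : Fin (e + 1) → ℕ → R} {x y : R}
    (h : Eqn m e F x y) : Eqn m e (fun b a => φ (F b a)) (φ x) (φ y) := by
  unfold Eqn at h ⊢
  rw [← map_pow, h]
  simp [map_sum, map_mul, map_pow]

lemma Eqn.of_map {R S : Type*} [CommRing R] [CommRing S] (φ : R →+* S) (hφ : Function.Injective φ)
    {F : Fin (e + 1) → ℕ → R} {x y : R} (h : Eqn m e (fun b a => φ (F b a)) (φ x) (φ y)) : Eqn m e F x y := by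
  unfold Eqn at h ⊢
  apply hφ
  rw [map_pow, h]
  simp [map_sum, map_mul, map_pow]

lemma y_mem {x y : L} {F : Fin (e + 1) → ℕ → L} (hF : ∀ b a, F b a ∈ O) (hx : x ∈ O) (hy : Eqn m e F x y) : y ∈ O := by
  by_contra hyn
  have hv : 1 < O.valuation y := by
    rw [← O.valuation_le_one_iff, not_le] at hyn
    exact hyn
  have h1 : O.valuation (y ^ (e + 1)) ≤ O.valuation y ^ e := by
    unfold Eqn at hy
    rw [hy]
    refine O.valuation.map_sum_le fun b _ => ?_
    rw [map_mul, map_pow]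
    have h2 : O.valuation (∑ a ∈ Finset.range (m * (e + 1 - (b : ℕ)) + 1), F b a * x ^ a) ≤ 1 :=
      (O.valuation_le_one_iff _).mpr (sum_mem fun a _ => mul_mem (hF b a) (pow_mem hx a))
    calc _ ≤ 1 * O.valuation y ^ (b : ℕ) := mul_le_mul_left h2 _
      _ ≤ O.valuation y ^ e := by
        rw [one_mul]
        exact pow_le_pow_right₀ hv.le (by have := b.2; omega)
  rw [map_pow] at h1
  exact absurd h1 (not_le.mpr (pow_lt_pow_right₀ hv (Nat.lt_succ_self e)))

/-- the equation at infinity -/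
lemma Eqn.inf {R : Type*} [Field R] {F : Fin (e + 1) → ℕ → R} {x y : R} (hx : x ≠ 0) (h : Eqn m e F x y) :
    Eqn m e (fun b a => F b (m * (e + 1 - (b : ℕ)) - a)) x⁻¹ (y * x⁻¹ ^ m) := by
  unfold Eqn at h ⊢
  have h1 : (y * x⁻¹ ^ m) ^ (e + 1) = y ^ (e + 1) * x⁻¹ ^ (m * (e + 1)) := by
    rw [mul_pow, ← pow_mul]
  rw [h1, h, Finset.sum_mul]
  refine Finset.sum_congr rfl fun b _ => ?_
  set M := m * (e + 1 - (b : ℕ)) with hM
  have hb := b.2
  have h2 : m * (e + 1) = M + m * b := by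
    rw [hM, ← mul_add]
    congr 1
    omega
  have h3 : (∑ a ∈ Finset.range (M + 1), F b (M - a) * x⁻¹ ^ a) = (∑ a ∈ Finset.range (M + 1), F b a * x ^ a) * x⁻¹ ^ M := by
    rw [← Finset.sum_range_reflect, Finset.sum_mul]
    refine Finset.sum_congr rfl fun a ha => ?_
    have ha' := Finset.mem_range.mp ha
    have e1 : M + 1 - 1 - a = M - a := by omega
    have e2 : M - (M - a) = a := by omega
    rw [e1, e2, mul_assoc]
    congr 1
    have e3 : x⁻¹ ^ M = x⁻¹ ^ (M - a) * x⁻¹ ^ a := by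
      rw [← pow_add]
      congr 1
      omega
    rw [e3]
    have e4 : x ^ a * (x⁻¹ ^ (M - a) * x⁻¹ ^ a) = x⁻¹ ^ (M - a) * (x * x⁻¹) ^ a := by
      rw [mul_pow]; ring
    rw [e4, mul_inv_cancel₀ hx, one_pow, mul_one]
  rw [h3, h2, pow_add, mul_pow (y) , ← pow_mul]
  ring

/-- the residual equation at infinity -/
lemma Eqn.zero {R : Type*} [CommRing R] {F : Fin (e + 1) → ℕ → R} {t : R}
    (h : Eqn m e (fun b a => F b (m * (e + 1 - (b : ℕ)) - a)) 0 t) :
    t ^ (e + 1) = ∑ b : Fin (e + 1), F b (m * (e + 1 - (b : ℕ))) * t ^ (b : ℕ) := by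
  unfold Eqn at h
  rw [h]
  refine Finset.sum_congr rfl fun b _ => ?_
  congr 1
  rw [Finset.sum_eq_single 0]
  · simp
  · intro a _ ha
    rw [zero_pow ha, mul_zero]
  · intro h
    exact absurd (Finset.mem_range.mpr (Nat.succ_pos _)) h

/-- the numerator at infinity -/
def numI {R : Type*} [CommRing R] (c : Cf m d e → R) (u t : R) : R :=
  ∑ s : Mo m d e, c (Sum.inl s) * u ^ (d - m * (s.1 : ℕ) - (s.2 : ℕ)) * t ^ (s.1 : ℕ)

/-- the denominator at infinity -/
def denI {R : Type*} [CommRing R] (c : Cf m d e → R) (u : R) : R := ∑ a : Fin (d + 1), c (Sum.inr a) * u ^ (d - (a : ℕ))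

lemma numI_map {R S : Type*} [CommRing R] [CommRing S] (φ : R →+* S) (c : Cf m d e → R) (x y : R) :
    numI (fun s => φ (c s)) (φ x) (φ y) = φ (numI c x y) := by
  unfold numI
  simp [map_sum, map_mul, map_pow]

lemma denI_map {R S : Type*} [CommRing R] [CommRing S] (φ : R →+* S) (c : Cf m d e → R) (x : R) :
    denI (fun s => φ (c s)) (φ x) = φ (denI c x) := by
  unfold denI
  simp [map_sum, map_mul, map_pow]

lemma numI_eq {R : Type*} [Field R] (hmd : m * e ≤ d) (c : Cf m d e → R) {x : R} (hx : x ≠ 0) (y : R) :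
    numP c x y * x⁻¹ ^ d = numI c x⁻¹ (y * x⁻¹ ^ m) := by
  unfold numP numI
  rw [Finset.sum_mul]
  refine Finset.sum_congr rfl fun s _ => ?_
  have hb : m * (s.1 : ℕ) ≤ d := (Nat.mul_le_mul_left m (by have := s.1.2; omega)).trans hmd
  have ha : (s.2 : ℕ) ≤ d - m * (s.1 : ℕ) := by have := s.2.2; omega
  have h1 : x⁻¹ ^ d = x⁻¹ ^ (d - m * (s.1 : ℕ) - (s.2 : ℕ)) * x⁻¹ ^ (s.2 : ℕ) * x⁻¹ ^ (m * (s.1 : ℕ)) := by
    rw [← pow_add, ← pow_add]
    congr 1
    omega
  rw [h1, mul_pow, ← pow_mul]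
  have h2 : x ^ (s.2 : ℕ) * x⁻¹ ^ (s.2 : ℕ) = 1 := by rw [← mul_pow, mul_inv_cancel₀ hx, one_pow]
  linear_combination (c (Sum.inl s) * y ^ (s.1 : ℕ) * x⁻¹ ^ (d - m * (s.1 : ℕ) - (s.2 : ℕ)) * x⁻¹ ^ (m * (s.1 : ℕ))) * h2

lemma denI_eq {R : Type*} [Field R] (c : Cf m d e → R) {x : R} (hx : x ≠ 0) :
    denP c x * x⁻¹ ^ d = denI c x⁻¹ := by
  unfold denP denI
  rw [Finset.sum_mul]
  refine Finset.sum_congr rfl fun a _ => ?_
  have ha := a.2
  have h1 : x⁻¹ ^ d = x⁻¹ ^ (d - (a : ℕ)) * x⁻¹ ^ (a : ℕ) := by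
    rw [← pow_add]
    congr 1
    omega
  have h2 : x ^ (a : ℕ) * x⁻¹ ^ (a : ℕ) = 1 := by rw [← mul_pow, mul_inv_cancel₀ hx, one_pow]
  rw [h1]
  linear_combination (c (Sum.inr a) * x⁻¹ ^ (d - (a : ℕ))) * h2

lemma numI_zero {R : Type*} [CommRing R] (c : Cf m d e → R) (t : R) :
    numI c 0 t = ∑ b : Fin (e + 1), c (Sum.inl ⟨b, Fin.last _⟩) * t ^ (b : ℕ) := by
  unfold numI
  rw [Fintype.sum_sigma]
  refine Finset.sum_congr rfl fun b _ => ?_
  rw [Finset.sum_eq_single (Fin.last _)]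
  · simp
  · intro a _ ha
    have h1 : d - m * (b : ℕ) - (a : ℕ) ≠ 0 := by
      have := a.2
      have h2 : (a : ℕ) ≠ d - m * (b : ℕ) := fun h => ha (Fin.ext h)
      omega
    simp only
    rw [zero_pow h1, mul_zero, zero_mul]
  · intro h
    exact absurd (Finset.mem_univ _) h

lemma denI_zero {R : Type*} [CommRing R] (c : Cf m d e → R) : denI c (0 : R) = c (Sum.inr (Fin.last _)) := by
  unfold denI
  rw [Finset.sum_eq_single (Fin.last _)]
  · simp
  · intro a _ ha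
    have h1 : d - (a : ℕ) ≠ 0 := by
      have := a.2
      have h2 : (a : ℕ) ≠ d := fun h => ha (Fin.ext h)
      omega
    rw [zero_pow h1, mul_zero]
  · intro h
    exact absurd (Finset.mem_univ _) h

end red

end Pool.Agent.ZPF
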