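import Mathlib
import Pool.Agent.ZPF.Red
import Pool.Agent.ZPOrd.Abs

/-!
The points of the curve with coordinate functions `A i / B i`.
-/

open UpperHalfPlane hiding I

namespace Pool.Agent.ZPF

open Pool.Agent.Lib.ModularZP Pool.Agent.ZPOrd

variable {K : Type*} [Field K] [Algebra ℂ K] {m d e n : ℕ} {x y : K} {f : Fin (e + 1) → Polynomial ℂ}
  {c : Fin n → Cf m d e → ℚ}

/-- the coordinate functions -/
noncomputable def gF (x y : K) (c : Fin n → Cf m d e → ℚ) (i : Fin n) : K :=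
  numP (fun s => algebraMap ℂ K (c i s)) x y / denP (fun s => algebraMap ℂ K (c i s)) x

lemma eqn_K (hf : ∀ b, (f b).natDegree ≤ m * (e + 1 - (b : ℕ)))
    (hy : y ^ (e + 1) = ∑ b : Fin (e + 1), Polynomial.aeval x (f b) * y ^ (b : ℕ)) :
    Eqn m e (fun b a => algebraMap ℂ K ((f b).coeff a)) x y := by
  unfold Eqn
  rw [hy]
  refine Finset.sum_congr rfl fun b _ => ?_
  rw [Polynomial.aeval_eq_sum_range' (Nat.lt_succ_of_le (hf b))]
  congr 1
  refine Finset.sum_congr rfl fun a _ => ?_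
  rw [Algebra.smul_def]

lemma denP_ne (hx : Transcendental ℂ x) {a : Cf m d e → ℚ} (h : a (Sum.inr (Fin.last d)) ≠ 0) :
    denP (fun s => algebraMap ℂ K (a s)) x ≠ 0 := by
  intro h0
  set q : Polynomial ℂ := ∑ k : Fin (d + 1), Polynomial.C ((a (Sum.inr k) : ℚ) : ℂ) * Polynomial.X ^ (k : ℕ) with hq
  have h1 : Polynomial.aeval x q = 0 := by
    rw [hq, map_sum, ← h0]
    unfold denP
    refine Finset.sum_congr rfl fun k _ => ?_
    simp
  have h2 : q ≠ 0 := by
    intro h3
    have h4 : q.coeff d = (a (Sum.inr (Fin.last d)) : ℂ) := by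
      rw [hq, Polynomial.finsetSum_coeff, Finset.sum_eq_single (Fin.last d)]
      · simp
      · intro k _ hk
        have h2 : (k : ℕ) ≠ d := fun h => hk (Fin.ext h)
        rw [Polynomial.coeff_C_mul, Polynomial.coeff_X_pow, if_neg (Ne.symm h2), mul_zero]
      · intro h
        exact absurd (Finset.mem_univ _) h
    rw [h3, Polynomial.coeff_zero] at h4
    exact h (by exact_mod_cast h4.symm)
  exact hx ⟨q, h2, h1⟩

/-- the inclusion of the constants in a place -/
def iotaP {P : ValuationSubring K} (hP : ∀ c : ℂ, algebraMap ℂ K c ∈ P) : ℂ →+* P :=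
  (algebraMap ℂ K).codRestrict P.toSubring hP

lemma iotaP_coe {P : ValuationSubring K} (hP : ∀ c : ℂ, algebraMap ℂ K c ∈ P) (z : ℂ) :
    ((iotaP hP z : P) : K) = algebraMap ℂ K z := rfl

lemma residue_value {P : ValuationSubring K} (hP : ∀ c : ℂ, algebraMap ℂ K c ∈ P) {h : K} (hh : h ∈ P) {z : ℂ}
    (hz : P.valuation (h - algebraMap ℂ K z) < 1) :
    IsLocalRing.residue P ⟨h, hh⟩ = (IsLocalRing.residue P).comp (iotaP hP) z := by
  rw [RingHom.comp_apply, ← sub_eq_zero, ← map_sub, IsLocalRing.residue_eq_zero_iff, P.valuation_lt_one_iff]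
  exact hz

theorem pts (htr : Algebra.trdeg ℂ K = 1) (hmd : m * e ≤ d) (hx : Transcendental ℂ x)
    (hf : ∀ b, (f b).natDegree ≤ m * (e + 1 - (b : ℕ)))
    (hy : y ^ (e + 1) = ∑ b : Fin (e + 1), Polynomial.aeval x (f b) * y ^ (b : ℕ))
    (hB : ∀ i, c i (Sum.inr (Fin.last d)) ≠ 0) {pt : Fin n → ℂ} (hpt : pt ∈ placeCurve (gF x y c)) :
    (∃ x₀ y₀ : ℂ, Eqn m e (fun b a => (f b).coeff a) x₀ y₀ ∧ ∀ i,
      pt i * denP (fun s => ((c i s : ℚ) : ℂ)) x₀ = numP (fun s => ((c i s : ℚ) : ℂ)) x₀ y₀) ∨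
    ∃ t : ℂ, t ^ (e + 1) = ∑ b : Fin (e + 1), (f b).coeff (m * (e + 1 - (b : ℕ))) * t ^ (b : ℕ) ∧
      ∀ i, pt i * (c i (Sum.inr (Fin.last d)) : ℂ) = ∑ b : Fin (e + 1), (c i (Sum.inl ⟨b, Fin.last _⟩) : ℂ) * t ^ (b : ℕ) := by
  obtain ⟨P, hP, hPt, hval⟩ := hpt
  set φ := (IsLocalRing.residue P).comp (iotaP hP) with hφ
  have hinj : Function.Injective φ := RingHom.injective _
  have heq := eqn_K hf hy
  have hsub : Function.Injective P.subtype := Subtype.val_injective
  have hg : ∀ i, gF x y c i * denP (fun s => algebraMap ℂ K (c i s)) x = numP (fun s => algebraMap ℂ K (c i s)) x y := by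
    intro i
    unfold gF
    rw [div_mul_cancel₀ _ (denP_ne hx (hB i))]
  have hgP : ∀ i, gF x y c i ∈ P := fun i => value_mem hP (hval i)
  by_cases hxP : x ∈ P
  · left
    have hyP : y ∈ P := y_mem (O := P) (fun b a => hP _) hxP heq
    obtain ⟨x₀, hx₀⟩ := exists_value htr hP hPt hxP
    obtain ⟨y₀, hy₀⟩ := exists_value htr hP hPt hyP
    have hrx := residue_value hP hxP hx₀
    have hry := residue_value hP hyP hy₀
    refine ⟨x₀, y₀, ?_, fun i => ?_⟩
    · have h1 : Eqn m e (fun b a => iotaP hP ((f b).coeff a)) (⟨x, hxP⟩ : P) ⟨y, hyP⟩ :=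
        Eqn.of_map P.subtype hsub heq
      have h2 := h1.map (IsLocalRing.residue P)
      rw [hrx, hry] at h2
      exact Eqn.of_map φ hinj h2
    · apply hinj
      have h1 : (⟨gF x y c i, hgP i⟩ : P) * denP (fun s => iotaP hP (c i s)) ⟨x, hxP⟩ =
          numP (fun s => iotaP hP (c i s)) ⟨x, hxP⟩ ⟨y, hyP⟩ := by
        apply hsub
        rw [map_mul, ← denP_map, ← numP_map]
        exact hg i
      have h2 := congrArg (IsLocalRing.residue P) h1
      rw [map_mul, ← denP_map, ← numP_map, hrx, hry, residue_value hP (hgP i) (hval i)] at h2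
      rw [map_mul, ← denP_map, ← numP_map]
      exact h2
  · right
    have hx0 : x ≠ 0 := fun h => hxP (by rw [h]; exact P.zero_mem)
    have hu1 : P.valuation x⁻¹ < 1 := by
      rw [map_inv₀]
      have h1 : 1 < P.valuation x := by
        rw [← P.valuation_le_one_iff, not_le] at hxP
        exact hxP
      exact inv_lt_one_of_one_lt₀ h1
    have huP : x⁻¹ ∈ P := (P.valuation_le_one_iff _).mp hu1.le
    have hinf := heq.inf hx0
    have htP : y * x⁻¹ ^ m ∈ P := y_mem (O := P) (fun b a => hP _) huP hinf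
    obtain ⟨t₀, ht₀⟩ := exists_value htr hP hPt htP
    have hrt := residue_value hP htP ht₀
    have hru : IsLocalRing.residue P ⟨x⁻¹, huP⟩ = 0 := by
      rw [IsLocalRing.residue_eq_zero_iff, P.valuation_lt_one_iff]
      exact hu1
    refine ⟨t₀, ?_, fun i => ?_⟩
    · have h1 : Eqn m e (fun b a => iotaP hP ((f b).coeff (m * (e + 1 - (b : ℕ)) - a))) (⟨x⁻¹, huP⟩ : P) ⟨y * x⁻¹ ^ m, htP⟩ :=
        Eqn.of_map P.subtype hsub hinf
      have h2 := h1.map (IsLocalRing.residue P)
      rw [hru, hrt] at h2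
      have h3 := Eqn.zero (F := fun b a => φ ((f b).coeff a)) h2
      apply hinj
      rw [map_pow, map_sum]
      rw [h3]
      refine Finset.sum_congr rfl fun b _ => ?_
      rw [map_mul, map_pow]
    · apply hinj
      have h0 : gF x y c i * denI (fun s => algebraMap ℂ K (c i s)) x⁻¹ = numI (fun s => algebraMap ℂ K (c i s)) x⁻¹ (y * x⁻¹ ^ m) := by
        rw [← denI_eq _ hx0, ← numI_eq hmd _ hx0, ← hg i]
        ring
      have h1 : (⟨gF x y c i, hgP i⟩ : P) * denI (fun s => iotaP hP (c i s)) ⟨x⁻¹, huP⟩ =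
          numI (fun s => iotaP hP (c i s)) ⟨x⁻¹, huP⟩ ⟨y * x⁻¹ ^ m, htP⟩ := by
        apply hsub
        rw [map_mul, ← denI_map, ← numI_map]
        exact h0
      have h2 := congrArg (IsLocalRing.residue P) h1
      rw [map_mul, ← denI_map, ← numI_map, hru, hrt, residue_value hP (hgP i) (hval i), numI_zero, denI_zero] at h2
      rw [map_mul, map_sum]
      rw [show (IsLocalRing.residue P) (iotaP hP (c i (Sum.inr (Fin.last d)))) = φ (c i (Sum.inr (Fin.last d))) from rfl] at h2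
      rw [h2]
      refine Finset.sum_congr rfl fun b _ => ?_
      rw [map_mul, map_pow]
      rfl

end Pool.Agent.ZPF
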