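import Mathlib
import Pool.Agent.ZPF.Pts
import Pool.Agent.ZPF.Abs2
import Pool.Agent.ZPOrd.ThreeCrit
import Pool.Agent.ZPOrd.RatCrit

/-!
The criterion for all curves: from the local conditions on the coefficients to an empty atypical set.
-/

open UpperHalfPlane hiding I

namespace Pool.Agent.ZPF

open Pool.Agent.Lib.ModularZP Pool.Agent.ZPOrd Pool.Agent.ZP46

section Rk

variable {V : ValuationSubring ℂ}

/-- `z` is in `V`, with residue `a` -/
def Rk (V : ValuationSubring ℂ) (z : ℂ) (a : IsLocalRing.ResidueField V) : Prop :=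
  ∃ h : z ∈ V, IsLocalRing.residue V ⟨z, h⟩ = a

lemma Rk.add {z w : ℂ} {a b : IsLocalRing.ResidueField V} (h : Rk V z a) (h' : Rk V w b) : Rk V (z + w) (a + b) := by
  obtain ⟨h1, h2⟩ := h
  obtain ⟨h3, h4⟩ := h'
  refine ⟨add_mem h1 h3, ?_⟩
  rw [← h2, ← h4, ← map_add]
  rfl

lemma Rk.mul {z w : ℂ} {a b : IsLocalRing.ResidueField V} (h : Rk V z a) (h' : Rk V w b) : Rk V (z * w) (a * b) := by
  obtain ⟨h1, h2⟩ := h
  obtain ⟨h3, h4⟩ := h'
  refine ⟨mul_mem h1 h3, ?_⟩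
  rw [← h2, ← h4, ← map_mul]
  rfl

lemma Rk.pow {z : ℂ} {a : IsLocalRing.ResidueField V} (h : Rk V z a) (k : ℕ) : Rk V (z ^ k) (a ^ k) := by
  obtain ⟨h1, h2⟩ := h
  refine ⟨pow_mem h1 k, ?_⟩
  rw [← h2, ← map_pow]
  rfl

lemma Rk.sum {ι : Type*} (s : Finset ι) (g : ι → ℂ) (a : ι → IsLocalRing.ResidueField V) (h : ∀ k ∈ s, Rk V (g k) (a k)) :
    Rk V (∑ k ∈ s, g k) (∑ k ∈ s, a k) := by
  classical
  induction s using Finset.induction_on with
  | empty =>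
    simp only [Finset.sum_empty]
    exact ⟨V.zero_mem, map_zero _⟩
  | insert k s hk ih =>
    rw [Finset.sum_insert hk, Finset.sum_insert hk]
    exact (h k (Finset.mem_insert_self _ _)).add (ih fun j hj => h j (Finset.mem_insert_of_mem hj))

lemma Rk.div {z w : ℂ} {a b : IsLocalRing.ResidueField V} (h : Rk V z a) (h' : Rk V w b) (hb : b ≠ 0) :
    Rk V (z / w) (a / b) := by
  obtain ⟨h1, h2⟩ := h
  obtain ⟨h3, h4⟩ := h'
  obtain ⟨h5, h6⟩ := Pool.Agent.ZPOrd.div_mem h1 h3 (by rw [h4]; exact hb)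
  exact ⟨h5, by rw [h6, h2, h4]⟩

lemma Rk.ne_zero {z : ℂ} {a : IsLocalRing.ResidueField V} (h : Rk V z a) (ha : a ≠ 0) : z ≠ 0 := by
  rintro rfl
  obtain ⟨h1, h2⟩ := h
  exact ha (by rw [← h2]; exact map_zero _)

lemma Rk.unique {z : ℂ} {a b : IsLocalRing.ResidueField V} (h : Rk V z a) (h' : Rk V z b) : a = b := by
  obtain ⟨h1, h2⟩ := h
  obtain ⟨h3, h4⟩ := h'
  rw [← h2, ← h4]

/-- the solution of `z * b = a` -/
lemma Rk.quot {z w u : ℂ} {a b : IsLocalRing.ResidueField V} (h : Rk V w a) (h' : Rk V u b) (hb : b ≠ 0)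
    (hz : z * u = w) : Rk V z (a / b) := by
  have h1 : z = w / u := by
    rw [eq_div_iff (h'.ne_zero hb)]
    exact hz
  rw [h1]
  exact h.div h' hb

lemma res_iff' {x y : ℂ} (hx : x ∈ V) (hy : y ∈ V) : V.valuation (x - y) < 1 ↔
    IsLocalRing.residue V ⟨x, hx⟩ = IsLocalRing.residue V ⟨y, hy⟩ := by
  rw [← sub_eq_zero, ← map_sub, IsLocalRing.residue_eq_zero_iff]
  exact (V.valuation_lt_one_iff ((⟨x, hx⟩ : V) - ⟨y, hy⟩)).symm

lemma rk_self {z : ℂ} (h : z ∈ V) : Rk V z (IsLocalRing.residue V ⟨z, h⟩) := ⟨h, rfl⟩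

end Rk

section loc

variable {m d e n : ℕ} {f : Fin (e + 1) → Polynomial ℂ} {p : ℕ} [Fact p.Prime] {V : ValuationSubring ℂ}
  {ψ : ZMod p →+* IsLocalRing.ResidueField V} {r : ℂ → ZMod p} {dd : ZMod p → ℤ} {c : Fin n → Cf m d e → ℚ} {i : Fin n}

lemma rk_rat (ψ : ZMod p →+* IsLocalRing.ResidueField V) {q : ℚ} (h : ¬ p ∣ q.den) : Rk V (q : ℂ) (ψ (redQ p q)) := by
  have h' : (q.den : ZMod p) ≠ 0 := by rwa [Ne, ZMod.natCast_eq_zero_iff]
  exact ⟨rat_mem ψ h', residue_rat ψ h'⟩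

lemma rk_den (h : LocF f p V ψ r dd c i) (j : Fin n) {X : ℂ} {z : IsLocalRing.ResidueField V} (hX : Rk V X z) :
    Rk V (denP (fun s => ((c j s : ℚ) : ℂ)) X) (denP (fun s => ψ (redQ p (c j s))) z) := by
  unfold denP
  exact Rk.sum _ _ _ fun a _ => (rk_rat ψ (h.den j _ (by simp))).mul (hX.pow _)

lemma rk_num (h : LocF f p V ψ r dd c i) {j : Fin n} (hj : j ≠ i) {X Y : ℂ} {z w : IsLocalRing.ResidueField V}
    (hX : Rk V X z) (hY : Rk V Y w) :
    Rk V (numP (fun s => ((c j s : ℚ) : ℂ)) X Y) (numP (fun s => ψ (redQ p (c j s))) z w) := by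
  unfold numP
  exact Rk.sum _ _ _ fun a _ => ((rk_rat ψ (h.den j _ (fun h' => hj (Prod.ext_iff.mp h').1))).mul (hX.pow _)).mul (hY.pow _)

lemma rk_denI (h : LocF f p V ψ r dd c i) (j : Fin n) {X : ℂ} {z : IsLocalRing.ResidueField V} (hX : Rk V X z) :
    Rk V (denI (fun s => ((c j s : ℚ) : ℂ)) X) (denI (fun s => ψ (redQ p (c j s))) z) := by
  unfold denI
  exact Rk.sum _ _ _ fun a _ => (rk_rat ψ (h.den j _ (by simp))).mul (hX.pow _)

lemma rk_numI (h : LocF f p V ψ r dd c i) {j : Fin n} (hj : j ≠ i) {X Y : ℂ} {z w : IsLocalRing.ResidueField V}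
    (hX : Rk V X z) (hY : Rk V Y w) :
    Rk V (numI (fun s => ((c j s : ℚ) : ℂ)) X Y) (numI (fun s => ψ (redQ p (c j s))) z w) := by
  unfold numI
  exact Rk.sum _ _ _ fun a _ => ((rk_rat ψ (h.den j _ (fun h' => hj (Prod.ext_iff.mp h').1))).mul (hX.pow _)).mul (hY.pow _)

lemma lead_ne (h : LocF f p V ψ r dd c i) (j : Fin n) : c j (Sum.inr (Fin.last d)) ≠ 0 := by
  intro h0
  apply h.lead j
  rw [h0]
  unfold redQ
  simp

/-- the numerator of the private coordinate is not integral in the finite part -/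
lemma priv_num (h : LocF f p V ψ r dd c i) {X Y : ℂ} (hX : X ∈ V) (hY : Y ∈ V) :
    numP (fun s => ((c i s : ℚ) : ℂ)) X Y ∉ V := by
  classical
  have h1 : ((c i (Sum.inl ⟨0, 0⟩) : ℚ) : ℂ) ∉ V := by
    refine rat_notMem ψ ?_ ?_
    · rw [ZMod.natCast_eq_zero_iff]
      exact h.large
    · intro h2
      rw [ZMod.intCast_zmod_eq_zero_iff_dvd] at h2
      have h3 := (c i (Sum.inl ⟨0, 0⟩)).reduced
      have h4 : p ∣ (c i (Sum.inl ⟨0, 0⟩)).num.natAbs := Int.natCast_dvd.mp h2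
      have h5 : p ∣ 1 := by
        rw [← Nat.Coprime.gcd_eq_one h3]
        exact Nat.dvd_gcd h4 h.large
      exact (Fact.out : p.Prime).one_lt.ne' (Nat.dvd_one.mp h5)
  intro h2
  apply h1
  have h3 : numP (fun s => ((c i s : ℚ) : ℂ)) X Y = ((c i (Sum.inl ⟨0, 0⟩) : ℚ) : ℂ) +
      ∑ s ∈ Finset.univ.erase (⟨0, 0⟩ : Mo m d e), ((c i (Sum.inl s) : ℚ) : ℂ) * X ^ (s.2 : ℕ) * Y ^ (s.1 : ℕ) := by
    unfold numP
    rw [← Finset.add_sum_erase _ _ (Finset.mem_univ (⟨0, 0⟩ : Mo m d e))]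
    simp
  have h4 : ∑ s ∈ Finset.univ.erase (⟨0, 0⟩ : Mo m d e), ((c i (Sum.inl s) : ℚ) : ℂ) * X ^ (s.2 : ℕ) * Y ^ (s.1 : ℕ) ∈ V := by
    refine sum_mem fun s hs => V.mul_mem _ _ (V.mul_mem _ _ (rk_rat ψ (h.den i _ fun h' => ?_)).1 (pow_mem hX _)) (pow_mem hY _)
    exact Finset.ne_of_mem_erase hs (Sum.inl.inj (Prod.ext_iff.mp h').2)
  have h5 : ((c i (Sum.inl ⟨0, 0⟩) : ℚ) : ℂ) = numP (fun s => ((c i s : ℚ) : ℂ)) X Y -
      ∑ s ∈ Finset.univ.erase (⟨0, 0⟩ : Mo m d e), ((c i (Sum.inl s) : ℚ) : ℂ) * X ^ (s.2 : ℕ) * Y ^ (s.1 : ℕ) := by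
    rw [h3]; ring
  rw [h5]
  exact sub_mem h2 h4

/-- the set of numbers whose residues are needed -/
noncomputable def SF (m : ℕ) (f : Fin (e + 1) → Polynomial ℂ) : Finset ℂ :=
  (Finset.univ.biUnion fun b => (f b).support.image fun a => (f b).coeff a) ∪
    (Finset.univ.image fun b : Fin (e + 1) => (f b).coeff (m * (e + 1 - (b : ℕ)))) ∪
    (Polynomial.X ^ (e + 1) - ∑ b : Fin (e + 1), Polynomial.C ((f b).coeff (m * (e + 1 - (b : ℕ)))) *
      Polynomial.X ^ (b : ℕ) : Polynomial ℂ).roots.toFinset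

lemma rk_of_rs {z : ℂ} {a : ZMod p} (h : Rs ψ z a) : Rk V z (ψ a) := h

lemma coeff_mem (hS : ∀ s ∈ SF m f, Rs ψ s (r s)) (b : Fin (e + 1)) (a : ℕ) : (f b).coeff a ∈ V := by
  classical
  by_cases h : (f b).coeff a = 0
  · rw [h]; exact V.zero_mem
  · refine (hS _ ?_).1
    unfold SF
    rw [Finset.mem_union, Finset.mem_union]
    exact Or.inl (Or.inl (Finset.mem_biUnion.mpr ⟨b, Finset.mem_univ _, Finset.mem_image.mpr
      ⟨a, Polynomial.mem_support_iff.mpr h, rfl⟩⟩))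

lemma coeff_top (hS : ∀ s ∈ SF m f, Rs ψ s (r s)) (b : Fin (e + 1)) :
    Rk V ((f b).coeff (m * (e + 1 - (b : ℕ)))) (ψ (r ((f b).coeff (m * (e + 1 - (b : ℕ)))))) := by
  classical
  refine hS _ ?_
  unfold SF
  rw [Finset.mem_union, Finset.mem_union]
  exact Or.inl (Or.inr (Finset.mem_image.mpr ⟨b, Finset.mem_univ _, rfl⟩))

/-- the polynomial of the points at infinity -/
noncomputable def PI (m : ℕ) (f : Fin (e + 1) → Polynomial ℂ) : Polynomial ℂ :=
  Polynomial.X ^ (e + 1) - ∑ b : Fin (e + 1), Polynomial.C ((f b).coeff (m * (e + 1 - (b : ℕ)))) * Polynomial.X ^ (b : ℕ)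

lemma degree_sum_lt {R : Type*} [CommRing R] (g : Fin (e + 1) → R) :
    (∑ b : Fin (e + 1), Polynomial.C (g b) * Polynomial.X ^ (b : ℕ)).degree < ((e + 1 : ℕ) : WithBot ℕ) := by
  refine lt_of_le_of_lt (Polynomial.degree_sum_le _ _) ?_
  rw [Finset.sup_lt_iff (by exact WithBot.bot_lt_coe _)]
  intro b _
  refine lt_of_le_of_lt (Polynomial.degree_C_mul_X_pow_le _ _) ?_
  exact_mod_cast b.2

lemma PI_monic : (PI m f).Monic := by
  unfold PI
  exact Polynomial.monic_X_pow_sub (degree_sum_lt _)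

lemma PI_ne : PI m f ≠ 0 := PI_monic.ne_zero

lemma SF_root (t : ℂ) (ht : (PI m f).eval t = 0) : t ∈ SF m f := by
  classical
  unfold SF
  rw [Finset.mem_union]
  right
  rw [Multiset.mem_toFinset]
  exact (Polynomial.mem_roots PI_ne).mpr ht

lemma PI_eval (t : ℂ) : (PI m f).eval t = t ^ (e + 1) - ∑ b : Fin (e + 1), (f b).coeff (m * (e + 1 - (b : ℕ))) * t ^ (b : ℕ) := by
  unfold PI
  simp [Polynomial.eval_finsetSum]

/-- a root at infinity modulo `p` comes from a root over the complex numbers -/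
lemma inf_root (hS : ∀ s ∈ SF m f, Rs ψ s (r s)) {t : IsLocalRing.ResidueField V}
    (ht : t ^ (e + 1) = ∑ b : Fin (e + 1), ψ (r ((f b).coeff (m * (e + 1 - (b : ℕ))))) * t ^ (b : ℕ)) :
    ∃ η : ZMod p, InfRoot f p m r η ∧ t = ψ η := by
  classical
  obtain ⟨T, rfl⟩ := IsLocalRing.residue_surjective t
  have h1 : Rk V ((PI m f).eval (T : ℂ)) (IsLocalRing.residue V T ^ (e + 1) -
      ∑ b : Fin (e + 1), ψ (r ((f b).coeff (m * (e + 1 - (b : ℕ))))) * IsLocalRing.residue V T ^ (b : ℕ)) := by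
    have hT : Rk V (T : ℂ) (IsLocalRing.residue V T) := ⟨T.2, rfl⟩
    have h2 : Rk V (∑ b : Fin (e + 1), (f b).coeff (m * (e + 1 - (b : ℕ))) * (T : ℂ) ^ (b : ℕ))
        (∑ b : Fin (e + 1), ψ (r ((f b).coeff (m * (e + 1 - (b : ℕ))))) * IsLocalRing.residue V T ^ (b : ℕ)) :=
      Rk.sum _ _ _ fun b _ => (coeff_top hS b).mul (hT.pow _)
    rw [PI_eval]
    obtain ⟨h3, h4⟩ := hT.pow (e + 1)
    obtain ⟨h5, h6⟩ := h2
    refine ⟨sub_mem h3 h5, ?_⟩
    rw [← h4, ← h6, ← map_sub]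
    rfl
  rw [sub_eq_zero.mpr ht] at h1
  have h2 : V.valuation ((PI m f).eval (T : ℂ)) < 1 := by
    obtain ⟨h3, h4⟩ := h1
    rw [residue_eq_zero] at h4
    exact h4
  rw [(IsAlgClosed.splits (PI m f)).eq_prod_roots, PI_monic.leadingCoeff, map_one, one_mul,
    Polynomial.eval_multiset_prod, Multiset.map_map, map_multiset_prod, Multiset.map_map] at h2
  obtain ⟨η, hη, hη2⟩ : ∃ η ∈ (PI m f).roots, V.valuation ((T : ℂ) - η) < 1 := by
    by_contra hcon
    push Not at hcon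
    refine absurd h2 (not_lt.mpr (Multiset.one_le_prod ?_))
    intro v hv
    rw [Multiset.mem_map] at hv
    obtain ⟨η, hη, rfl⟩ := hv
    simpa using hcon η hη
  have hη0 : (PI m f).eval η = 0 := (Polynomial.mem_roots PI_ne).mp hη
  have hηS := hS η (SF_root η hη0)
  obtain ⟨h5, h6⟩ := hηS
  refine ⟨r η, ?_, ?_⟩
  · unfold InfRoot
    apply ψ.injective
    have e1 : Rk V (η ^ (e + 1)) (ψ (r η) ^ (e + 1)) := Rk.pow ⟨h5, h6⟩ _
    have e2 : Rk V (∑ b : Fin (e + 1), (f b).coeff (m * (e + 1 - (b : ℕ))) * η ^ (b : ℕ))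
        (∑ b : Fin (e + 1), ψ (r ((f b).coeff (m * (e + 1 - (b : ℕ))))) * ψ (r η) ^ (b : ℕ)) :=
      Rk.sum _ _ _ fun b _ => (coeff_top hS b).mul (Rk.pow ⟨h5, h6⟩ _)
    rw [PI_eval, sub_eq_zero] at hη0
    rw [hη0] at e1
    have e3 := e1.unique e2
    rw [map_pow, e3, map_sum]
    refine Finset.sum_congr rfl fun b _ => ?_
    rw [map_mul, map_pow]
  · rw [← h6]
    exact (res_iff' T.2 h5).mp hη2

lemma coeff_supp (hS : ∀ s ∈ SF m f, Rs ψ s (r s)) (b : Fin (e + 1)) {a : ℕ} (ha : a ∈ (f b).support) :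
    Rk V ((f b).coeff a) (ψ (r ((f b).coeff a))) := by
  classical
  refine hS _ ?_
  unfold SF
  rw [Finset.mem_union, Finset.mem_union]
  exact Or.inl (Or.inl (Finset.mem_biUnion.mpr ⟨b, Finset.mem_univ _, Finset.mem_image.mpr ⟨a, ha, rfl⟩⟩))

/-- the two kinds of points -/
theorem point_cases (hS : ∀ s ∈ SF m f, Rs ψ s (r s)) (hmd : m * e ≤ d)
    (hf : ∀ b, (f b).natDegree ≤ m * (e + 1 - (b : ℕ))) (h : LocF f p V ψ r dd c i)
    {pt : Fin n → ℂ} (hpt : (∃ x₀ y₀ : ℂ, Eqn m e (fun b a => (f b).coeff a) x₀ y₀ ∧ ∀ i,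
      pt i * denP (fun s => ((c i s : ℚ) : ℂ)) x₀ = numP (fun s => ((c i s : ℚ) : ℂ)) x₀ y₀) ∨
    ∃ t : ℂ, t ^ (e + 1) = ∑ b : Fin (e + 1), (f b).coeff (m * (e + 1 - (b : ℕ))) * t ^ (b : ℕ) ∧
      ∀ i, pt i * (c i (Sum.inr (Fin.last d)) : ℂ) = ∑ b : Fin (e + 1), (c i (Sum.inl ⟨b, Fin.last _⟩) : ℂ) * t ^ (b : ℕ)) :
    (∃ η, InfRoot f p m r η ∧ ∀ j, j ≠ i → Rk V (pt j) (ψ (infVal p c j η))) ∨
    (pt i ∉ V ∧ ∃ z w : IsLocalRing.ResidueField V,
      w ^ (e + 1) = ∑ b : Fin (e + 1), ((f b).sum fun a u => ψ (r u) * z ^ a) * w ^ (b : ℕ) ∧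
      ∀ j, j ≠ i → (pt j ∉ V → denP (fun s => ψ (redQ p (c j s))) z = 0) ∧
        (denP (fun s => ψ (redQ p (c j s))) z ≠ 0 →
          Rk V (pt j) (numP (fun s => ψ (redQ p (c j s))) z w / denP (fun s => ψ (redQ p (c j s))) z))) := by
  have hfin : ∀ (t : IsLocalRing.ResidueField V), t ^ (e + 1) = ∑ b : Fin (e + 1),
      ψ (r ((f b).coeff (m * (e + 1 - (b : ℕ))))) * t ^ (b : ℕ) → ∃ η, InfRoot f p m r η ∧ t = ψ η := fun t ht => inf_root hS ht
  have hinf : ∀ (η : ZMod p) (j : Fin n), ψ (infVal p c j η) =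
      (∑ b : Fin (e + 1), ψ (redQ p (c j (Sum.inl ⟨b, Fin.last _⟩))) * ψ η ^ (b : ℕ)) / ψ (redQ p (c j (Sum.inr (Fin.last _)))) := by
    intro η j
    unfold infVal
    rw [map_div₀, map_sum]
    simp only [map_mul, map_pow]
  have hlead : ∀ j, ψ (redQ p (c j (Sum.inr (Fin.last _)))) ≠ 0 := fun j => (map_ne_zero ψ).mpr (h.lead j)
  rcases hpt with ⟨x₀, y₀, heq, hA⟩ | ⟨t, ht, hA⟩
  · by_cases hx₀ : x₀ ∈ V
    · right
      have hy₀ : y₀ ∈ V := y_mem (O := V) (fun b a => coeff_mem hS b a) hx₀ heq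
      have hX := rk_self hx₀
      have hY := rk_self hy₀
      set z := IsLocalRing.residue V ⟨x₀, hx₀⟩ with hz
      set w := IsLocalRing.residue V ⟨y₀, hy₀⟩ with hw
      refine ⟨fun hi => ?_, z, w, ?_, fun j hj => ⟨fun hjV => ?_, fun hden => ?_⟩⟩
      · apply priv_num h hx₀ hy₀
        rw [← hA i]
        exact V.mul_mem _ _ hi (rk_den h i hX).1
      · have h1 := hY.pow (e + 1)
        unfold Eqn at heq
        have h2 : Rk V (∑ b : Fin (e + 1), (∑ a ∈ Finset.range (m * (e + 1 - (b : ℕ)) + 1), (f b).coeff a * x₀ ^ a) * y₀ ^ (b : ℕ))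
            (∑ b : Fin (e + 1), (∑ a ∈ Finset.range (m * (e + 1 - (b : ℕ)) + 1),
              IsLocalRing.residue V ⟨(f b).coeff a, coeff_mem hS b a⟩ * z ^ a) * w ^ (b : ℕ)) :=
          Rk.sum _ _ _ fun b _ => (Rk.sum _ _ _ fun a _ => (rk_self _).mul (hX.pow _)).mul (hY.pow _)
        rw [← heq] at h2
        rw [h1.unique h2]
        refine Finset.sum_congr rfl fun b _ => ?_
        congr 1
        rw [Polynomial.sum_def]
        symm
        have hsub : (f b).support ⊆ Finset.range (m * (e + 1 - (b : ℕ)) + 1) := fun a ha =>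
          Finset.mem_range.mpr (Nat.lt_succ_of_le ((Polynomial.le_natDegree_of_mem_supp a ha).trans (hf b)))
        rw [← Finset.sum_subset hsub]
        · refine Finset.sum_congr rfl fun a ha => ?_
          congr 1
          exact (coeff_supp hS b ha).unique (rk_self _)
        · intro a _ ha
          have h0 : (f b).coeff a = 0 := Polynomial.notMem_support_iff.mp ha
          have h3 : (⟨(f b).coeff a, coeff_mem hS b a⟩ : V) = 0 := Subtype.ext h0
          rw [h3, map_zero, zero_mul]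
      · by_contra hne
        apply hjV
        have h1 : pt j = numP (fun s => ((c j s : ℚ) : ℂ)) x₀ y₀ / denP (fun s => ((c j s : ℚ) : ℂ)) x₀ := by
          rw [eq_div_iff ((rk_den h j hX).ne_zero hne)]
          exact hA j
        rw [h1]
        exact ((rk_num h hj hX hY).div (rk_den h j hX) hne).1
      · exact Rk.quot (rk_num h hj hX hY) (rk_den h j hX) hden (hA j)
    · left
      have hx0 : x₀ ≠ 0 := fun h => hx₀ (by rw [h]; exact V.zero_mem)
      have hu1 : V.valuation x₀⁻¹ < 1 := by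
        rw [map_inv₀]
        have h1 : 1 < V.valuation x₀ := by
          rw [← V.valuation_le_one_iff, not_le] at hx₀
          exact hx₀
        exact inv_lt_one_of_one_lt₀ h1
      have huV : x₀⁻¹ ∈ V := (V.valuation_le_one_iff _).mp hu1.le
      have heqi := heq.inf hx0
      have htV : y₀ * x₀⁻¹ ^ m ∈ V := y_mem (O := V) (fun b a => coeff_mem hS b _) huV heqi
      have hU : Rk V x₀⁻¹ 0 := ⟨huV, residue_eq_zero.mpr hu1⟩
      have hT := rk_self htV
      set t := IsLocalRing.residue V ⟨y₀ * x₀⁻¹ ^ m, htV⟩ with ht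
      have h1 : Eqn m e (fun b a => IsLocalRing.residue V ⟨(f b).coeff (m * (e + 1 - (b : ℕ)) - a), coeff_mem hS b _⟩) 0 t := by
        have h2 : Eqn m e (fun b a => (⟨(f b).coeff (m * (e + 1 - (b : ℕ)) - a), coeff_mem hS b _⟩ : V)) ⟨x₀⁻¹, huV⟩
            ⟨y₀ * x₀⁻¹ ^ m, htV⟩ := Eqn.of_map V.subtype Subtype.val_injective heqi
        have h3 := h2.map (IsLocalRing.residue V)
        rw [hU.2] at h3
        exact h3
      have h2 := Eqn.zero (F := fun b a => IsLocalRing.residue V ⟨(f b).coeff a, coeff_mem hS b _⟩) h1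
      obtain ⟨η, hη, hη2⟩ := hfin t (by
        rw [h2]
        refine Finset.sum_congr rfl fun b _ => ?_
        congr 1
        exact (rk_self (coeff_mem hS b _)).unique (coeff_top hS b))
      refine ⟨η, hη, fun j hj => ?_⟩
      have h3 : pt j * denI (fun s => ((c j s : ℚ) : ℂ)) x₀⁻¹ = numI (fun s => ((c j s : ℚ) : ℂ)) x₀⁻¹ (y₀ * x₀⁻¹ ^ m) := by
        rw [← denI_eq _ hx0, ← numI_eq hmd _ hx0, ← hA j]
        ring
      have h4 := rk_numI h hj hU hT
      have h5 := rk_denI h j hU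
      rw [numI_zero] at h4
      rw [denI_zero] at h5
      rw [hinf, ← hη2]
      exact Rk.quot h4 h5 (hlead j) h3
  · left
    obtain ⟨h5, h6⟩ := hS t (SF_root t (by rw [PI_eval, ht, sub_self]))
    have hT : Rk V t (ψ (r t)) := ⟨h5, h6⟩
    obtain ⟨η, hη, hη2⟩ := hfin (ψ (r t)) (by
      have e1 : Rk V (t ^ (e + 1)) (ψ (r t) ^ (e + 1)) := hT.pow _
      have e2 : Rk V (∑ b : Fin (e + 1), (f b).coeff (m * (e + 1 - (b : ℕ))) * t ^ (b : ℕ))
          (∑ b : Fin (e + 1), ψ (r ((f b).coeff (m * (e + 1 - (b : ℕ))))) * ψ (r t) ^ (b : ℕ)) :=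
        Rk.sum _ _ _ fun b _ => (coeff_top hS b).mul (hT.pow _)
      rw [← ht] at e2
      exact e1.unique e2)
    refine ⟨η, hη, fun j hj => ?_⟩
    have h7 : Rk V (∑ b : Fin (e + 1), (c j (Sum.inl ⟨b, Fin.last _⟩) : ℂ) * t ^ (b : ℕ))
        (∑ b : Fin (e + 1), ψ (redQ p (c j (Sum.inl ⟨b, Fin.last _⟩))) * ψ η ^ (b : ℕ)) := by
      rw [← hη2]
      exact Rk.sum _ _ _ fun b _ => (rk_rat ψ (h.den j _ (fun h' => hj (Prod.ext_iff.mp h').1))).mul (hT.pow _)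
    rw [hinf]
    exact Rk.quot h7 (rk_rat ψ (h.den j _ (by simp))) (hlead j) (hA j)

/-- the residues at infinity -/
noncomputable def RIv (f : Fin (e + 1) → Polynomial ℂ) (p : ℕ) [Fact p.Prime] (r : ℂ → ZMod p) (c : Fin n → Cf m d e → ℚ) :
    Finset (Fin n → ℤ) := by
  classical
  exact (Finset.univ.filter fun η => InfRoot f p m r η).image fun η j => ((infVal p c j η).val : ℤ)

lemma mem_RIv {g : Fin n → ℤ} (h : g ∈ RIv f p r c) : ∃ η, InfRoot f p m r η ∧ ∀ j, ((g j : ℤ) : ZMod p) = infVal p c j η := by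
  classical
  have : NeZero p := ⟨(Fact.out : p.Prime).ne_zero⟩
  unfold RIv at h
  obtain ⟨η, hη, rfl⟩ := Finset.mem_image.mp h
  refine ⟨η, (Finset.mem_filter.mp hη).2, fun j => ?_⟩
  rw [Int.cast_natCast, ZMod.natCast_zmod_val]

lemma RI_mem {η : ZMod p} (h : InfRoot f p m r η) : (fun j => ((infVal p c j η).val : ℤ)) ∈ RIv f p r c := by
  classical
  unfold RIv
  exact Finset.mem_image.mpr ⟨η, Finset.mem_filter.mpr ⟨Finset.mem_univ _, h⟩, rfl⟩

/-- from the coefficients to the local conditions -/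
theorem locC'_of {D : ∀ p : ℕ, ValuationSubring ℂ → ZMod p → ℤ} (hV : V.valuation (p : ℂ) < 1)
    (hS : ∀ s ∈ SF m f, Rs ψ s (r s)) (hmd : m * e ≤ d) (hf : ∀ b, (f b).natDegree ≤ m * (e + 1 - (b : ℕ)))
    (h : LocF f p V ψ r (D p V) c i) {C : Set (Fin n → ℂ)} (hC : ∀ pt ∈ C, (∃ x₀ y₀ : ℂ, Eqn m e (fun b a => (f b).coeff a) x₀ y₀ ∧ ∀ i,
      pt i * denP (fun s => ((c i s : ℚ) : ℂ)) x₀ = numP (fun s => ((c i s : ℚ) : ℂ)) x₀ y₀) ∨
    ∃ t : ℂ, t ^ (e + 1) = ∑ b : Fin (e + 1), (f b).coeff (m * (e + 1 - (b : ℕ))) * t ^ (b : ℕ) ∧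
      ∀ i, pt i * (c i (Sum.inr (Fin.last d)) : ℂ) = ∑ b : Fin (e + 1), (c i (Sum.inl ⟨b, Fin.last _⟩) : ℂ) * t ^ (b : ℕ)) :
    LocC' D C i p V (RIv f p r c) := by
  classical
  have hp : p.Prime := Fact.out
  refine ⟨hp, h.two, hV, ?_, ?_, ?_, ?_, ?_⟩
  · intro pt hpt hi
    rcases point_cases hS hmd hf h (hC pt hpt) with ⟨η, hη, hj⟩ | ⟨h1, _⟩
    · refine ⟨_, RI_mem hη, fun j hji => ?_⟩
      obtain ⟨h2, h3⟩ := hj j hji
      exact val_sub_val ψ h2 h3
    · exact absurd hi h1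
  · intro g hg j hj
    obtain ⟨η, hη, hgη⟩ := mem_RIv hg
    rw [hgη j]
    exact h.ordInf η hη j hj
  · intro g hg j k hj hk hjk
    obtain ⟨η, hη, hgη⟩ := mem_RIv hg
    rw [hgη j, hgη k]
    exact h.crossInf η hη j k hj hk hjk
  · intro pt hpt j k hj hk hjk
    by_contra hcon
    push Not at hcon
    rcases point_cases hS hmd hf h (hC pt hpt) with ⟨η, hη, hj'⟩ | ⟨_, z, w, _, h2⟩
    · exact hcon.1 (hj' j hj).1
    · exact h.coprime j k hj hk hjk z ((h2 j hj).1 hcon.1) ((h2 k hk).1 hcon.2)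
  · intro pt hpt j k l hj hk hl hjk hjl hkl hxj hiso
    rcases point_cases hS hmd hf h (hC pt hpt) with ⟨η, hη, hj'⟩ | ⟨_, z, w, h1, h2⟩
    · exact hxj (hj' j hj).1
    · have h3 := (h2 j hj).1 hxj
      have h4 := (h2 k hk).2 (h.coprime j k hj hk hjk z h3)
      have h5 := (h2 l hl).2 (h.coprime j l hj hl hjl z h3)
      apply h.four j k l hj hk hl hjk hjl hkl z w h3 h1
      obtain ⟨τ, M, hM, hk1, hl1⟩ := hiso
      obtain ⟨e1, e2⟩ := h4
      obtain ⟨e3, e4⟩ := h5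
      refine ⟨τ, M, hM, by rw [← hk1]; exact e1, by rw [← hl1]; exact e3, ?_, ?_⟩
      · rw [← e2]
        congr 1
        exact Subtype.ext hk1.symm
      · rw [← e4]
        congr 1
        exact Subtype.ext hl1.symm

end loc

section final

variable {K : Type*} [Field K] [Algebra ℂ K] {m d e n : ℕ} {x y : K} {f : Fin (e + 1) → Polynomial ℂ}
  {c : Fin n → Cf m d e → ℚ}

lemma value_residue {P : ValuationSubring K} (hP : ∀ c : ℂ, algebraMap ℂ K c ∈ P) {h : K} (hh : h ∈ P) {z : ℂ}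
    (hz : IsLocalRing.residue P ⟨h, hh⟩ = (IsLocalRing.residue P).comp (iotaP hP) z) :
    P.valuation (h - algebraMap ℂ K z) < 1 := by
  rw [RingHom.comp_apply, ← sub_eq_zero, ← map_sub, IsLocalRing.residue_eq_zero_iff, P.valuation_lt_one_iff] at hz
  exact hz

/-- a point of the curve with given value of `x` -/
theorem exists_pt (htr : Algebra.trdeg ℂ K = 1) (hx : Transcendental ℂ x)
    (hf : ∀ b, (f b).natDegree ≤ m * (e + 1 - (b : ℕ)))
    (hy : y ^ (e + 1) = ∑ b : Fin (e + 1), Polynomial.aeval x (f b) * y ^ (b : ℕ)) (z₀ : ℂ)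
    (h : ∀ j, denP (fun s => ((c j s : ℚ) : ℂ)) z₀ ≠ 0) :
    ∃ y₀ : ℂ, Eqn m e (fun b a => (f b).coeff a) z₀ y₀ ∧
      (fun j => numP (fun s => ((c j s : ℚ) : ℂ)) z₀ y₀ / denP (fun s => ((c j s : ℚ) : ℂ)) z₀) ∈ placeCurve (gF x y c) := by
  obtain ⟨P, hP, hPt, hPx⟩ := exists_place hx z₀
  have hxP := value_mem hP hPx
  set φ := (IsLocalRing.residue P).comp (iotaP hP) with hφ
  have hinj : Function.Injective φ := RingHom.injective _
  have heq := eqn_K hf hy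
  have hsub : Function.Injective P.subtype := Subtype.val_injective
  have hyP : y ∈ P := y_mem (O := P) (fun b a => hP _) hxP heq
  obtain ⟨y₀, hy₀⟩ := exists_value htr hP hPt hyP
  have hrx := residue_value hP hxP hPx
  have hry := residue_value hP hyP hy₀
  refine ⟨y₀, ?_, P, hP, hPt, fun j => ?_⟩
  · have h1 : Eqn m e (fun b a => iotaP hP ((f b).coeff a)) (⟨x, hxP⟩ : P) ⟨y, hyP⟩ :=
      Eqn.of_map P.subtype hsub heq
    have h2 := h1.map (IsLocalRing.residue P)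
    rw [hrx, hry] at h2
    exact Eqn.of_map φ hinj h2
  · have e1 : P.subtype (numP (fun s => iotaP hP (c j s)) ⟨x, hxP⟩ ⟨y, hyP⟩) = numP (fun s => algebraMap ℂ K (c j s)) x y := by
      rw [← numP_map]; rfl
    have e2 : P.subtype (denP (fun s => iotaP hP (c j s)) ⟨x, hxP⟩) = denP (fun s => algebraMap ℂ K (c j s)) x := by
      rw [← denP_map]; rfl
    have e3 : IsLocalRing.residue P (numP (fun s => iotaP hP (c j s)) ⟨x, hxP⟩ ⟨y, hyP⟩) =
        φ (numP (fun s => ((c j s : ℚ) : ℂ)) z₀ y₀) := by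
      rw [← numP_map, ← numP_map, hrx, hry]; rfl
    have e4 : IsLocalRing.residue P (denP (fun s => iotaP hP (c j s)) ⟨x, hxP⟩) =
        φ (denP (fun s => ((c j s : ℚ) : ℂ)) z₀) := by
      rw [← denP_map, ← denP_map, hrx]; rfl
    unfold gF
    rw [map_div₀, ← e1, ← e2]
    exact div_close (hP _) (const_val hP (h j)) (value_residue hP (Subtype.property _) e3)
      (value_residue hP (Subtype.property _) e4)

/-- a point at which only the private coordinate is not integral -/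
theorem exists_priv (htr : Algebra.trdeg ℂ K = 1) (hx : Transcendental ℂ x)
    (hf : ∀ b, (f b).natDegree ≤ m * (e + 1 - (b : ℕ)))
    (hy : y ^ (e + 1) = ∑ b : Fin (e + 1), Polynomial.aeval x (f b) * y ^ (b : ℕ))
    {p : ℕ} [Fact p.Prime] {V : ValuationSubring ℂ} {ψ : ZMod p →+* IsLocalRing.ResidueField V} {r : ℂ → ZMod p}
    {dd : ZMod p → ℤ} {i : Fin n} (hS : ∀ s ∈ SF m f, Rs ψ s (r s)) (h : LocF f p V ψ r dd c i) :
    ∃ pt ∈ placeCurve (gF x y c), pt i ∉ V ∧ ∀ j, j ≠ i → pt j ∈ V := by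
  classical
  have : Infinite (IsLocalRing.ResidueField V) := IsAlgClosed.instInfinite
  let Q : Fin n → Polynomial (IsLocalRing.ResidueField V) := fun j =>
    ∑ a : Fin (d + 1), Polynomial.C (ψ (redQ p (c j (Sum.inr a)))) * Polynomial.X ^ (a : ℕ)
  have hQ : ∀ j, Q j ≠ 0 := by
    intro j h0
    have h1 : (Q j).coeff d = ψ (redQ p (c j (Sum.inr (Fin.last _)))) := by
      simp only [Q]
      rw [Polynomial.finsetSum_coeff, Finset.sum_eq_single (Fin.last d)]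
      · simp
      · intro k _ hk
        have h2 : (k : ℕ) ≠ d := fun h => hk (Fin.ext h)
        rw [Polynomial.coeff_C_mul, Polynomial.coeff_X_pow, if_neg (Ne.symm h2), mul_zero]
      · intro h
        exact absurd (Finset.mem_univ _) h
    rw [h0, Polynomial.coeff_zero] at h1
    exact (map_ne_zero ψ).mpr (h.lead j) h1.symm
  have hprod : (∏ j, Q j) ≠ 0 := Finset.prod_ne_zero_iff.mpr fun j _ => hQ j
  obtain ⟨a, ha⟩ : ∃ a, (∏ j, Q j).eval a ≠ 0 := by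
    by_contra hcon
    push Not at hcon
    exact hprod (Polynomial.funext fun a => by rw [hcon a, Polynomial.eval_zero])
  rw [Polynomial.eval_prod, Finset.prod_ne_zero_iff] at ha
  obtain ⟨t, rfl⟩ := IsLocalRing.residue_surjective a
  have hT : Rk V (t : ℂ) (IsLocalRing.residue V t) := ⟨t.2, rfl⟩
  have hQe : ∀ j, denP (fun s => ψ (redQ p (c j s))) (IsLocalRing.residue V t) ≠ 0 := by
    intro j
    have h1 := ha j (Finset.mem_univ _)
    simp only [Q] at h1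
    rw [Polynomial.eval_finsetSum] at h1
    unfold denP
    simpa using h1
  obtain ⟨y₀, hE, hpt⟩ := exists_pt htr hx hf hy (t : ℂ) fun j => (rk_den h j hT).ne_zero (hQe j)
  have hyV : y₀ ∈ V := y_mem (O := V) (fun b a => coeff_mem hS b a) t.2 hE
  refine ⟨_, hpt, fun hi => ?_, fun j hj => ?_⟩
  · apply priv_num h t.2 hyV
    have h1 := V.mul_mem _ _ hi (rk_den h i hT).1
    rw [div_mul_cancel₀ _ ((rk_den h i hT).ne_zero (hQe i))] at h1
    exact h1
  · exact ((rk_num h hj hT (rk_self hyV)).div (rk_den h j hT) (hQe j)).1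

theorem allCrit {K : Type*} [Field K] [Algebra ℂ K] (htr : Algebra.trdeg ℂ K = 1) {m d e n : ℕ} (hmd : m * e ≤ d)
    {x y : K} (hx : Transcendental ℂ x) (f : Fin (e + 1) → Polynomial ℂ)
    (hf : ∀ b, (f b).natDegree ≤ m * (e + 1 - (b : ℕ)))
    (hy : y ^ (e + 1) = ∑ b : Fin (e + 1), Polynomial.aeval x (f b) * y ^ (b : ℕ))
    {dd : ∀ p : ℕ, ValuationSubring ℂ → ZMod p → ℤ} (hd : DiscFn dd) :
    ∃ S : Finset ℂ, ∀ c : Fin n → Cf m d e → ℚ, AllLoc f dd S c →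
      HodgeGeneric (placeCurve fun i => numP (fun s => algebraMap ℂ K (c i s)) x y / denP (fun s => algebraMap ℂ K (c i s)) x) ∧
      atyp (placeCurve fun i => numP (fun s => algebraMap ℂ K (c i s)) x y / denP (fun s => algebraMap ℂ K (c i s)) x) = ∅ := by
  refine ⟨SF m f, fun c hc => ?_⟩
  change HodgeGeneric (placeCurve (gF x y c)) ∧ atyp (placeCurve (gF x y c)) = ∅
  have hB : ∀ i, c i (Sum.inr (Fin.last d)) ≠ 0 := by
    intro i
    obtain ⟨p, q, _, _, V, V', ψ, ψ', r, r', _, _, _, _, h, _, _⟩ := hc i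
    exact lead_ne h i
  have hC : ∀ pt ∈ placeCurve (gF x y c), _ := fun pt hpt => pts htr hmd hx hf hy hB hpt
  constructor
  · refine hodge_of_points fun i => ?_
    obtain ⟨p, q, _, _, V, V', ψ, ψ', r, r', hV, _, hS, _, h, _, _⟩ := hc i
    exact ⟨V, exists_priv htr hx hf hy hS h⟩
  · refine atyp_empty' hd fun i => ?_
    obtain ⟨p, q, _, _, V, V', ψ, ψ', r, r', hV, hV', hS, hS', h, h', hcr⟩ := hc i
    refine ⟨p, q, V, V', RIv f p r c, RIv f q r' c, locC'_of hV hS hmd hf h hC, locC'_of hV' hS' hmd hf h' hC, ?_⟩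
    intro g hg g' hg' j hj
    obtain ⟨η, hη, hgη⟩ := mem_RIv hg
    obtain ⟨η', hη', hgη'⟩ := mem_RIv hg'
    rw [hgη j, hgη' j]
    exact hcr j hj η η' hη hη'

end final

end Pool.Agent.ZPF
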