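import Mathlib
import Pool.Agent.ZPF.AllDefs

/-!
Counting lemmas for the density theorem.
-/

open Filter Topology

namespace Pool.Agent.ZPF

open Pool.Agent.Lib.ModularZP Pool.Agent.ZPOrd Pool.Agent.ZP46 Finset

section general

variable {p : ℕ} [Fact p.Prime]

open Classical in
/-- removing a few bad events from a set of positive proportion -/
lemma union_real {β κ : Type*} [Fintype β] [Fintype κ] [hκ : DecidableEq κ] (G : (κ → ZMod p) → Prop) (C : ℕ)
    (hG : p ^ Fintype.card κ ≤ C * ((univ : Finset (κ → ZMod p)).filter G).card)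
    (Bad : β → (κ → ZMod p) → Prop) (ε : ℝ) (Q : (κ → ZMod p) → Prop)
    (hQ : ∀ v, G v → ¬ Q v → ∃ b, Bad b v)
    (h : ∀ b, (((univ : Finset (κ → ZMod p)).filter (Bad b)).card : ℝ) ≤ ε * (p : ℝ) ^ Fintype.card κ)
    (hε : 2 * (C : ℝ) * (Fintype.card β * ε) ≤ 1) :
    p ^ Fintype.card κ ≤ 2 * C * ((univ : Finset (κ → ZMod p)).filter Q).card := by
  have hsub : ((univ : Finset (κ → ZMod p)).filter G) ⊆
      ((univ : Finset (κ → ZMod p)).filter Q) ∪
        (univ : Finset β).biUnion fun b => (univ : Finset (κ → ZMod p)).filter (Bad b) := by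
    intro v hv
    rw [mem_filter] at hv
    rw [mem_union, mem_filter, mem_biUnion]
    by_cases hq : Q v
    · exact Or.inl ⟨mem_univ _, hq⟩
    · obtain ⟨b, hb⟩ := hQ v hv.2 hq
      exact Or.inr ⟨b, mem_univ _, mem_filter.mpr ⟨mem_univ _, hb⟩⟩
  have h1 : (((univ : Finset (κ → ZMod p)).filter G).card : ℝ) ≤
      ((univ : Finset (κ → ZMod p)).filter Q).card + Fintype.card β * (ε * (p : ℝ) ^ Fintype.card κ) := by
    calc (((univ : Finset (κ → ZMod p)).filter G).card : ℝ)
        ≤ ((((univ : Finset (κ → ZMod p)).filter Q).card + ∑ b : β, ((univ : Finset (κ → ZMod p)).filter (Bad b)).card : ℕ) : ℝ) := by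
          refine Nat.cast_le.mpr ((card_le_card hsub).trans ((card_union_le _ _).trans ?_))
          exact Nat.add_le_add_left card_biUnion_le _
      _ = ((univ : Finset (κ → ZMod p)).filter Q).card + ∑ b : β, (((univ : Finset (κ → ZMod p)).filter (Bad b)).card : ℝ) := by
          push_cast
          rfl
      _ ≤ ((univ : Finset (κ → ZMod p)).filter Q).card + ∑ _b : β, ε * (p : ℝ) ^ Fintype.card κ := by
          gcongr with b
          exact h b
      _ = _ := by
          rw [sum_const, card_univ, nsmul_eq_mul]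
  have h2 : ((p : ℝ) ^ Fintype.card κ) ≤ C * (((univ : Finset (κ → ZMod p)).filter G).card : ℝ) := by
    exact_mod_cast hG
  have h3 : (0 : ℝ) ≤ (p : ℝ) ^ Fintype.card κ := by positivity
  have h4 : (C : ℝ) * (Fintype.card β * (ε * (p : ℝ) ^ Fintype.card κ)) ≤ (p : ℝ) ^ Fintype.card κ / 2 := by
    have := mul_le_mul_of_nonneg_right hε h3
    nlinarith
  have h5 : ((p : ℝ) ^ Fintype.card κ) ≤ 2 * C * (((univ : Finset (κ → ZMod p)).filter Q).card : ℝ) := by
    have := mul_le_mul_of_nonneg_left h1 (Nat.cast_nonneg (α := ℝ) C)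
    nlinarith
  exact_mod_cast h5

open Classical in
lemma card_box_gen {ι : Type*} [Fintype ι] [DecidableEq ι] (s₀ : ι) (P Q : (ι → ZMod p) → Prop) (C : ℕ)
    (hPQ : ∀ v v', (∀ s, s ≠ s₀ → v s = v' s) → P v → Q v')
    (h : p ^ Fintype.card ι ≤ C * ((univ : Finset (ι → ZMod p)).filter P).card) (hp : 2 * Fintype.card ι ≤ p) :
    p ^ (2 * Fintype.card ι) ≤ 2 * C * p * ((boxS s₀ p).filter fun x => Q (vr x)).card := by
  have h2 := card_nonzero' (ι := ι) hp
  set G := ((univ : Finset (ι → ZMod p)).filter P) ×ˢ ((univ : Finset (ι → ZMod p)).filter NZ') with hG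
  have h3 : p ^ (2 * Fintype.card ι) ≤ 2 * C * G.card := by
    rw [hG, card_product, two_mul, pow_add]
    calc _ ≤ (C * ((univ : Finset (ι → ZMod p)).filter P).card) *
          (2 * ((univ : Finset (ι → ZMod p)).filter NZ').card) := Nat.mul_le_mul h h2
      _ = _ := by ring
  have hvr : ∀ v u : ι → ZMod p, NZ' u → ∀ s, s ≠ s₀ → vr (frX s₀ v u) s = v s := by
    intro v u hu s hs
    unfold vr frX
    simp only [if_neg hs]
    rw [mul_div_cancel_right₀ _ (hu s)]
  have h4 : G.card ≤ p * (G.image fun yu => frX s₀ yu.1 yu.2).card := by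
    refine card_le_mul_card_image _ _ fun x _ => ?_
    let Y : ι → Finset (ZMod p) := fun s => if s = s₀ then univ else {vr x s}
    let U : ι → Finset (ZMod p) := fun s => {if s = s₀ then x (Sum.inl s) else x (Sum.inr s)}
    have hsub : (G.filter fun yu => frX s₀ yu.1 yu.2 = x) ⊆ (Fintype.piFinset Y) ×ˢ (Fintype.piFinset U) := by
      rintro ⟨y, u⟩ h
      rw [mem_filter, hG, mem_product, mem_filter, mem_filter] at h
      obtain ⟨⟨⟨_, hy⟩, _, hu⟩, rfl⟩ := h
      rw [mem_product, Fintype.mem_piFinset, Fintype.mem_piFinset]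
      simp only at hy hu ⊢
      refine ⟨fun s => ?_, fun s => ?_⟩
      · simp only [Y]
        by_cases hs : s = s₀
        · rw [if_pos hs]
          exact mem_univ _
        · rw [if_neg hs, mem_singleton, hvr _ _ hu _ hs]
      · simp only [U, mem_singleton]
        by_cases hs : s = s₀
        · rw [if_pos hs]
          simp only [frX, if_pos hs]
        · rw [if_neg hs]
          simp only [frX, if_neg hs]
    refine (card_le_card hsub).trans ?_
    rw [card_product, Fintype.card_piFinset, Fintype.card_piFinset]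
    have hU : ∏ s : ι, (U s).card = 1 := prod_eq_one fun s _ => card_singleton _
    have hY : ∏ s : ι, (Y s).card = p := by
      have h2 : ∀ s : ι, (Y s).card = if s = s₀ then p else 1 := by
        intro s
        simp only [Y]
        by_cases hs : s = s₀
        · rw [if_pos hs, if_pos hs, card_univ, ZMod.card]
        · rw [if_neg hs, if_neg hs, card_singleton]
      rw [prod_congr rfl fun s _ => h2 s, prod_ite_eq' univ s₀ fun _ => p, if_pos (mem_univ _)]
    rw [hU, hY, mul_one]
  have h5 : (G.image fun yu => frX s₀ yu.1 yu.2) ⊆ (boxS s₀ p).filter fun x => Q (vr x) := by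
    intro x hx
    rw [mem_image] at hx
    obtain ⟨⟨y, u⟩, h, rfl⟩ := hx
    rw [hG, mem_product, mem_filter, mem_filter] at h
    obtain ⟨⟨_, hy⟩, _, hu⟩ := h
    simp only at hy hu ⊢
    rw [mem_filter, mem_boxS]
    refine ⟨⟨by simp [frX], ?_, fun s hs => ?_⟩, ?_⟩
    · simp only [frX, if_true]
      exact hu _
    · simp only [frX, if_neg hs]
      exact hu s
    · exact hPQ y _ (fun s hs => (hvr y u hu s hs).symm) hy
  calc p ^ (2 * Fintype.card ι) ≤ 2 * C * G.card := h3
    _ ≤ 2 * C * (p * (G.image fun yu => frX s₀ yu.1 yu.2).card) := Nat.mul_le_mul_left _ h4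
    _ ≤ 2 * C * (p * ((boxS s₀ p).filter fun x => Q (vr x)).card) :=
        Nat.mul_le_mul_left _ (Nat.mul_le_mul_left _ (card_le_card h5))
    _ = _ := by ring

open Classical in
/-- union over the points of the curve over the zeros of a polynomial -/
lemma zw_union {K : Type*} [Field K] {ν : Type*} [Fintype ν] [hν : DecidableEq ν] {d e : ℕ} (q : Polynomial K) (hq : q ≠ 0)
    (hqd : q.natDegree ≤ d) (h : Fin (e + 1) → K → K) (P : K → K → (ν → ZMod p) → Prop) (Bd : ℝ)
    (h0 : 0 ≤ Bd) (hP : ∀ z w, q.eval z = 0 → w ^ (e + 1) = ∑ b, h b z * w ^ (b : ℕ) →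
      (((univ : Finset (ν → ZMod p)).filter fun A => P z w A).card : ℝ) ≤ Bd) :
    (((univ : Finset (ν → ZMod p)).filter fun A => ∃ z w, q.eval z = 0 ∧
      w ^ (e + 1) = ∑ b, h b z * w ^ (b : ℕ) ∧ P z w A).card : ℝ) ≤ d * (e + 1) * Bd := by
  let W : K → Finset K := fun z => (Polynomial.X ^ (e + 1) - ∑ b : Fin (e + 1), Polynomial.C (h b z) * Polynomial.X ^ (b : ℕ)).roots.toFinset
  have hdeg : ∀ z, (∑ b : Fin (e + 1), Polynomial.C (h b z) * Polynomial.X ^ (b : ℕ)).degree < ((e + 1 : ℕ) : WithBot ℕ) := by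
    intro z
    refine lt_of_le_of_lt (Polynomial.degree_sum_le _ _) ?_
    rw [Finset.sup_lt_iff (by exact WithBot.bot_lt_coe _)]
    intro b _
    refine lt_of_le_of_lt (Polynomial.degree_C_mul_X_pow_le _ _) ?_
    exact_mod_cast b.2
  have hmon : ∀ z, (Polynomial.X ^ (e + 1) - ∑ b : Fin (e + 1), Polynomial.C (h b z) * Polynomial.X ^ (b : ℕ)).Monic := fun z =>
    Polynomial.monic_X_pow_sub (hdeg z)
  have hWc : ∀ z, (W z).card ≤ e + 1 := by
    intro z
    refine (Multiset.toFinset_card_le _).trans ((Polynomial.card_roots' _).trans ?_)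
    refine Polynomial.natDegree_le_iff_degree_le.mpr ?_
    refine (Polynomial.degree_sub_le _ _).trans (max_le ?_ (hdeg z).le)
    rw [Polynomial.degree_X_pow]
  have hZc : q.roots.toFinset.card ≤ d :=
    (Multiset.toFinset_card_le _).trans ((Polynomial.card_roots' _).trans hqd)
  have hsub : ((univ : Finset (ν → ZMod p)).filter fun A => ∃ z w, q.eval z = 0 ∧
      w ^ (e + 1) = ∑ b, h b z * w ^ (b : ℕ) ∧ P z w A) ⊆
      (q.roots.toFinset.sigma W).biUnion fun zw => (univ : Finset (ν → ZMod p)).filter fun A =>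
        (q.eval zw.1 = 0 ∧ zw.2 ^ (e + 1) = ∑ b, h b zw.1 * zw.2 ^ (b : ℕ)) ∧ P zw.1 zw.2 A := by
    intro A hA
    rw [mem_filter] at hA
    obtain ⟨_, z, w, hz, hw, hPA⟩ := hA
    rw [mem_biUnion]
    refine ⟨⟨z, w⟩, ?_, ?_⟩
    · rw [mem_sigma]
      refine ⟨?_, ?_⟩
      · rw [Multiset.mem_toFinset, Polynomial.mem_roots hq]
        exact hz
      · simp only [W]
        rw [Multiset.mem_toFinset, Polynomial.mem_roots (hmon z).ne_zero, Polynomial.IsRoot.def, Polynomial.eval_sub,
          Polynomial.eval_pow, Polynomial.eval_X, Polynomial.eval_finsetSum, hw, sub_eq_zero]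
        exact sum_congr rfl fun b _ => by simp
    · rw [mem_filter]
      exact ⟨mem_univ _, ⟨hz, hw⟩, hPA⟩
  calc (((univ : Finset (ν → ZMod p)).filter fun A => ∃ z w, q.eval z = 0 ∧
      w ^ (e + 1) = ∑ b, h b z * w ^ (b : ℕ) ∧ P z w A).card : ℝ)
      ≤ ((∑ zw ∈ q.roots.toFinset.sigma W, ((univ : Finset (ν → ZMod p)).filter fun A =>
        (q.eval zw.1 = 0 ∧ zw.2 ^ (e + 1) = ∑ b, h b zw.1 * zw.2 ^ (b : ℕ)) ∧ P zw.1 zw.2 A).card : ℕ) : ℝ) :=
        Nat.cast_le.mpr ((card_le_card hsub).trans card_biUnion_le)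
    _ = ∑ zw ∈ q.roots.toFinset.sigma W, (((univ : Finset (ν → ZMod p)).filter fun A =>
        (q.eval zw.1 = 0 ∧ zw.2 ^ (e + 1) = ∑ b, h b zw.1 * zw.2 ^ (b : ℕ)) ∧ P zw.1 zw.2 A).card : ℝ) := by
        push_cast
        rfl
    _ ≤ ∑ _zw ∈ q.roots.toFinset.sigma W, Bd := by
        refine sum_le_sum fun zw _ => ?_
        by_cases hzw : q.eval zw.1 = 0 ∧ zw.2 ^ (e + 1) = ∑ b, h b zw.1 * zw.2 ^ (b : ℕ)
        · refine le_trans (Nat.cast_le.mpr (card_le_card ?_)) (hP zw.1 zw.2 hzw.1 hzw.2)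
          intro A hA
          rw [mem_filter] at hA ⊢
          exact ⟨hA.1, hA.2.2⟩
        · rw [filter_eq_empty_iff.mpr fun A _ hA => hzw hA.1]
          simpa using h0
    _ = (q.roots.toFinset.sigma W).card * Bd := by
        rw [sum_const, nsmul_eq_mul]
    _ ≤ _ := by
        refine mul_le_mul_of_nonneg_right ?_ h0
        have h3 : (q.roots.toFinset.sigma W).card ≤ d * (e + 1) := by
          rw [card_sigma]
          calc ∑ z ∈ q.roots.toFinset, (W z).card ≤ ∑ _z ∈ q.roots.toFinset, (e + 1) := sum_le_sum fun z _ => hWc z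
            _ = q.roots.toFinset.card * (e + 1) := by rw [sum_const, smul_eq_mul]
            _ ≤ _ := Nat.mul_le_mul_right _ hZc
        exact_mod_cast h3

/-- elements of the field with `p ^ s` elements -/
lemma frob_val {K : Type*} [Field K] (ψ : ZMod p →+* K) {m d e s : ℕ} (c : Cf m d e → ZMod p) {z w : K}
    (hz : z ^ (p ^ s) = z) (hw : w ^ (p ^ s) = w) :
    (numP (fun t => ψ (c t)) z w / denP (fun t => ψ (c t)) z) ^ (p ^ s) =
      numP (fun t => ψ (c t)) z w / denP (fun t => ψ (c t)) z := by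
  have : CharP K p := charP_of_injective_ringHom ψ.injective p
  have hψ : ∀ a : ZMod p, iterateFrobenius K p s (ψ a) = ψ a := by
    intro a
    rw [iterateFrobenius_def, ← map_pow]
    congr 1
    exact ZMod.pow_card_pow a
  have hz' : iterateFrobenius K p s z = z := by rw [iterateFrobenius_def, hz]
  have hw' : iterateFrobenius K p s w = w := by rw [iterateFrobenius_def, hw]
  rw [← iterateFrobenius_def, map_div₀]
  congr 1
  · unfold numP
    rw [map_sum]
    refine sum_congr rfl fun t _ => ?_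
    rw [map_mul, map_mul, map_pow, map_pow, hψ, hz', hw']
  · unfold denP
    rw [map_sum]
    refine sum_congr rfl fun t _ => ?_
    rw [map_mul, map_pow, hψ, hz']

end general

end Pool.Agent.ZPF
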