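import Mathlib
import Pool.Agent.ZPF.AllDefs

/-!
The evaluation of the numerators at a point with coordinates in a finite field.
-/

open Polynomial

namespace Pool.Agent.ZPF

theorem evr_mem {α : Type*} {i : Fintype α} (a : α) : a ∈ @Finset.univ α i := @Finset.mem_univ α i a

open Classical in
/-- the number of combinations in a given finite set -/
theorem evr_count {p : ℕ} [Fact p.Prime] {k : Type*} [Field k] [Algebra (ZMod p) k] {ι : Type*} [Fintype ι]
    (v : ι → k) (J : Finset ι) (hJ : LinearIndepOn (ZMod p) v (J : Set ι)) (T : Finset k) :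
    ((Finset.univ : Finset (ι → ZMod p)).filter fun A => (∑ t, A t • v t) ∈ T).card * p ^ J.card
      ≤ T.card * p ^ Fintype.card ι := by
  have key : ∀ y : k, ((Finset.univ : Finset (ι → ZMod p)).filter fun A => (∑ t, A t • v t) = y).card * p ^ J.card
      ≤ p ^ Fintype.card ι := by
    intro y
    have h1 : p ^ J.card = (Finset.univ : Finset (J → ZMod p)).card := by
      rw [Finset.card_univ, Fintype.card_fun, ZMod.card, Fintype.card_coe]
    have h2 : p ^ Fintype.card ι = (Finset.univ : Finset (ι → ZMod p)).card := by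
      rw [Finset.card_univ, Fintype.card_fun, ZMod.card]
    rw [h1, h2, ← Finset.card_product]
    apply Finset.card_le_card_of_injOn (fun q : (ι → ZMod p) × (J → ZMod p) =>
      fun t => q.1 t + if h : t ∈ J then q.2 ⟨t, h⟩ else 0)
    · intro _ _
      exact Finset.mem_coe.mpr (Finset.mem_univ _)
    · rintro ⟨A, c⟩ h ⟨A', c'⟩ h' heq
      rw [Finset.mem_coe, Finset.mem_product, Finset.mem_filter] at h h'
      have hA := h.1.2
      have hA' := h'.1.2
      dsimp only at hA hA' heq
      have e1 : ∀ t, A t - A' t = if h : t ∈ J then c' ⟨t, h⟩ - c ⟨t, h⟩ else 0 := by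
        intro t
        have e2 := congrFun heq t
        by_cases ht : t ∈ J
        · rw [dif_pos ht] at e2 ⊢
          rw [dif_pos ht] at e2
          linear_combination e2
        · rw [dif_neg ht] at e2 ⊢
          rw [dif_neg ht] at e2
          linear_combination e2
      have e3 : ∑ t ∈ J, (A t - A' t) • v t = 0 := by
        have e4 : ∑ t, (A t - A' t) • v t = 0 := by
          simp only [sub_smul, Finset.sum_sub_distrib]
          rw [hA, hA', sub_self]
        rw [← e4]
        apply Finset.sum_subset (Finset.subset_univ _)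
        intro t _ ht
        rw [e1, dif_neg ht, zero_smul]
      have e5 := (linearIndepOn_finset_iff.mp hJ) _ e3
      have e6 : A = A' := by
        funext t
        by_cases ht : t ∈ J
        · exact sub_eq_zero.mp (e5 t ht)
        · have := e1 t
          rw [dif_neg ht] at this
          exact sub_eq_zero.mp this
      have e7 : c = c' := by
        funext t
        have := e1 t
        rw [e6, sub_self, dif_pos t.2] at this
        exact (sub_eq_zero.mp this.symm).symm
      rw [e6, e7]
  calc ((Finset.univ : Finset (ι → ZMod p)).filter fun A => (∑ t, A t • v t) ∈ T).card * p ^ J.card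
      ≤ (∑ y ∈ T, ((Finset.univ : Finset (ι → ZMod p)).filter fun A => (∑ t, A t • v t) = y).card) * p ^ J.card := by
        apply Nat.mul_le_mul_right
        have : ((Finset.univ : Finset (ι → ZMod p)).filter fun A => (∑ t, A t • v t) ∈ T) ⊆
            T.biUnion fun y => (Finset.univ : Finset (ι → ZMod p)).filter fun A => (∑ t, A t • v t) = y := by
          intro A hA
          rw [Finset.mem_filter] at hA
          rw [Finset.mem_biUnion]
          exact ⟨_, hA.2, Finset.mem_filter.mpr ⟨Finset.mem_univ _, rfl⟩⟩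
        exact (Finset.card_le_card this).trans Finset.card_biUnion_le
    _ = ∑ y ∈ T, ((Finset.univ : Finset (ι → ZMod p)).filter fun A => (∑ t, A t • v t) = y).card * p ^ J.card :=
        Finset.sum_mul _ _ _
    _ ≤ ∑ _y ∈ T, p ^ Fintype.card ι := Finset.sum_le_sum fun y _ => key y
    _ = T.card * p ^ Fintype.card ι := by rw [Finset.sum_const, smul_eq_mul]

/-- the monomials with small exponents -/
theorem evr_card {m d e e' : ℕ} (hd : 1 ≤ d) (hmd : 2 * (m * e) ≤ d) (h1 : 1 ≤ e') (he : e' ≤ e + 1) :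
    d + (e' - 1) * (d - m * e) ≤
      ((Finset.univ : Finset (Mo m d e)).filter fun t => (t.1 : ℕ) < e' ∧ (t.2 : ℕ) < d).card := by
  have h2 : ((Finset.univ : Finset (Mo m d e)).filter fun t => (t.1 : ℕ) < e' ∧ (t.2 : ℕ) < d) =
      ((Finset.univ : Finset (Fin (e + 1))).filter fun b : Fin (e + 1) => (b : ℕ) < e').sigma fun b : Fin (e + 1) =>
        (Finset.univ : Finset (Fin (d - m * (b : ℕ) + 1))).filter fun a : Fin (d - m * (b : ℕ) + 1) => (a : ℕ) < d := by
    ext t
    simp only [Finset.mem_filter, Finset.mem_univ, true_and, Finset.mem_sigma]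
  rw [h2, Finset.card_sigma]
  have h3 : ∀ b : Fin (e + 1), d - m * (b : ℕ) ≤
      ((Finset.univ : Finset (Fin (d - m * (b : ℕ) + 1))).filter fun a : Fin (d - m * (b : ℕ) + 1) => (a : ℕ) < d).card := by
    intro b
    have : (Finset.univ : Finset (Fin (d - m * (b : ℕ)))).card ≤
      ((Finset.univ : Finset (Fin (d - m * (b : ℕ) + 1))).filter fun a : Fin (d - m * (b : ℕ) + 1) => (a : ℕ) < d).card := by
      apply Finset.card_le_card_of_injOn (fun a : Fin (d - m * (b : ℕ)) => a.castSucc)
      · intro a _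
        rw [Finset.mem_coe, Finset.mem_filter]
        refine ⟨Finset.mem_univ _, ?_⟩
        rw [Fin.val_castSucc]
        have := a.2
        omega
      · intro a _ a' _ h
        exact Fin.castSucc_injective _ h
    rwa [Finset.card_univ, Fintype.card_fin] at this
  have h4 : ∀ b : Fin (e + 1), d - m * e ≤ d - m * (b : ℕ) := by
    intro b
    have : m * (b : ℕ) ≤ m * e := Nat.mul_le_mul_left _ (by have := b.2; omega)
    omega
  have h0 : (0 : Fin (e + 1)) ∈ (Finset.univ : Finset (Fin (e + 1))).filter fun b : Fin (e + 1) => (b : ℕ) < e' := by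
    rw [Finset.mem_filter]
    exact ⟨Finset.mem_univ _, by rw [Fin.val_zero]; omega⟩
  rw [← Finset.add_sum_erase _ _ h0]
  have h5 : (((Finset.univ : Finset (Fin (e + 1))).filter fun b : Fin (e + 1) => (b : ℕ) < e').erase 0).card = e' - 1 := by
    rw [Finset.card_erase_of_mem h0]
    congr 1
    have : ((Finset.univ : Finset (Fin (e + 1))).filter fun b : Fin (e + 1) => (b : ℕ) < e') =
        (Finset.univ : Finset (Fin e')).map (Fin.castLEEmb he) := by
      ext b
      simp only [Finset.mem_filter, Finset.mem_univ, true_and, Finset.mem_map]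
      constructor
      · intro h
        exact ⟨⟨b, h⟩, by ext; rfl⟩
      · rintro ⟨a, rfl⟩
        exact a.2
    rw [this, Finset.card_map, Finset.card_univ, Fintype.card_fin]
  have h6 : (e' - 1) * (d - m * e) ≤ ∑ b ∈ ((Finset.univ : Finset (Fin (e + 1))).filter fun b : Fin (e + 1) => (b : ℕ) < e').erase 0,
      ((Finset.univ : Finset (Fin (d - m * (b : ℕ) + 1))).filter fun a : Fin (d - m * (b : ℕ) + 1) => (a : ℕ) < d).card := by
    rw [← h5, ← smul_eq_mul, ← Finset.sum_const]
    exact Finset.sum_le_sum fun b _ => (h4 b).trans (h3 b)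
  have h7 : d ≤ ((Finset.univ : Finset (Fin (d - m * ((0 : Fin (e + 1)) : ℕ) + 1))).filter
      fun a : Fin (d - m * ((0 : Fin (e + 1)) : ℕ) + 1) => (a : ℕ) < d).card := by
    refine le_trans ?_ (h3 0)
    rw [Fin.val_zero, Nat.mul_zero, Nat.sub_zero]
  omega

open Classical in
theorem evRank {p : ℕ} [Fact p.Prime] {k : Type*} [Field k] (ψ : ZMod p →+* k) {m d e : ℕ} (hd : 1 ≤ d)
    (hmd : 2 * (m * e) ≤ d) {B : Fin (d + 1) → ZMod p} (hB : B (Fin.last d) ≠ 0)
    (hirr : Irreducible (∑ a : Fin (d + 1), C (B a) * X ^ (a : ℕ))) {z w : k}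
    (hz : ∑ a : Fin (d + 1), ψ (B a) * z ^ (a : ℕ) = 0) (g : Fin (e + 1) → Polynomial (ZMod p))
    (hw : w ^ (e + 1) = ∑ b : Fin (e + 1), (g b).eval₂ ψ z * w ^ (b : ℕ)) :
    ∃ s r : ℕ, 0 < s ∧ s ≤ d * (e + 1) ∧ d ≤ r ∧ s + d ≤ 2 * r ∧ z ^ (p ^ s) = z ∧ w ^ (p ^ s) = w ∧
      (∀ T : Finset k, ((Finset.univ : Finset (Mo m d e → ZMod p)).filter fun A =>
        (∑ t : Mo m d e, ψ (A t) * z ^ (t.2 : ℕ) * w ^ (t.1 : ℕ)) ∈ T).card * p ^ r ≤ T.card * p ^ Fintype.card (Mo m d e)) := by
  let _ : Algebra (ZMod p) k := ψ.toAlgebra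
  have hψ : ∀ a : ZMod p, ψ a = algebraMap (ZMod p) k a := fun a => rfl
  have hp : p.Prime := Fact.out
  set Bp : (ZMod p)[X] := ∑ a : Fin (d + 1), C (B a) * X ^ (a : ℕ) with hBp
  have hBc : Bp.coeff d = B (Fin.last d) := by
    rw [hBp, finsetSum_coeff]
    rw [Finset.sum_eq_single (Fin.last d)]
    · rw [coeff_C_mul, coeff_X_pow, Fin.val_last, if_pos rfl, mul_one]
    · intro a _ ha
      rw [coeff_C_mul, coeff_X_pow, if_neg, mul_zero]
      intro h
      apply ha
      ext
      rw [Fin.val_last]
      exact h.symm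
    · intro h
      exact absurd (Finset.mem_univ _) h
  have hBd : Bp.natDegree = d := by
    apply le_antisymm
    · rw [hBp]
      apply natDegree_sum_le_of_forall_le
      intro a _
      exact (natDegree_C_mul_X_pow_le _ _).trans (by have := a.2; omega)
    · apply le_natDegree_of_ne_zero
      rw [hBc]
      exact hB
  have hzB : aeval z Bp = 0 := by
    rw [hBp, map_sum]
    simp only [map_mul, aeval_C, map_pow, aeval_X]
    exact hz
  have hzi : IsIntegral (ZMod p) z := isAlgebraic_iff_isIntegral.mp ⟨Bp, hirr.ne_zero, hzB⟩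
  have hmz : (minpoly (ZMod p) z).natDegree = d := by
    have h2 : Associated (minpoly (ZMod p) z) Bp :=
      (minpoly.irreducible hzi).associated_of_dvd hirr (minpoly.dvd _ _ hzB)
    rw [← hBd]
    exact natDegree_eq_of_degree_eq (degree_eq_degree_of_associated h2)
  let S := IntermediateField.adjoin (ZMod p) {z}
  have hSf : Module.finrank (ZMod p) S = d := by
    rw [← hmz]
    exact IntermediateField.adjoin.finrank hzi
  have hSfd : FiniteDimensional (ZMod p) S := IntermediateField.adjoin.finiteDimensional hzi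
  have hSfin : Finite S := Module.finite_of_finite (ZMod p)
  let zS : S := ⟨z, IntermediateField.mem_adjoin_simple_self _ z⟩
  have hzS : algebraMap S k zS = z := rfl
  have hmzS : (minpoly (ZMod p) zS).natDegree = d := by
    rw [← hmz, ← hzS, minpoly.algebraMap_eq (algebraMap S k).injective]
  let q : S[X] := X ^ (e + 1) - ∑ b : Fin (e + 1), C (aeval zS (g b)) * X ^ (b : ℕ)
  have hqd : (∑ b : Fin (e + 1), C (aeval zS (g b)) * X ^ (b : ℕ)).degree < ((e + 1 : ℕ) : WithBot ℕ) := by
    apply lt_of_le_of_lt (b := (e : WithBot ℕ))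
    · refine (degree_sum_le _ _).trans ?_
      apply Finset.sup_le
      intro b _
      refine (degree_C_mul_X_pow_le _ _).trans ?_
      have := b.2
      exact_mod_cast (by omega : (b : ℕ) ≤ e)
    · exact_mod_cast Nat.lt_succ_self e
  have hqm : q.Monic := monic_X_pow_sub hqd
  have hqn : q.natDegree ≤ e + 1 := by
    refine (natDegree_sub_le _ _).trans ?_
    rw [natDegree_X_pow]
    apply max_le le_rfl
    exact natDegree_le_of_degree_le hqd.le
  have hqw : aeval w q = 0 := by
    change aeval w (X ^ (e + 1) - ∑ b : Fin (e + 1), C (aeval zS (g b)) * X ^ (b : ℕ)) = 0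
    rw [map_sub, map_sum, sub_eq_zero, map_pow, aeval_X, hw]
    apply Finset.sum_congr rfl
    intro b _
    rw [map_mul, aeval_C, map_pow, aeval_X, ← aeval_algebraMap_apply, hzS]
    rfl
  have hwi : IsIntegral S w := ⟨q, hqm, hqw⟩
  set e' := (minpoly S w).natDegree with he'
  have he1 : 1 ≤ e' := minpoly.natDegree_pos hwi
  have he2 : e' ≤ e + 1 := (natDegree_le_of_dvd (minpoly.dvd _ _ hqw) hqm.ne_zero).trans hqn
  let L := IntermediateField.adjoin S {w}
  have hLf : Module.finrank S L = e' := IntermediateField.adjoin.finrank hwi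
  have hLfd : FiniteDimensional S L := IntermediateField.adjoin.finiteDimensional hwi
  have hLfin : Finite L := Module.finite_of_finite S
  have : Fintype S := Fintype.ofFinite S
  have : Fintype L := Fintype.ofFinite L
  have hSc : Fintype.card S = p ^ d := by
    rw [Module.card_eq_pow_finrank (K := ZMod p) (V := S), ZMod.card, hSf]
  have hLc : Fintype.card L = p ^ (d * e') := by
    rw [Module.card_eq_pow_finrank (K := S) (V := L), hSc, hLf, ← pow_mul]
  have hwL : w ^ (p ^ (d * e')) = w := by
    have h := FiniteField.pow_card (⟨w, IntermediateField.mem_adjoin_simple_self _ w⟩ : L)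
    rw [hLc] at h
    exact congrArg Subtype.val h
  have hzL : z ^ (p ^ (d * e')) = z := by
    have h := FiniteField.pow_card (algebraMap S L zS)
    rw [hLc] at h
    exact congrArg Subtype.val h
  -- independence
  set J := (Finset.univ : Finset (Mo m d e)).filter fun t => (t.1 : ℕ) < e' ∧ (t.2 : ℕ) < d with hJ
  have hJc := evr_card hd hmd he1 he2
  rw [← hJ] at hJc
  have hind : LinearIndepOn (ZMod p) (fun t : Mo m d e => z ^ (t.2 : ℕ) * w ^ (t.1 : ℕ)) (J : Set (Mo m d e)) := by
    have h1 := linearIndependent_smul (linearIndependent_pow (K := ZMod p) zS) (linearIndependent_pow (K := S) w)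
    have hmem : ∀ t : ↥(J : Set (Mo m d e)), (t.1.1 : ℕ) < e' ∧ (t.1.2 : ℕ) < d := by
      intro t
      exact (Finset.mem_filter.mp (Finset.mem_coe.mp t.2)).2
    let f : ↥(J : Set (Mo m d e)) → Fin (minpoly (ZMod p) zS).natDegree × Fin (minpoly S w).natDegree := fun t =>
      (⟨t.1.2, by rw [hmzS]; exact (hmem t).2⟩, ⟨t.1.1, (hmem t).1⟩)
    have hf : Function.Injective f := by
      rintro ⟨⟨b, a⟩, ht⟩ ⟨⟨b', a'⟩, ht'⟩ h
      have h2 := congrArg (fun q => (q.1 : ℕ)) h
      have h3 := congrArg (fun q => (q.2 : ℕ)) h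
      dsimp only [f] at h2 h3
      have h4 : b = b' := Fin.ext h3
      subst h4
      have h5 : a = a' := Fin.ext h2
      subst h5
      rfl
    exact h1.comp f hf
  refine ⟨d * e', J.card, Nat.mul_pos hd he1, Nat.mul_le_mul_left _ he2, ?_, ?_, hzL, hwL, ?_⟩
  · exact le_trans (Nat.le_add_right _ _) hJc
  · have h1 : (e' - 1) * d ≤ 2 * ((e' - 1) * (d - m * e)) := by
      calc (e' - 1) * d ≤ (e' - 1) * (2 * (d - m * e)) := Nat.mul_le_mul_left _ (by omega)
        _ = 2 * ((e' - 1) * (d - m * e)) := by ring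
    have h2 : d * e' = d + (e' - 1) * d := by
      obtain ⟨u, hu⟩ : ∃ u, e' = u + 1 := ⟨e' - 1, by omega⟩
      rw [hu, Nat.add_sub_cancel]
      ring
    omega
  · intro T
    have h := evr_count (fun t : Mo m d e => z ^ (t.2 : ℕ) * w ^ (t.1 : ℕ)) J hind T
    have e1 : ∀ A : Mo m d e → ZMod p, (∑ t : Mo m d e, ψ (A t) * z ^ (t.2 : ℕ) * w ^ (t.1 : ℕ)) =
        ∑ t, A t • (z ^ (t.2 : ℕ) * w ^ (t.1 : ℕ)) := by
      intro A
      apply Finset.sum_congr rfl
      intro t _
      rw [Algebra.smul_def, hψ, mul_assoc]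
    refine le_trans (Nat.mul_le_mul_right _ (Finset.card_le_card fun A hA => ?_)) h
    rw [Finset.mem_filter] at hA ⊢
    rw [← e1]
    exact ⟨evr_mem A, hA.2⟩

end Pool.Agent.ZPF
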