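import Mathlib

/-!
The number of irreducible polynomials of degree `d` over a prime field.
-/

open Polynomial

namespace Pool.Agent.ZPF

/-- An element of a finite field of characteristic `p` whose minimal polynomial has degree `e` is
fixed by the `e`-th power of the Frobenius. -/
private theorem irr_pow_deg {p : ℕ} [Fact p.Prime] {K : Type*} [Field K] [Algebra (ZMod p) K]
    [Finite K] (a : K) : a ^ p ^ (minpoly (ZMod p) a).natDegree = a := by
  classical
  have hfin : Module.Finite (ZMod p) K := Module.Finite.of_finite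
  have hint : IsIntegral (ZMod p) a := IsIntegral.of_finite (ZMod p) a
  have hfr : Module.finrank (ZMod p) (IntermediateField.adjoin (ZMod p) {a}) =
      (minpoly (ZMod p) a).natDegree := IntermediateField.adjoin.finrank hint
  have : Fintype (IntermediateField.adjoin (ZMod p) {a}) := Fintype.ofFinite _
  have hc : Fintype.card (IntermediateField.adjoin (ZMod p) {a}) =
      p ^ (minpoly (ZMod p) a).natDegree := by
    rw [Module.card_eq_pow_finrank (K := ZMod p) (V := IntermediateField.adjoin (ZMod p) {a}),
      ZMod.card, hfr]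
  have h1 := FiniteField.pow_card
    (⟨a, IntermediateField.mem_adjoin_simple_self _ a⟩ : IntermediateField.adjoin (ZMod p) {a})
  rw [hc] at h1
  exact congrArg Subtype.val h1

open Classical in
private theorem irr_card_fix {K : Type*} [Field K] [Fintype K] {q : ℕ} (hq : 1 < q) :
    ((Finset.univ : Finset K).filter fun a => a ^ q = a).card ≤ q := by
  have hne : (X ^ q - X : K[X]) ≠ 0 := FiniteField.X_pow_card_sub_X_ne_zero K hq
  have hdeg : (X ^ q - X : K[X]).natDegree = q := FiniteField.X_pow_card_sub_X_natDegree_eq K hq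
  calc ((Finset.univ : Finset K).filter fun a => a ^ q = a).card
      ≤ (X ^ q - X : K[X]).roots.toFinset.card := by
        apply Finset.card_le_card
        intro a ha
        simp only [Finset.mem_filter, Finset.mem_univ, true_and] at ha
        simp only [Multiset.mem_toFinset, mem_roots hne, IsRoot.def, eval_sub, eval_pow, eval_X]
        rw [ha, sub_self]
    _ ≤ Multiset.card (X ^ q - X : K[X]).roots := Multiset.toFinset_card_le _
    _ ≤ (X ^ q - X : K[X]).natDegree := card_roots' _
    _ = q := hdeg

open Classical in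
/-- at least half of the elements of `F_{p^d}` have degree `d`. -/
private theorem irr_half {p d : ℕ} [Fact p.Prime] (hp : 3 ≤ p) {K : Type*} [Field K]
    [Fintype K] [Algebra (ZMod p) K] (hcard : Fintype.card K = p ^ d) :
    p ^ d ≤ 2 * ((Finset.univ : Finset K).filter fun a =>
      (minpoly (ZMod p) a).natDegree = d).card := by
  have hfin : Module.Finite (ZMod p) K := Module.Finite.of_finite
  have hfr : Module.finrank (ZMod p) K = d := by
    have h := Module.card_eq_pow_finrank (K := ZMod p) (V := K)
    rw [ZMod.card, hcard] at h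
    exact (Nat.pow_right_injective (by omega : 2 ≤ p) h).symm
  have hle : ∀ a : K, (minpoly (ZMod p) a).natDegree ≤ d := fun a => hfr ▸ minpoly.natDegree_le a
  have hpos : ∀ a : K, 1 ≤ (minpoly (ZMod p) a).natDegree := fun a =>
    minpoly.natDegree_pos (IsIntegral.of_finite (ZMod p) a)
  have hbad : ((Finset.univ : Finset K).filter fun a =>
      ¬ (minpoly (ZMod p) a).natDegree = d).card ≤ ∑ e ∈ Finset.Ico 1 d, p ^ e := by
    refine le_trans (Finset.card_le_card ?_) (le_trans (Finset.card_biUnion_le (s := Finset.Ico 1 d)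
      (t := fun e => (Finset.univ : Finset K).filter fun a => a ^ p ^ e = a))
      (Finset.sum_le_sum fun e he => irr_card_fix ?_))
    · intro a ha
      simp only [Finset.mem_filter, Finset.mem_univ, true_and] at ha
      simp only [Finset.mem_biUnion, Finset.mem_Ico, Finset.mem_filter, Finset.mem_univ, true_and]
      exact ⟨_, ⟨hpos a, lt_of_le_of_ne (hle a) ha⟩, irr_pow_deg a⟩
    · exact Nat.one_lt_pow (by have := (Finset.mem_Ico.mp he).1; omega) (by omega)
  have hgeom : 2 * ∑ e ∈ Finset.Ico 1 d, p ^ e ≤ p ^ d := by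
    have h1 : ∑ e ∈ Finset.Ico 1 d, p ^ e ≤ ∑ e ∈ Finset.range d, p ^ e := by
      apply Finset.sum_le_sum_of_subset
      intro e he
      simp only [Finset.mem_Ico, Finset.mem_range] at he ⊢
      exact he.2
    obtain ⟨x, rfl⟩ : ∃ x, p = x + 1 := ⟨p - 1, by omega⟩
    have h2 := geom_sum_mul_add x d
    nlinarith [h1, h2, Nat.zero_le (∑ e ∈ Finset.range d, (x + 1) ^ e)]
  have hsplit := Finset.card_filter_add_card_filter_not (s := (Finset.univ : Finset K))
    (fun a => (minpoly (ZMod p) a).natDegree = d)
  rw [Finset.card_univ, hcard] at hsplit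
  omega

open Classical in
theorem card_irred {d : ℕ} (hd : 1 ≤ d) : ∃ P₀ : ℕ, ∀ (p : ℕ) [Fact p.Prime], P₀ ≤ p →
    p ^ (d + 1) ≤ 4 * d * ((Finset.univ : Finset (Fin (d + 1) → ZMod p)).filter fun B =>
      B (Fin.last d) ≠ 0 ∧ Irreducible (∑ a : Fin (d + 1), C (B a) * X ^ (a : ℕ))).card := by
  refine ⟨3, fun p _ hp => ?_⟩
  set K := GaloisField p d
  have : Fintype K := Fintype.ofFinite K
  have hcard : Fintype.card K = p ^ d := by
    rw [← Nat.card_eq_fintype_card]
    exact GaloisField.card p d (by omega)
  set S := (Finset.univ : Finset (Fin (d + 1) → ZMod p)).filter fun B =>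
      B (Fin.last d) ≠ 0 ∧ Irreducible (∑ a : Fin (d + 1), C (B a) * X ^ (a : ℕ)) with hS
  set G := (Finset.univ : Finset K).filter fun a => (minpoly (ZMod p) a).natDegree = d with hG
  have hhalf : p ^ d ≤ 2 * G.card := irr_half hp hcard
  -- the polynomial of the coefficient vector of `c * minpoly a`
  have hpoly : ∀ (Q : (ZMod p)[X]), Q.natDegree ≤ d →
      ∑ a : Fin (d + 1), C (Q.coeff (a : ℕ)) * X ^ (a : ℕ) = Q := by
    intro Q hQ
    rw [Fin.sum_univ_eq_sum_range (fun a => C (Q.coeff a) * X ^ a) (d + 1)]
    exact (Q.as_sum_range_C_mul_X_pow' (Nat.lt_succ_of_le hQ)).symm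
  set T := G ×ˢ ((Finset.univ : Finset (ZMod p)).filter fun c => c ≠ 0) with hT
  let φ : K × ZMod p → (Fin (d + 1) → ZMod p) := fun z a =>
    (C z.2 * minpoly (ZMod p) z.1).coeff (a : ℕ)
  have hnd : ∀ z ∈ T, (C z.2 * minpoly (ZMod p) z.1).natDegree = d := by
    intro z hz
    simp only [hT, hG, Finset.mem_product, Finset.mem_filter, Finset.mem_univ, true_and] at hz
    rw [natDegree_C_mul hz.2, hz.1]
  have hφp : ∀ z ∈ T, ∑ a : Fin (d + 1), C (φ z a) * X ^ (a : ℕ) = C z.2 * minpoly (ZMod p) z.1 :=
    fun z hz => hpoly _ (hnd z hz).le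
  have hlast : ∀ z ∈ T, φ z (Fin.last d) = z.2 := by
    intro z hz
    have h1 := hnd z hz
    simp only [hT, hG, Finset.mem_product, Finset.mem_filter, Finset.mem_univ, true_and] at hz
    show (C z.2 * minpoly (ZMod p) z.1).coeff ((Fin.last d : Fin (d + 1)) : ℕ) = z.2
    have h2 := (minpoly.monic (IsIntegral.of_finite (ZMod p) z.1)).coeff_natDegree
    rw [hz.1] at h2
    rw [Fin.val_last, coeff_C_mul, h2, mul_one]
  have hmaps : ∀ z ∈ T, φ z ∈ S := by
    intro z hz
    have hz' := hz
    simp only [hT, hG, Finset.mem_product, Finset.mem_filter, Finset.mem_univ, true_and] at hz'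
    simp only [hS, Finset.mem_filter, Finset.mem_univ, true_and]
    refine ⟨by rw [hlast z hz]; exact hz'.2, ?_⟩
    rw [hφp z hz]
    have hirr := minpoly.irreducible (IsIntegral.of_finite (ZMod p) z.1)
    exact (associated_unit_mul_left _ _ (isUnit_C.mpr hz'.2.isUnit)).symm.irreducible hirr
  have hfib : ∀ B ∈ S, (T.filter fun z => φ z = B).card ≤ d := by
    intro B hB
    simp only [hS, Finset.mem_filter, Finset.mem_univ, true_and] at hB
    set Q : (ZMod p)[X] := ∑ a : Fin (d + 1), C (B a) * X ^ (a : ℕ) with hQ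
    have hQ0 : Q.map (algebraMap (ZMod p) K) ≠ 0 :=
      (Polynomial.map_ne_zero_iff (algebraMap (ZMod p) K).injective).mpr hB.2.ne_zero
    have hQd : Q.natDegree ≤ d := by
      refine natDegree_sum_le_of_forall_le _ _ fun a _ => ?_
      exact le_trans (natDegree_C_mul_X_pow_le _ _) (Nat.lt_succ_iff.mp a.2)
    calc (T.filter fun z => φ z = B).card
        ≤ (Q.map (algebraMap (ZMod p) K)).roots.toFinset.card := by
          apply Finset.card_le_card_of_injOn (fun z => z.1)
          · intro z hz
            simp only [Finset.coe_filter, Set.mem_ofPred_eq] at hz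
            obtain ⟨hzT, hzB⟩ := hz
            have h1 := hφp z hzT
            rw [hzB] at h1
            simp only [Finset.mem_coe, Multiset.mem_toFinset, mem_roots hQ0, IsRoot.def]
            rw [← hQ] at h1
            rw [h1, Polynomial.map_mul, eval_mul, eval_map_algebraMap, eval_map_algebraMap,
              minpoly.aeval, mul_zero]
          · intro z hz z' hz' h
            simp only [Finset.coe_filter, Set.mem_ofPred_eq] at hz hz'
            refine Prod.ext h ?_
            rw [← hlast z hz.1, ← hlast z' hz'.1, hz.2, hz'.2]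
      _ ≤ Multiset.card (Q.map (algebraMap (ZMod p) K)).roots := Multiset.toFinset_card_le _
      _ ≤ (Q.map (algebraMap (ZMod p) K)).natDegree := card_roots' _
      _ ≤ Q.natDegree := natDegree_map_le
      _ ≤ d := hQd
  have hTS : T.card ≤ d * S.card := Finset.card_le_mul_card_image_of_maps_to hmaps d hfib
  have hTc : T.card = G.card * (p - 1) := by
    rw [hT, Finset.card_product]
    congr 1
    rw [Finset.filter_ne', Finset.card_erase_of_mem (Finset.mem_univ _), Finset.card_univ,
      ZMod.card]
  obtain ⟨x, hx⟩ : ∃ x, p = x + 1 := ⟨p - 1, by omega⟩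
  have hx2 : 2 ≤ x := by omega
  have h1 : G.card * x ≤ d * S.card := by
    have : p - 1 = x := by omega
    rw [← this, ← hTc]; exact hTS
  calc p ^ (d + 1) = p ^ d * p := pow_succ _ _
    _ ≤ (2 * G.card) * (2 * x) := Nat.mul_le_mul hhalf (by omega)
    _ = 4 * (G.card * x) := by ring
    _ ≤ 4 * (d * S.card) := Nat.mul_le_mul_left _ h1
    _ = 4 * d * S.card := by ring

end Pool.Agent.ZPF
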