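import Mathlib
import Pool.Agent.ZPF.IrrCount
import Pool.Agent.ZPF.AllDefs

/-!
Irreducible denominators: counting, common roots; fibres of blocks of variables.
-/

open Polynomial

namespace Pool.Agent.ZPF

open Classical in
theorem card_goodB {m d e n : ℕ} (hd : 1 ≤ d) : ∃ P₀ : ℕ, ∀ (p : ℕ) [Fact p.Prime], P₀ ≤ p →
    p ^ Fintype.card (Fin n × Cf m d e) ≤ (4 * d) ^ n *
      ((Finset.univ : Finset (Fin n × Cf m d e → ZMod p)).filter fun v => ∀ j, v (j, Sum.inr (Fin.last d)) ≠ 0 ∧
        Irreducible (∑ a : Fin (d + 1), C (v (j, Sum.inr a)) * X ^ (a : ℕ))).card := by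
  obtain ⟨P₀, hP₀⟩ := card_irred hd
  refine ⟨P₀, fun p _ hp => ?_⟩
  have h0 := hP₀ p hp
  set S := (Finset.univ : Finset (Fin (d + 1) → ZMod p)).filter fun B =>
      B (Fin.last d) ≠ 0 ∧ Irreducible (∑ a : Fin (d + 1), C (B a) * X ^ (a : ℕ)) with hS
  set W : Finset (Fin n → (Mo m d e → ZMod p) × (Fin (d + 1) → ZMod p)) :=
    Fintype.piFinset fun _ => (Finset.univ : Finset (Mo m d e → ZMod p)) ×ˢ S with hW
  have hWc : W.card = (p ^ Fintype.card (Mo m d e) * S.card) ^ n := by
    rw [hW, Fintype.card_piFinset]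
    simp [Finset.card_product, ZMod.card]
  have hle : W.card ≤ ((Finset.univ : Finset (Fin n × Cf m d e → ZMod p)).filter fun v =>
      ∀ j, v (j, Sum.inr (Fin.last d)) ≠ 0 ∧
        Irreducible (∑ a : Fin (d + 1), C (v (j, Sum.inr a)) * X ^ (a : ℕ))).card := by
    refine Finset.card_le_card_of_injOn
      (fun w z => Sum.elim (w z.1).1 (w z.1).2 z.2) ?_ ?_
    · intro w hw
      have hw' : ∀ j, (w j).2 ∈ S := by
        intro j
        have h1 := Fintype.mem_piFinset.mp (Finset.mem_coe.mp hw) j
        exact (Finset.mem_product.mp h1).2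
      simp only [Finset.coe_filter, Finset.mem_univ, true_and, Set.mem_ofPred_eq, Sum.elim_inr]
      intro j
      have h2 := hw' j
      rw [hS, Finset.mem_filter] at h2
      exact h2.2
    · intro w _ w' _ h
      funext j
      refine Prod.ext (funext fun s => ?_) (funext fun a => ?_)
      · simpa using congrFun h (j, Sum.inl s)
      · simpa using congrFun h (j, Sum.inr a)
  have hcard : Fintype.card (Fin n × Cf m d e) = (Fintype.card (Mo m d e) + (d + 1)) * n := by
    rw [Fintype.card_prod, Fintype.card_sum, Fintype.card_fin, Fintype.card_fin, mul_comm]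
  calc p ^ Fintype.card (Fin n × Cf m d e)
      = (p ^ Fintype.card (Mo m d e) * p ^ (d + 1)) ^ n := by
        rw [hcard, pow_mul, pow_add]
    _ ≤ (p ^ Fintype.card (Mo m d e) * (4 * d * S.card)) ^ n :=
        Nat.pow_le_pow_left (Nat.mul_le_mul_left _ h0) n
    _ = (4 * d) ^ n * W.card := by
        rw [hWc, ← mul_pow]
        congr 1
        ring
    _ ≤ _ := Nat.mul_le_mul_left _ hle

private theorem goodB_coeff {R : Type*} [CommRing R] {d : ℕ} (B : Fin (d + 1) → R) (a : Fin (d + 1)) :
    (∑ a : Fin (d + 1), C (B a) * X ^ (a : ℕ)).coeff (a : ℕ) = B a := by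
  rw [finsetSum_coeff, Finset.sum_eq_single a]
  · simp
  · intro b _ hb
    rw [coeff_C_mul, coeff_X_pow, if_neg (fun h => hb (Fin.ext h.symm)), mul_zero]
  · intro h
    exact absurd (Finset.mem_univ a) h

theorem common_root {p : ℕ} [Fact p.Prime] {k : Type*} [Field k] (ψ : ZMod p →+* k) {d : ℕ}
    {B B' : Fin (d + 1) → ZMod p} (hB : Irreducible (∑ a : Fin (d + 1), C (B a) * X ^ (a : ℕ)))
    (hB' : Irreducible (∑ a : Fin (d + 1), C (B' a) * X ^ (a : ℕ))) {z : k}
    (hz : ∑ a : Fin (d + 1), ψ (B a) * z ^ (a : ℕ) = 0) (hz' : ∑ a : Fin (d + 1), ψ (B' a) * z ^ (a : ℕ) = 0) :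
    B 0 * B' (Fin.last d) = B' 0 * B (Fin.last d) := by
  set P := ∑ a : Fin (d + 1), C (B a) * X ^ (a : ℕ) with hP
  set Q := ∑ a : Fin (d + 1), C (B' a) * X ^ (a : ℕ) with hQ
  have hPe : P.eval₂ ψ z = 0 := by
    rw [hP, eval₂_finsetSum, ← hz]
    exact Finset.sum_congr rfl fun a _ => by simp
  have hQe : Q.eval₂ ψ z = 0 := by
    rw [hQ, eval₂_finsetSum, ← hz']
    exact Finset.sum_congr rfl fun a _ => by simp
  rcases (EuclideanDomain.dvd_or_coprime P Q hB).symm with h | h
  · obtain ⟨u, v, huv⟩ := h
    have h1 := congrArg (eval₂ ψ z) huv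
    rw [eval₂_add, eval₂_mul, eval₂_mul, hPe, hQe, mul_zero, mul_zero, add_zero, eval₂_one] at h1
    exact absurd h1 zero_ne_one
  · obtain ⟨u, hu⟩ := (hB.associated_of_dvd hB' h)
    obtain ⟨c, _, hc⟩ := Polynomial.isUnit_iff.mp u.isUnit
    have hcoef : ∀ a : Fin (d + 1), B' a = B a * c := by
      intro a
      rw [← goodB_coeff B' a, ← hQ, ← hu, ← hc, coeff_mul_C, hP, goodB_coeff]
    rw [hcoef 0, hcoef (Fin.last d)]
    ring

open Classical in
/-- if for every `v` at most `B` modifications of the block of coordinates `g` are bad, then the number of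
bad vectors is at most `B / p ^ |ν|` times the total -/
theorem block_count {p : ℕ} [Fact p.Prime] {κ ν : Type*} [Fintype κ] [Fintype ν] [DecidableEq κ] [DecidableEq ν]
    (g : ν → κ) (hg : Function.Injective g) (Bad : (κ → ZMod p) → Prop) (B : ℝ)
    (hB : ∀ v : κ → ZMod p, (((Finset.univ : Finset (ν → ZMod p)).filter fun A =>
      Bad (Function.extend g A v)).card : ℝ) ≤ B) :
    (((Finset.univ : Finset (κ → ZMod p)).filter Bad).card : ℝ) * (p : ℝ) ^ Fintype.card ν ≤
      B * (p : ℝ) ^ Fintype.card κ := by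
  set F : Finset ((κ → ZMod p) × (ν → ZMod p)) :=
    Finset.univ.filter fun z => Bad (Function.extend g z.2 z.1) with hF
  have h1 : ((Finset.univ : Finset (κ → ZMod p)).filter Bad).card * p ^ Fintype.card ν ≤ F.card := by
    have h2 : ((Finset.univ : Finset (κ → ZMod p)).filter Bad ×ˢ
        (Finset.univ : Finset (ν → ZMod p))).card ≤ F.card := by
      refine Finset.card_le_card_of_injOn
        (fun z => (Function.extend g z.2 z.1, z.1 ∘ g)) ?_ ?_
      · intro z hz
        simp only [Finset.coe_product, Finset.coe_filter, Finset.mem_univ, true_and,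
          Finset.coe_univ, Set.mem_prod, Set.mem_ofPred_eq, Set.mem_univ, and_true] at hz
        simp only [hF, Finset.coe_filter, Finset.mem_univ, true_and, Set.mem_ofPred_eq]
        have h3 : Function.extend g (z.1 ∘ g) (Function.extend g z.2 z.1) = z.1 := by
          funext x
          by_cases hx : ∃ i, g i = x
          · obtain ⟨i, rfl⟩ := hx
            rw [hg.extend_apply]
            rfl
          · rw [Function.extend_apply' _ _ _ hx, Function.extend_apply' _ _ _ hx]
        rw [h3]
        exact hz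
      · intro z _ z' _ h
        have h4 : Function.extend g z.2 z.1 = Function.extend g z'.2 z'.1 := congrArg Prod.fst h
        have h5 : z.1 ∘ g = z'.1 ∘ g := congrArg Prod.snd h
        refine Prod.ext (funext fun x => ?_) (funext fun i => ?_)
        · by_cases hx : ∃ i, g i = x
          · obtain ⟨i, rfl⟩ := hx
            exact congrFun h5 i
          · have h6 := congrFun h4 x
            rwa [Function.extend_apply' _ _ _ hx, Function.extend_apply' _ _ _ hx] at h6
        · have h6 := congrFun h4 (g i)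
          rwa [hg.extend_apply, hg.extend_apply] at h6
    rwa [Finset.card_product, Finset.card_univ, Fintype.card_fun, ZMod.card] at h2
  have h7 : (F.card : ℝ) ≤ B * (p : ℝ) ^ Fintype.card κ := by
    have h8 : F.card = ∑ v : κ → ZMod p, ((Finset.univ : Finset (ν → ZMod p)).filter fun A =>
        Bad (Function.extend g A v)).card := by
      rw [hF, Finset.card_filter, Fintype.sum_prod_type]
      exact Finset.sum_congr rfl fun v _ => (Finset.card_filter _ _).symm
    rw [h8]
    push_cast
    calc ∑ v : κ → ZMod p, (((Finset.univ : Finset (ν → ZMod p)).filter fun A =>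
        Bad (Function.extend g A v)).card : ℝ) ≤ ∑ _v : κ → ZMod p, B :=
          Finset.sum_le_sum fun v _ => hB v
      _ = B * (p : ℝ) ^ Fintype.card κ := by
          rw [Finset.sum_const, Finset.card_univ, Fintype.card_fun, ZMod.card, nsmul_eq_mul, mul_comm]
          push_cast
          rfl
  refine le_trans ?_ h7
  have h9 : (((Finset.univ : Finset (κ → ZMod p)).filter Bad).card * p ^ Fintype.card ν : ℕ) ≤
    (F.card : ℝ) := by exact_mod_cast h1
  exact_mod_cast h9

end Pool.Agent.ZPF
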