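import Mathlib
import Pool.Agent.ZPF.Defs
import Pool.Agent.ZPOrd.CountRed

/-!
Counting reduced integral matrices of determinant `p ^ s` with trace prime to `p` whose discriminant
is in a fixed square class.
-/

namespace Pool.Agent.ZPF

namespace CountF

open Pool.Agent.ZPOrd.CountRed

/-- two traces in the same square class -/
lemma exists_relF {p : ℕ} (hp : p.Prime) (hp2 : p ≠ 2) {s : ℕ} {D a b : ℤ} (hD : D ≠ 0)
    (hap : ¬ (p : ℤ) ∣ a) (hbp : ¬ (p : ℤ) ∣ b)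
    (ha : a ^ 2 < 4 * (p : ℤ) ^ s) (hb : b ^ 2 < 4 * (p : ℤ) ^ s)
    (h1 : IsSquare (D * (a ^ 2 - 4 * (p : ℤ) ^ s))) (h2 : IsSquare (D * (b ^ 2 - 4 * (p : ℤ) ^ s))) :
    ∃ k ∈ Finset.Icc (-8 : ℤ) 8, 4 * a ^ 2 + (-2 * k * b) * a + (4 * b ^ 2 + (k ^ 2 - 16) * (p : ℤ) ^ s) = 0 := by
  have hpi : Prime (p : ℤ) := Nat.prime_iff_prime_int.mp hp
  have hq0 : (0 : ℤ) < (p : ℤ) ^ s := by
    have : (0 : ℤ) < p := by exact_mod_cast hp.pos
    positivity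
  have hpq : (p : ℤ) ^ s ∣ (p : ℤ) ^ s := dvd_rfl
  set q : ℤ := (p : ℤ) ^ s with hq
  obtain ⟨u, hu⟩ := h1
  obtain ⟨v, hv⟩ := h2
  have hdv : D ∣ u * v := by
    rw [← Int.pow_dvd_pow_iff (n := 2) two_ne_zero]
    exact ⟨(a ^ 2 - 4 * q) * (b ^ 2 - 4 * q), by linear_combination (-(D * (b ^ 2 - 4 * q))) * hu - (u * u) * hv⟩
  obtain ⟨e, he⟩ := hdv
  have he2 : e ^ 2 = (4 * q - a ^ 2) * (4 * q - b ^ 2) := by
    have : D ^ 2 * e ^ 2 = D ^ 2 * ((4 * q - a ^ 2) * (4 * q - b ^ 2)) := by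
      have e1 : D ^ 2 * e ^ 2 = (u * v) ^ 2 := by rw [he]; ring
      rw [e1]
      linear_combination (-(D * (b ^ 2 - 4 * q))) * hu - (u * u) * hv
    exact mul_left_cancel₀ (pow_ne_zero 2 hD) this
  have key : ∀ e' : ℤ, e' ^ 2 = (4 * q - a ^ 2) * (4 * q - b ^ 2) → q ∣ e' + a * b →
      ∃ k ∈ Finset.Icc (-8 : ℤ) 8, 4 * a ^ 2 + (-2 * k * b) * a + (4 * b ^ 2 + (k ^ 2 - 16) * q) = 0 := by
    rintro e' he' ⟨k, hk⟩
    have hab : |a * b| ≤ 4 * q := by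
      apply abs_le_of_sq_le_sq _ (by positivity)
      nlinarith [sq_nonneg a, sq_nonneg b]
    have hee : |e'| ≤ 4 * q := by
      apply abs_le_of_sq_le_sq _ (by positivity)
      rw [he']
      nlinarith [sq_nonneg a, sq_nonneg b]
    have hkp : |k| * q ≤ 8 * q := by
      have : |k| * q = |e' + a * b| := by rw [hk, abs_mul, abs_of_pos hq0, mul_comm]
      rw [this]
      calc |e' + a * b| ≤ |e'| + |a * b| := abs_add_le _ _
        _ ≤ 8 * q := by linarith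
    have hk8 : |k| ≤ 8 := le_of_mul_le_mul_right hkp hq0
    refine ⟨k, Finset.mem_Icc.mpr (abs_le.mp hk8), ?_⟩
    have e1 : e' = q * k - a * b := by linarith
    rw [e1] at he'
    have : q * (4 * a ^ 2 + (-2 * k * b) * a + (4 * b ^ 2 + (k ^ 2 - 16) * q)) = 0 := by
      linear_combination he'
    exact (mul_eq_zero.mp this).resolve_left hq0.ne'
  have hdiv : q ∣ (e + a * b) * (-e + a * b) :=
    ⟨4 * (a ^ 2 + b ^ 2) - 16 * q, by linear_combination (-1 : ℤ) * he2⟩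
  have hnot : ¬ ((p : ℤ) ∣ e + a * b ∧ (p : ℤ) ∣ -e + a * b) := by
    rintro ⟨h3, h4⟩
    have h5 : (p : ℤ) ∣ 2 * (a * b) := by
      have := dvd_add h3 h4
      have e1 : e + a * b + (-e + a * b) = 2 * (a * b) := by ring
      rwa [e1] at this
    rcases hpi.dvd_or_dvd h5 with h6 | h6
    · have h7 : p ∣ 2 := by exact_mod_cast h6
      exact hp2 ((Nat.prime_dvd_prime_iff_eq hp Nat.prime_two).mp h7)
    · rcases hpi.dvd_or_dvd h6 with h7 | h7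
      · exact hap h7
      · exact hbp h7
  by_cases h3 : (p : ℤ) ∣ e + a * b
  · have h4 : ¬ (p : ℤ) ∣ -e + a * b := fun h => hnot ⟨h3, h⟩
    have hc : IsCoprime q (-e + a * b) := by
      rw [hq]
      exact ((hpi.coprime_iff_not_dvd).mpr h4).pow_left
    exact key e he2 (hc.dvd_of_dvd_mul_right hdiv)
  · have hc : IsCoprime q (e + a * b) := by
      rw [hq]
      exact ((hpi.coprime_iff_not_dvd).mpr h3).pow_left
    exact key (-e) (by rw [neg_sq]; exact he2) (hc.dvd_of_dvd_mul_left hdiv)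

lemma card_tracesF {p : ℕ} (hp : p.Prime) (hp2 : p ≠ 2) {s : ℕ} {D : ℤ} (hD : D ≠ 0) {A : Finset ℤ}
    (hA : ∀ a ∈ A, a ^ 2 < 4 * (p : ℤ) ^ s ∧ ¬ (p : ℤ) ∣ a ∧ IsSquare (D * (a ^ 2 - 4 * (p : ℤ) ^ s))) :
    A.card ≤ 34 := by
  classical
  rcases A.eq_empty_or_nonempty with h | ⟨b, hb⟩
  · rw [h]; simp
  · have hsub : A ⊆ (Finset.Icc (-8 : ℤ) 8).biUnion fun k =>
        A.filter fun a => 4 * a ^ 2 + (-2 * k * b) * a + (4 * b ^ 2 + (k ^ 2 - 16) * (p : ℤ) ^ s) = 0 := by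
      intro a ha
      obtain ⟨k, hk, h⟩ := exists_relF hp hp2 hD (hA a ha).2.1 (hA b hb).2.1 (hA a ha).1 (hA b hb).1
        (hA a ha).2.2 (hA b hb).2.2
      rw [Finset.mem_biUnion]
      exact ⟨k, hk, Finset.mem_filter.mpr ⟨ha, h⟩⟩
    calc A.card ≤ _ := Finset.card_le_card hsub
      _ ≤ ∑ _k ∈ Finset.Icc (-8 : ℤ) 8, 2 := by
        refine Finset.card_biUnion_le.trans (Finset.sum_le_sum fun k _ => ?_)
        exact card_le_two_of_quad fun x hx => (Finset.mem_filter.mp hx).2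
      _ ≤ 34 := by simp

end CountF

open CountF Pool.Agent.ZPOrd.CountRed in
theorem count_reducedF (δ : ℝ) (hδ : 0 < δ) : ∃ C : ℝ, 0 < C ∧ ∀ p : ℕ, p.Prime → p ≠ 2 → ∀ s : ℕ, 0 < s → ∀ D : ℤ, D ≠ 0 →
    ∀ S : Finset (ℤ × ℤ × ℤ × ℤ), (∀ x ∈ S, x.1 * x.2.2.2 - x.2.1 * x.2.2.1 = (p : ℤ) ^ s ∧
      |x.1 - x.2.2.2| ≤ |x.2.2.1| ∧ |x.2.2.1| ≤ |x.2.1| ∧ x.2.1 * x.2.2.1 < 0 ∧
      ¬ (p : ℤ) ∣ x.1 + x.2.2.2 ∧ IsSquare (D * ((x.1 + x.2.2.2) ^ 2 - 4 * (p : ℤ) ^ s))) →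
      (S.card : ℝ) ≤ C * ((p : ℝ) ^ s) ^ (1 / 2 + δ) := by
  classical
  obtain ⟨C, hC1, hC⟩ := Pool.Agent.K3N.card_divisors_le δ hδ
  have hC0 : 0 < C := by linarith
  refine ⟨204 * C * 2 ^ (1 / 2 + δ), by positivity, fun p hp hp2 e he D hD S hS => ?_⟩
  set Q : ℕ := p ^ e with hQ
  have hQz : ((Q : ℕ) : ℤ) = (p : ℤ) ^ e := by rw [hQ]; push_cast; rfl
  have hQpos : 0 < Q := pow_pos hp.pos e
  have hq0 : (0 : ℤ) < Q := by exact_mod_cast hQpos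
  -- inequalities
  have key : ∀ s ∈ S, (s.1 + s.2.2.2) ^ 2 < 4 * (Q : ℤ) ∧ (s.1 - s.2.2.2) ^ 2 ≤ 2 * Q ∧
      0 < -(s.2.1 * s.2.2.1) ∧ -(s.2.1 * s.2.2.1) ≤ 2 * Q ∧ s.2.2.1 ≠ 0 := by
    intro s hs
    obtain ⟨h1, h2, h3, h4, -, -⟩ := hS s hs
    rw [← hQz] at h1
    have hγ : s.2.2.1 ≠ 0 := by rintro h; rw [h] at h4; simp at h4
    have e1 : (s.1 - s.2.2.2) ^ 2 ≤ s.2.2.1 ^ 2 := sq_le_sq.mpr h2
    have e2 : s.2.2.1 ^ 2 ≤ -(s.2.1 * s.2.2.1) := by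
      have : |s.2.2.1| * |s.2.2.1| ≤ |s.2.1| * |s.2.2.1| := mul_le_mul_of_nonneg_right h3 (abs_nonneg _)
      rw [← abs_mul, ← abs_mul, abs_of_neg h4, abs_mul_self] at this
      linarith [this, sq (s.2.2.1)]
    have e3 : 4 * -(s.2.1 * s.2.2.1) = 4 * Q - (s.1 + s.2.2.2) ^ 2 + (s.1 - s.2.2.2) ^ 2 := by
      linear_combination (4 : ℤ) * h1
    have e4 : 0 < s.2.2.1 ^ 2 := by positivity
    have e5 := sq_nonneg (s.1 + s.2.2.2)
    refine ⟨by linarith, by linarith, by linarith, by linarith, hγ⟩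
  set M : ℕ := Nat.sqrt (2 * Q) with hM
  set f : ℤ × ℤ × ℤ × ℤ → ℤ × ℤ := fun s => (s.1 + s.2.2.2, s.1 - s.2.2.2) with hf
  set A : Finset ℤ := S.image fun s => s.1 + s.2.2.2 with hA
  have hAcard : A.card ≤ 34 := by
    apply card_tracesF hp hp2 hD (s := e)
    intro a ha
    obtain ⟨s, hs, rfl⟩ := Finset.mem_image.mp ha
    refine ⟨?_, (hS s hs).2.2.2.2.1, (hS s hs).2.2.2.2.2⟩
    rw [← hQz]
    exact (key s hs).1
  have himg : S.image f ⊆ A ×ˢ Finset.Icc (-(M : ℤ)) M := by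
    intro x hx
    obtain ⟨s, hs, rfl⟩ := Finset.mem_image.mp hx
    rw [Finset.mem_product, Finset.mem_Icc]
    refine ⟨Finset.mem_image.mpr ⟨s, hs, rfl⟩, ?_⟩
    have h1 := (key s hs).2.1
    have h2 : (s.1 - s.2.2.2).natAbs ≤ M := by
      rw [hM, Nat.le_sqrt']
      have : (((s.1 - s.2.2.2).natAbs : ℤ)) ^ 2 ≤ ((2 * Q : ℕ) : ℤ) := by
        rw [Int.natAbs_sq]; push_cast; exact h1
      exact_mod_cast this
    constructor
    · simp only [hf]; omega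
    · simp only [hf]; omega
  have himgc : (S.image f).card ≤ 34 * (2 * M + 1) := by
    calc _ ≤ _ := Finset.card_le_card himg
      _ = A.card * (2 * M + 1) := by
        rw [Finset.card_product, Int.card_Icc]
        congr 1
        omega
      _ ≤ _ := by gcongr
  -- fibres
  have hfib : ∀ x ∈ S.image f, (S.filter fun s => f s = x).card ≤
      ⌊2 * (C * ((2 * Q : ℕ) : ℝ) ^ δ)⌋₊ := by
    intro x hx
    obtain ⟨s₀, hs₀, rfl⟩ := Finset.mem_image.mp hx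
    apply Nat.le_floor
    set T := S.filter fun s => f s = f s₀ with hT
    set N : ℕ := (-(s₀.2.1 * s₀.2.2.1)).toNat with hNdef
    have hNz : (N : ℤ) = -(s₀.2.1 * s₀.2.2.1) := Int.toNat_of_nonneg (key s₀ hs₀).2.2.1.le
    have hN0 : N ≠ 0 := by
      have := (key s₀ hs₀).2.2.1
      intro h; rw [h] at hNz; simp at hNz; omega
    have hN2 : N ≤ 2 * Q := by
      have := (key s₀ hs₀).2.2.2.1
      rw [← hNz] at this
      exact_mod_cast this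
    have hprod : ∀ s ∈ T, s.1 = s₀.1 ∧ s.2.2.2 = s₀.2.2.2 ∧ s.2.1 * s.2.2.1 = s₀.2.1 * s₀.2.2.1 := by
      intro s hs
      rw [hT, Finset.mem_filter] at hs
      obtain ⟨hs, hs'⟩ := hs
      simp only [hf, Prod.mk.injEq] at hs'
      have e1 : s.1 = s₀.1 := by omega
      have e2 : s.2.2.2 = s₀.2.2.2 := by omega
      refine ⟨e1, e2, ?_⟩
      have h1 := (hS s hs).1
      have h2 := (hS s₀ hs₀).1
      rw [e1, e2] at h1
      linarith
    have hinj : T.card = (T.image fun s => s.2.2.1).card := by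
      rw [Finset.card_image_of_injOn]
      intro s hs s' hs' hss
      simp only at hss
      obtain ⟨a1, a2, a3⟩ := hprod s hs
      obtain ⟨b1, b2, b3⟩ := hprod s' hs'
      have hs1 := (Finset.mem_filter.mp hs).1
      have hγ := (key s hs1).2.2.2.2
      have hβ : s.2.1 = s'.2.1 := by
        rw [← b3, ← hss] at a3
        exact mul_right_cancel₀ hγ a3
      exact Prod.ext (a1.trans b1.symm) (Prod.ext hβ (Prod.ext hss (a2.trans b2.symm)))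
    have h1 : (T.image fun s => s.2.2.1).card ≤ 2 * N.divisors.card := by
      apply card_int_dvd hN0
      intro x hx
      obtain ⟨s, hs, rfl⟩ := Finset.mem_image.mp hx
      rw [hNz, ← (hprod s hs).2.2]
      exact (dvd_neg.mpr (Dvd.intro_left _ rfl))
    have h2 := hC N hN0
    have h3 : (N : ℝ) ^ δ ≤ ((2 * Q : ℕ) : ℝ) ^ δ := by
      gcongr
    rw [hinj]
    calc (((T.image fun s => s.2.2.1).card : ℕ) : ℝ) ≤ ((2 * N.divisors.card : ℕ) : ℝ) := by exact_mod_cast h1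
      _ = 2 * (N.divisors.card : ℝ) := by push_cast; ring
      _ ≤ 2 * (C * (N : ℝ) ^ δ) := by gcongr
      _ ≤ 2 * (C * ((2 * Q : ℕ) : ℝ) ^ δ) := by gcongr
  have hcard := Finset.card_le_mul_card_image S _ hfib
  set X : ℝ := ((2 * Q : ℕ) : ℝ) with hX
  have hX1 : 1 ≤ X := by
    rw [hX]
    exact_mod_cast (by omega : 1 ≤ 2 * Q)
  have hX0 : 0 < X := by linarith
  have hMX : (M : ℝ) ≤ X ^ (1 / 2 : ℝ) := by
    rw [← Real.sqrt_eq_rpow]
    apply Real.le_sqrt_of_sq_le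
    rw [hX]
    exact_mod_cast Nat.sqrt_le' (2 * Q)
  have hX2 : 1 ≤ X ^ (1 / 2 : ℝ) := Real.one_le_rpow hX1 (by norm_num)
  have hfloor : ((⌊2 * (C * X ^ δ)⌋₊ : ℕ) : ℝ) ≤ 2 * (C * X ^ δ) :=
    Nat.floor_le (by positivity)
  have hXq : X = 2 * (p : ℝ) ^ e := by
    rw [hX, hQ]; push_cast; ring
  have hpe : (0 : ℝ) ≤ (p : ℝ) ^ e := by positivity
  calc (S.card : ℝ) ≤ ((⌊2 * (C * X ^ δ)⌋₊ * (S.image f).card : ℕ) : ℝ) := by exact_mod_cast hcard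
    _ = ((⌊2 * (C * X ^ δ)⌋₊ : ℕ) : ℝ) * ((S.image f).card : ℝ) := by push_cast; ring
    _ ≤ (2 * (C * X ^ δ)) * (34 * (3 * X ^ (1 / 2 : ℝ))) := by
      gcongr
      calc ((S.image f).card : ℝ) ≤ ((34 * (2 * M + 1) : ℕ) : ℝ) := by exact_mod_cast himgc
        _ = 34 * (2 * (M : ℝ) + 1) := by push_cast; ring
        _ ≤ _ := by linarith
    _ = 204 * C * (X ^ (1 / 2 : ℝ) * X ^ δ) := by ring
    _ = 204 * C * X ^ (1 / 2 + δ) := by rw [← Real.rpow_add hX0]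
    _ = 204 * C * 2 ^ (1 / 2 + δ) * ((p : ℝ) ^ e) ^ (1 / 2 + δ) := by
      rw [hXq, Real.mul_rpow (by norm_num) hpe]; ring

end Pool.Agent.ZPF
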