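import Mathlib
import Pool.Agent.ZPF.Defs
import Pool.Agent.ZPOrd.Kron
import Pool.Agent.ZPOrd.Nbr
import Pool.Agent.ZPOrd.JBij

/-!
The canonical step from a point whose residue is not in the field with `p ^ 2` elements: existence,
uniqueness, contraction.
-/

open UpperHalfPlane hiding I
open MatrixGroups

namespace Pool.Agent.ZPF

open Pool.Agent.Lib.ModularZP Pool.Agent.ZPOrd

variable {p : ℕ} [Fact p.Prime] {V : ValuationSubring ℂ}

lemma res_iff {x y : ℂ} (hx : x ∈ V) (hy : y ∈ V) : V.valuation (x - y) < 1 ↔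
    IsLocalRing.residue V ⟨x, hx⟩ = IsLocalRing.residue V ⟨y, hy⟩ := by
  rw [← sub_eq_zero, ← map_sub, IsLocalRing.residue_eq_zero_iff]
  exact (V.valuation_lt_one_iff ((⟨x, hx⟩ : V) - ⟨y, hy⟩)).symm

omit [Fact p.Prime] in
lemma nf_iff {y : ℂ} (hy : y ∈ V) : NF p V y ↔
    IsLocalRing.residue V ⟨y, hy⟩ ^ (p ^ 2) ≠ IsLocalRing.residue V ⟨y, hy⟩ := by
  have h1 : IsLocalRing.residue V ⟨y, hy⟩ ^ (p ^ 2) = IsLocalRing.residue V ⟨y ^ (p ^ 2), pow_mem hy _⟩ := by
    rw [← map_pow]; rfl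
  rw [h1, Ne, ← res_iff]
  have hle : V.valuation (y ^ (p ^ 2) - y) ≤ 1 := (V.valuation_le_one_iff _).mpr (sub_mem (pow_mem hy _) hy)
  constructor
  · rintro ⟨_, h⟩ h'
    rw [h] at h'
    exact lt_irrefl _ h'
  · intro h
    exact ⟨hy, le_antisymm hle (not_lt.mp h)⟩

lemma nf_close (_hV : V.valuation (p : ℂ) < 1) {x y : ℂ} (hy : NF p V y) (h : V.valuation (x - y) < 1) : NF p V x := by
  have hx := nb_mem hy.1 h
  rw [nf_iff hx, (res_iff hx hy.1).mp h]
  exact (nf_iff hy.1).mp hy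

lemma nf_pow (hV : V.valuation (p : ℂ) < 1) {x y : ℂ} (hy : NF p V y) (h : V.valuation (x - y ^ p) < 1) : NF p V x := by
  have hp : p.Prime := Fact.out
  have : CharP (IsLocalRing.ResidueField V) p := Pool.Agent.ZP46.charP_residue hp hV
  have hyp : y ^ p ∈ V := pow_mem hy.1 _
  have hx := nb_mem hyp h
  have h1 : IsLocalRing.residue V ⟨y ^ p, hyp⟩ = IsLocalRing.residue V ⟨y, hy.1⟩ ^ p := by rw [← map_pow]; rfl
  rw [nf_iff hx, (res_iff hx hyp).mp h, h1]
  intro h2
  apply (nf_iff hy.1).mp hy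
  rw [← pow_mul, mul_comm, pow_mul] at h2
  exact frobenius_inj (IsLocalRing.ResidueField V) p h2

lemma nf_root (hV : V.valuation (p : ℂ) < 1) {x y : ℂ} (hx : x ∈ V) (hy : NF p V y) (h : V.valuation (x ^ p - y) < 1) :
    NF p V x := by
  have hp : p.Prime := Fact.out
  have h1 : IsLocalRing.residue V ⟨x ^ p, pow_mem hx _⟩ = IsLocalRing.residue V ⟨x, hx⟩ ^ p := by rw [← map_pow]; rfl
  have h2 := (res_iff (pow_mem hx p) hy.1).mp h
  rw [h1] at h2
  rw [nf_iff hx]
  intro h3
  apply (nf_iff hy.1).mp hy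
  rw [← h2, ← pow_mul, mul_comm, pow_mul, h3]

lemma pow_sub_pow_le (d : ℂ) (hd : V.valuation (p : ℂ) ≤ V.valuation d) {x y : ℂ} (hx : x ∈ V) (hy : y ∈ V)
    (h : V.valuation (x - y) ≤ V.valuation d) : V.valuation (x ^ p - y ^ p) ≤ V.valuation d * V.valuation (x - y) := by
  have h1 : x ^ p - y ^ p = (x - y) * ∑ i ∈ Finset.range p, x ^ i * y ^ (p - 1 - i) := by
    rw [mul_comm, Commute.geom_sum₂_mul (Commute.all _ _)]
  have h2 : ∑ i ∈ Finset.range p, x ^ i * y ^ (p - 1 - i) =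
      (p : ℂ) * y ^ (p - 1) + ∑ i ∈ Finset.range p, (x ^ i - y ^ i) * y ^ (p - 1 - i) := by
    have h3 : ∑ i ∈ Finset.range p, y ^ i * y ^ (p - 1 - i) = (p : ℂ) * y ^ (p - 1) := by
      rw [Finset.sum_congr rfl (g := fun _ => y ^ (p - 1)), Finset.sum_const, Finset.card_range, nsmul_eq_mul]
      intro i hi
      rw [← pow_add]
      congr 1
      have := Finset.mem_range.mp hi
      omega
    rw [← h3, ← Finset.sum_add_distrib]
    refine Finset.sum_congr rfl fun i _ => ?_
    ring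
  rw [h1, map_mul, mul_comm (V.valuation d), h2]
  refine mul_le_mul_right (V.valuation.map_add_le ?_ (V.valuation.map_sum_le fun i _ => ?_)) _
  · rw [map_mul]
    exact (mul_le_of_le_one_right' ((V.valuation_le_one_iff _).mpr (pow_mem hy _))).trans hd
  · rw [map_mul]
    exact (mul_le_of_le_one_right' ((V.valuation_le_one_iff _).mpr (pow_mem hy _))).trans ((nb_pow_sub hx hy i).trans h)

/-- the value of a polynomial in two variables -/
noncomputable def ev2 (E : Polynomial (Polynomial ℂ)) (x y : ℂ) : ℂ := (E.map (Polynomial.evalRingHom y)).eval x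

lemma ev2_sum (E : Polynomial (Polynomial ℂ)) (x y : ℂ) :
    ev2 E x y = E.sum fun i q => q.sum fun k a => a * y ^ k * x ^ i := by
  unfold ev2
  rw [Polynomial.eval_map, Polynomial.eval₂_eq_sum]
  unfold Polynomial.sum
  refine Finset.sum_congr rfl fun i _ => ?_
  simp only [Polynomial.coe_evalRingHom]
  rw [Polynomial.eval_eq_sum, Polynomial.sum_def, Finset.sum_mul]

lemma ev2_le {E : Polynomial (Polynomial ℂ)} {d : ℂ} (hE : ∀ i k, V.valuation ((E.coeff i).coeff k) ≤ V.valuation d)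
    {x y : ℂ} (hx : x ∈ V) (hy : y ∈ V) : V.valuation (ev2 E x y) ≤ V.valuation d := by
  rw [ev2_sum, Polynomial.sum_def]
  refine V.valuation.map_sum_le fun i _ => ?_
  rw [Polynomial.sum_def]
  refine V.valuation.map_sum_le fun k _ => ?_
  rw [mul_assoc, map_mul]
  exact (mul_le_of_le_one_right' ((V.valuation_le_one_iff _).mpr (mul_mem (pow_mem hy _) (pow_mem hx _)))).trans (hE i k)

lemma ev2_sub_le {E : Polynomial (Polynomial ℂ)} {d : ℂ} (hE : ∀ i k, V.valuation ((E.coeff i).coeff k) ≤ V.valuation d)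
    {x y x' y' : ℂ} (hx : x ∈ V) (hy : y ∈ V) (hx' : x' ∈ V) (hy' : y' ∈ V) :
    V.valuation (ev2 E x y - ev2 E x' y') ≤ V.valuation d * max (V.valuation (x - x')) (V.valuation (y - y')) := by
  rw [ev2_sum, ev2_sum, Polynomial.sum_def, Polynomial.sum_def, ← Finset.sum_sub_distrib]
  refine V.valuation.map_sum_le fun i _ => ?_
  rw [Polynomial.sum_def, Polynomial.sum_def, ← Finset.sum_sub_distrib]
  refine V.valuation.map_sum_le fun k _ => ?_
  have h1 : (E.coeff i).coeff k * y ^ k * x ^ i - (E.coeff i).coeff k * y' ^ k * x' ^ i =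
      (E.coeff i).coeff k * (y ^ k * (x ^ i - x' ^ i) + (y ^ k - y' ^ k) * x' ^ i) := by ring
  rw [h1, map_mul]
  refine mul_le_mul' (hE i k) (V.valuation.map_add_le ?_ ?_)
  · rw [map_mul]
    exact (mul_le_of_le_one_left' ((V.valuation_le_one_iff _).mpr (pow_mem hy _))).trans
      ((nb_pow_sub hx hx' i).trans (le_max_left _ _))
  · rw [map_mul]
    exact (mul_le_of_le_one_right' ((V.valuation_le_one_iff _).mpr (pow_mem hx' _))).trans
      ((nb_pow_sub hy hy' k).trans (le_max_right _ _))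

lemma val_unit (hV : V.valuation (p : ℂ) < 1) {x y : ℂ} (hy : NF p V y) (h : V.valuation (x - y ^ p) < 1) :
    V.valuation (x ^ p - y) = 1 := by
  have hp : p.Prime := Fact.out
  have hyp : y ^ p ∈ V := pow_mem hy.1 _
  have hx := nb_mem hyp h
  have h1 : x ^ p - y = (x ^ p - (y ^ p) ^ p) + (y ^ (p ^ 2) - y) := by ring
  have h2 : V.valuation (x ^ p - (y ^ p) ^ p) < 1 := (nb_pow_sub hx hyp p).trans_lt h
  rw [h1, V.valuation.map_add_eq_of_lt_right (by rw [hy.2]; exact h2), hy.2]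

/-- the contraction inequality -/
lemma contr_aux (hV : V.valuation (p : ℂ) < 1) {E : Polynomial (Polynomial ℂ)} {d : ℂ}
    (hE : ∀ i k, V.valuation ((E.coeff i).coeff k) ≤ V.valuation d) (hp' : V.valuation (p : ℂ) ≤ V.valuation d)
    (hd : V.valuation d < 1) {x y x' y' : ℂ} (hy : NF p V y) (hyy : V.valuation (y - y') ≤ V.valuation d)
    (hx : V.valuation (x - y ^ p) ≤ V.valuation d) (hx' : V.valuation (x' - y' ^ p) ≤ V.valuation d)
    (h : (x - y ^ p) * (x ^ p - y) + ev2 E x y = 0) (h' : (x' - y' ^ p) * (x' ^ p - y') + ev2 E x' y' = 0) :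
    V.valuation (x - x') ≤ V.valuation d * V.valuation (y - y') := by
  have hyV := hy.1
  have hy'V : y' ∈ V := by
    have := sub_mem hyV ((V.valuation_le_one_iff _).mp (hyy.trans hd.le))
    rwa [sub_sub_cancel] at this
  have hxV : x ∈ V := nb_mem (pow_mem hyV p) (hx.trans_lt hd)
  have hx'V : x' ∈ V := nb_mem (pow_mem hy'V p) (hx'.trans_lt hd)
  have hu : V.valuation (x ^ p - y) = 1 := val_unit hV hy (hx.trans_lt hd)
  have key : (x - x') * (x ^ p - y) = (y ^ p - y' ^ p) * (x ^ p - y) -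
      ((x' - y' ^ p) * (x ^ p - x' ^ p) - (x' - y' ^ p) * (y - y')) - (ev2 E x y - ev2 E x' y') := by
    linear_combination h - h'
  set A := V.valuation (x - x') with hA
  set B := V.valuation (y - y') with hB
  have h1 : V.valuation ((y ^ p - y' ^ p) * (x ^ p - y)) ≤ V.valuation d * max A B := by
    rw [map_mul, hu, mul_one]
    exact (pow_sub_pow_le d hp' hyV hy'V hyy).trans (mul_le_mul_right (le_max_right _ _) _)
  have h2 : V.valuation ((x' - y' ^ p) * (x ^ p - x' ^ p)) ≤ V.valuation d * max A B := by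
    rw [map_mul]
    exact mul_le_mul' hx' ((nb_pow_sub hxV hx'V p).trans (le_max_left _ _))
  have h3 : V.valuation ((x' - y' ^ p) * (y - y')) ≤ V.valuation d * max A B := by
    rw [map_mul]
    exact mul_le_mul' hx' (le_max_right _ _)
  have h4 : V.valuation (ev2 E x y - ev2 E x' y') ≤ V.valuation d * max A B := ev2_sub_le hE hxV hyV hx'V hy'V
  have h5 : A ≤ V.valuation d * max A B := by
    have e1 : V.valuation ((x - x') * (x ^ p - y)) = A := by rw [map_mul, hu, mul_one]
    have e2 := V.valuation.map_sub_le (V.valuation.map_sub_le h1 (V.valuation.map_sub_le h2 h3)) h4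
    rw [← key, e1] at e2
    exact e2
  rcases le_total A B with hAB | hAB
  · rwa [max_eq_right hAB] at h5
  · rw [max_eq_left hAB] at h5
    have h6 : A = 0 := by
      by_contra hne
      have h7 : V.valuation d * A < 1 * A := mul_lt_mul_of_pos_right hd (zero_lt_iff.mpr hne)
      rw [one_mul] at h7
      exact absurd h5 (not_le.mpr h7)
    rw [h6]
    exact zero_le

/-- the modular polynomial at two neighbours -/
lemma modPoly_zero [NeZero p] {Φ : Polynomial (Polynomial ℂ)} (hprod : ∀ τ : ℍ, Φ.map (Polynomial.evalRingHom (jInv τ)) =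
      ∏ q : QN p, (Polynomial.X - Polynomial.C (jInv (toGL (rep q) • τ)))) {τ : ℍ} {M : M2} (hM : M.det = p) :
    ev2 Φ (jInv (gl M • τ)) (jInv τ) = 0 := by
  unfold ev2
  rw [modPoly_eval hprod, Finset.prod_eq_zero (Finset.mem_univ (Quotient.mk'' (toMN M hM) : QN p))]
  rw [jInv_rep M hM τ, sub_self]

lemma ev2_kr (Φ : Polynomial (Polynomial ℂ)) (x y : ℂ) :
    ev2 Φ x y = (x - y ^ p) * (x ^ p - y) + ev2 (Φ - (Polynomial.X - Polynomial.C (Polynomial.X ^ p)) *
      (Polynomial.X ^ p - Polynomial.C Polynomial.X)) x y := by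
  unfold ev2
  rw [Polynomial.map_sub, Polynomial.eval_sub]
  simp

lemma kron_cases (hV : V.valuation (p : ℂ) < 1) {τ : ℍ} (hτ : jInv τ ∈ V) {M : M2} (hM : M.det = p) :
    V.valuation (jInv (gl M • τ) - jInv τ ^ p) < 1 ∨ V.valuation (jInv (gl M • τ) ^ p - jInv τ) < 1 := by
  have hp : p.Prime := Fact.out
  have : NeZero p := ⟨hp.ne_zero⟩
  obtain ⟨Φ, hΦ, hprod, hK⟩ := kronecker p V hV
  have hxV : jInv (gl M • τ) ∈ V := jInv_mem (by rw [hM]; exact_mod_cast hp.pos) hτ
  have h1 := modPoly_zero hprod (τ := τ) hM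
  rw [ev2_kr (p := p)] at h1
  have h2 := val_eval_lt hK hxV hτ
  change V.valuation (ev2 _ _ _) < 1 at h2
  have h3 : (jInv (gl M • τ) - jInv τ ^ p) * (jInv (gl M • τ) ^ p - jInv τ) = - ev2 (Φ - (Polynomial.X -
      Polynomial.C (Polynomial.X ^ p)) * (Polynomial.X ^ p - Polynomial.C Polynomial.X)) (jInv (gl M • τ)) (jInv τ) := by
    linear_combination h1
  have h4 : V.valuation ((jInv (gl M • τ) - jInv τ ^ p) * (jInv (gl M • τ) ^ p - jInv τ)) < 1 := by
    rw [h3, Valuation.map_neg]; exact h2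
  rw [map_mul] at h4
  by_contra hcon
  push Not at hcon
  exact absurd h4 (not_lt.mpr (one_le_mul hcon.1 hcon.2))

theorem ts_exists (hV : V.valuation (p : ℂ) < 1) {τ : ℍ} (hτ : jInv τ ∈ V) :
    ∃ M : M2, M.det = p ∧ V.valuation (jInv (gl M • τ) - jInv τ ^ p) < 1 := by
  have hp : p.Prime := Fact.out
  have : NeZero p := ⟨hp.ne_zero⟩
  obtain ⟨Φ, hΦ, hprod, hK⟩ := kronecker p V hV
  have h2 := val_eval_lt hK (pow_mem hτ p) hτ
  change V.valuation (ev2 _ _ _) < 1 at h2
  have h1 := ev2_kr (p := p) Φ (jInv τ ^ p) (jInv τ)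
  rw [sub_self, zero_mul, zero_add] at h1
  rw [← h1] at h2
  unfold ev2 at h2
  rw [modPoly_eval hprod, map_prod] at h2
  obtain ⟨q, hq⟩ : ∃ q : QN p, V.valuation (jInv τ ^ p - jInv (toGL (rep q) • τ)) < 1 := by
    by_contra hcon
    push Not at hcon
    exact absurd h2 (not_lt.mpr (Finset.one_le_prod' fun q _ => hcon q))
  refine ⟨(rep q).1, (rep q).2, ?_⟩
  rw [gl_toGL, Valuation.map_sub_swap]
  exact hq

open Polynomial in
theorem ts_unique (hV : V.valuation (p : ℂ) < 1) {τ : ℍ} (hτ : NF p V (jInv τ)) {M M' : M2} (hM : M.det = p)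
    (hM' : M'.det = p) (h : V.valuation (jInv (gl M • τ) - jInv τ ^ p) < 1)
    (h' : V.valuation (jInv (gl M' • τ) - jInv τ ^ p) < 1) : ∃ γ : SL(2, ℤ), M' = γ.1 * M := by
  classical
  have hp : p.Prime := Fact.out
  have : NeZero p := ⟨hp.ne_zero⟩
  obtain ⟨Φ, hΦ, hprod, hK⟩ := kronecker p V hV
  set y := jInv τ with hy
  set x := jInv (gl M • τ) with hx
  have hyV : y ∈ V := hτ.1
  have hxV : x ∈ V := nb_mem (pow_mem hyV p) h
  set m : QN p := Quotient.mk'' (toMN M hM) with hm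
  set m' : QN p := Quotient.mk'' (toMN M' hM') with hm'
  have key : m = m' := by
    by_contra hmm
    set P : Polynomial ℂ := Φ.map (Polynomial.evalRingHom y) with hP
    set E : Polynomial (Polynomial ℂ) := Φ - (X - C (X ^ p)) * (X ^ p - C X) with hE
    have hPE : P = (X - C (y ^ p)) * (X ^ p - C y) + E.map (Polynomial.evalRingHom y) := by
      rw [hP, hE, Polynomial.map_sub]
      simp
    have hEc : ∀ k, V.valuation ((E.map (Polynomial.evalRingHom y)).coeff k) < 1 := by
      intro k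
      rw [Polynomial.coeff_map, Polynomial.coe_evalRingHom, Polynomial.eval_eq_sum_range]
      refine V.valuation.map_sum_lt one_ne_zero fun i _ => ?_
      rw [map_mul]
      exact mul_lt_one_of_lt_of_le (hK _ _) ((V.valuation_le_one_iff _).mpr (pow_mem hyV _))
    have hEd : V.valuation ((derivative (E.map (Polynomial.evalRingHom y))).eval x) < 1 := by
      rw [Polynomial.eval_eq_sum_range]
      refine V.valuation.map_sum_lt one_ne_zero fun i _ => ?_
      rw [Polynomial.coeff_derivative, map_mul, map_mul]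
      refine mul_lt_one_of_lt_of_le (mul_lt_one_of_lt_of_le (hEc _) ?_) ((V.valuation_le_one_iff _).mpr (pow_mem hxV _))
      have : ((i : ℂ) + 1) = ((i + 1 : ℕ) : ℂ) := by push_cast; ring
      rw [this]
      exact (V.valuation_le_one_iff _).mpr (natCast_mem V _)
    have hd1 : V.valuation ((derivative P).eval x) = 1 := by
      have e1 : (derivative P).eval x = (x ^ p - y) + ((x - y ^ p) * ((p : ℂ) * x ^ (p - 1)) +
          (derivative (E.map (Polynomial.evalRingHom y))).eval x) := by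
        rw [hPE, derivative_add, Polynomial.eval_add, derivative_mul, derivative_sub, derivative_X, derivative_C,
          derivative_sub, derivative_X_pow, derivative_C]
        simp
        ring
      have e2 := val_unit hV hτ h
      rw [e1, V.valuation.map_add_eq_of_lt_left, e2]
      rw [e2]
      refine V.valuation.map_add_lt ?_ hEd
      rw [map_mul]
      refine mul_lt_one_of_lt_of_le h ((V.valuation_le_one_iff _).mpr (mul_mem (natCast_mem V _) (pow_mem hxV _)))
    have hxm : jInv (toGL (rep m) • τ) = x := by rw [hm, jInv_rep]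
    have hxm' : jInv (toGL (rep m') • τ) = jInv (gl M' • τ) := by rw [hm', jInv_rep]
    have hd2 : (derivative P).eval x = ∏ q ∈ Finset.univ.erase m, (x - jInv (toGL (rep q) • τ)) := by
      rw [hP, hprod, Polynomial.derivative_prod_finset, Polynomial.eval_finsetSum, Finset.sum_eq_single m]
      · rw [Polynomial.eval_mul, Polynomial.eval_prod]
        simp
      · intro q _ hq
        rw [Polynomial.eval_mul, Polynomial.eval_prod, Finset.prod_eq_zero (i := m), zero_mul]
        · exact Finset.mem_erase.mpr ⟨hq.symm, Finset.mem_univ _⟩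
        · rw [hxm]; simp
      · intro h; exact absurd (Finset.mem_univ _) h
    have hd3 : V.valuation ((derivative P).eval x) < 1 := by
      rw [hd2, ← Finset.mul_prod_erase _ _ (Finset.mem_erase.mpr ⟨Ne.symm hmm, Finset.mem_univ m'⟩), map_mul, map_prod]
      refine mul_lt_one_of_lt_of_le ?_ (Finset.prod_le_one' fun q _ => ?_)
      · rw [hxm']
        have e1 : x - jInv (gl M' • τ) = (x - y ^ p) - (jInv (gl M' • τ) - y ^ p) := by ring
        rw [e1]
        exact V.valuation.map_sub_lt h h'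
      · rw [V.valuation_le_one_iff]
        refine sub_mem hxV ?_
        have := jInv_mem (V := V) (M := (rep q).1) (τ := τ) (by rw [(rep q).2]; exact_mod_cast hp.pos) hyV
        rwa [gl_toGL] at this
    rw [hd1] at hd3
    exact lt_irrefl _ hd3
  obtain ⟨γ, hγ⟩ := exists_rep_eq M hM
  obtain ⟨γ', hγ'⟩ := exists_rep_eq M' hM'
  rw [← hm] at hγ
  rw [← hm', ← key] at hγ'
  refine ⟨γ' * γ⁻¹, ?_⟩
  rw [hγ', Matrix.SpecialLinearGroup.coe_mul, Matrix.mul_assoc]
  congr 1
  conv_rhs => rw [hγ]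
  rw [← Matrix.mul_assoc, ← Matrix.SpecialLinearGroup.coe_mul, inv_mul_cancel]
  simp

/-- a dominating coefficient -/
lemma exists_dom {E : Polynomial (Polynomial ℂ)} (hE : ∀ i k, V.valuation ((E.coeff i).coeff k) < 1)
    (hA : ∀ i k, (E.coeff i).coeff k ∈ AI) (hV : V.valuation (p : ℂ) < 1) : ∃ e : ℂ, e ∈ AI ∧ e ≠ 0 ∧ V.valuation e < 1 ∧
    V.valuation (p : ℂ) ≤ V.valuation e ∧ ∀ i k, V.valuation ((E.coeff i).coeff k) ≤ V.valuation e := by
  classical
  have hp : p.Prime := Fact.out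
  have hp0 : (p : ℂ) ≠ 0 := by exact_mod_cast hp.ne_zero
  set T : Finset ℂ := insert (p : ℂ) ((E.support.biUnion fun i => (E.coeff i).support.image fun k => (E.coeff i).coeff k)) with hT
  obtain ⟨e, heT, hmax⟩ := Finset.exists_max_image T (fun z => V.valuation z) ⟨(p : ℂ), Finset.mem_insert_self _ _⟩
  have hpe : V.valuation (p : ℂ) ≤ V.valuation e := hmax _ (Finset.mem_insert_self _ _)
  have hcases : e = (p : ℂ) ∨ ∃ i k, e = (E.coeff i).coeff k := by
    rw [hT, Finset.mem_insert, Finset.mem_biUnion] at heT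
    rcases heT with h | ⟨i, _, h⟩
    · exact Or.inl h
    · obtain ⟨k, _, hk⟩ := Finset.mem_image.mp h
      exact Or.inr ⟨i, k, hk.symm⟩
  refine ⟨e, ?_, ?_, ?_, hpe, ?_⟩
  · rcases hcases with h | ⟨i, k, h⟩
    · rw [h]; exact natCast_mem AI p
    · rw [h]; exact hA i k
  · rintro rfl
    rw [map_zero, le_zero_iff, map_eq_zero] at hpe
    exact hp0 hpe
  · rcases hcases with h | ⟨i, k, h⟩
    · rw [h]; exact hV
    · rw [h]; exact hE i k
  · intro i k
    by_cases h0 : (E.coeff i).coeff k = 0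
    · rw [h0, map_zero]; exact zero_le
    · refine hmax _ (Finset.mem_insert_of_mem (Finset.mem_biUnion.mpr ⟨i, ?_, Finset.mem_image.mpr ⟨k, ?_, rfl⟩⟩))
      · rw [Polynomial.mem_support_iff]
        rintro h
        rw [h, Polynomial.coeff_zero] at h0
        exact h0 rfl
      · exact Polynomial.mem_support_iff.mpr h0

open Polynomial in
/-- contraction: `ε` is the valuation of an algebraic integer -/
theorem contr (hV : V.valuation (p : ℂ) < 1) : ∃ e : ℂ, e ∈ AI ∧ e ≠ 0 ∧ V.valuation e < 1 ∧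
    V.valuation (p : ℂ) ≤ V.valuation e ∧
    (∀ (τ : ℍ) (M : M2), NF p V (jInv τ) → M.det = p → V.valuation (jInv (gl M • τ) - jInv τ ^ p) < 1 →
      V.valuation (jInv (gl M • τ) - jInv τ ^ p) ≤ V.valuation e) ∧
    ∀ (τ τ' : ℍ) (M M' : M2) (d : ℂ), NF p V (jInv τ) → V.valuation e ≤ V.valuation d → V.valuation d < 1 →
      V.valuation (jInv τ - jInv τ') ≤ V.valuation d → M.det = p → M'.det = p →
      V.valuation (jInv (gl M • τ) - jInv τ ^ p) < 1 → V.valuation (jInv (gl M' • τ') - jInv τ' ^ p) < 1 →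
      V.valuation (jInv (gl M • τ) - jInv (gl M' • τ')) ≤ V.valuation d * V.valuation (jInv τ - jInv τ') := by
  have hp : p.Prime := Fact.out
  have : NeZero p := ⟨hp.ne_zero⟩
  obtain ⟨Φ, hΦ, hprod, hK⟩ := kronecker p V hV
  set E : Polynomial (Polynomial ℂ) := Φ - (X - C (X ^ p)) * (X ^ p - C X) with hE
  have hA : ∀ i k, (E.coeff i).coeff k ∈ AI := by
    intro i k
    have hKr : ((X - C (X ^ p)) * (X ^ p - C X) : Polynomial (Polynomial ℂ)) = Kr (p := p) ℂ := rfl
    rw [hE, Polynomial.coeff_sub, Polynomial.coeff_sub, hKr, Kr_coeff ℂ]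
    exact sub_mem (hΦ i k) (intCast_mem AI _)
  obtain ⟨e, heA, he0, he1, hpe, hEe⟩ := exists_dom hK hA hV
  have hloc : ∀ (τ : ℍ) (M : M2), M.det = p → (jInv (gl M • τ) - jInv τ ^ p) * (jInv (gl M • τ) ^ p - jInv τ) +
      ev2 E (jInv (gl M • τ)) (jInv τ) = 0 := by
    intro τ M hM
    have h1 := modPoly_zero hprod (τ := τ) hM
    rw [ev2_kr (p := p)] at h1
    exact h1
  have hcl : ∀ (τ : ℍ) (M : M2), NF p V (jInv τ) → M.det = p → V.valuation (jInv (gl M • τ) - jInv τ ^ p) < 1 →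
      V.valuation (jInv (gl M • τ) - jInv τ ^ p) ≤ V.valuation e := by
    intro τ M hτ hM h
    have h1 := hloc τ M hM
    have h2 := val_unit hV hτ h
    have hxV : jInv (gl M • τ) ∈ V := nb_mem (pow_mem hτ.1 p) h
    have h3 := ev2_le hEe hxV hτ.1
    have h4 : V.valuation ((jInv (gl M • τ) - jInv τ ^ p) * (jInv (gl M • τ) ^ p - jInv τ)) =
        V.valuation (ev2 E (jInv (gl M • τ)) (jInv τ)) := by
      rw [← Valuation.map_neg]
      congr 1
      linear_combination (-1 : ℂ) * h1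
    rw [map_mul, h2, mul_one] at h4
    rw [h4]
    exact h3
  refine ⟨e, heA, he0, he1, hpe, hcl, ?_⟩
  intro τ τ' M M' d hτ hed hd1 hττ hM hM' h h'
  have hτ' : NF p V (jInv τ') := nf_close hV hτ (by rw [Valuation.map_sub_swap]; exact hττ.trans_lt hd1)
  exact contr_aux hV (fun i k => (hEe i k).trans hed) (hpe.trans hed) hd1 hτ hττ ((hcl τ M hτ hM h).trans hed)
    ((hcl τ' M' hτ' hM' h').trans hed) (hloc τ M hM) (hloc τ' M' hM')

theorem ts_fun (hV : V.valuation (p : ℂ) < 1) {y x x' : ℂ} (hy : NF p V y) (h : TS p V y x) (h' : TS p V y x') :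
    x = x' := by
  have hp : p.Prime := Fact.out
  have hp0 : (0 : ℤ) < p := by exact_mod_cast hp.pos
  obtain ⟨τ, M, hM, rfl, rfl, hc⟩ := h
  obtain ⟨τ', M', hM', hτ', rfl, hc'⟩ := h'
  obtain ⟨γ, hγ⟩ := jInv_inj hτ'.symm
  subst hγ
  have h1 : gl M' • (γ • τ) = gl (M' * γ.1) • τ := by
    rw [gl_mul_smul (by rw [hM']; exact hp0) (by rw [γ.2]; exact one_pos), gl_sl_smul]
  rw [h1] at hc' ⊢
  obtain ⟨γ', hγ'⟩ := ts_unique hV hy hM (M' := M' * γ.1) (by rw [Matrix.det_mul, γ.2, mul_one, hM']) hc hc'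
  rw [hγ', jInv_gl_sl_mul γ' (by rw [hM]; exact hp0.ne')]

theorem ts_contr (hV : V.valuation (p : ℂ) < 1) {y y' x x' : ℂ} (hy : NF p V y) (hc : V.valuation (y - y') < 1)
    (hne : y ≠ y') (h : TS p V y x) (h' : TS p V y' x') : V.valuation (x - x') < V.valuation (y - y') := by
  obtain ⟨e, _, _, he1, _, _, hcon⟩ := contr hV
  obtain ⟨τ, M, hM, rfl, rfl, hx⟩ := h
  obtain ⟨τ', M', hM', rfl, rfl, hx'⟩ := h'
  have h0 : V.valuation (jInv τ - jInv τ') ≠ 0 := by rw [Ne, map_eq_zero]; exact sub_ne_zero.mpr hne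
  rcases le_total (V.valuation e) (V.valuation (jInv τ - jInv τ')) with h1 | h1
  · refine (hcon τ τ' M M' (jInv τ - jInv τ') hy h1 hc le_rfl hM hM' hx hx').trans_lt ?_
    calc _ < 1 * V.valuation (jInv τ - jInv τ') := mul_lt_mul_of_pos_right hc (zero_lt_iff.mpr h0)
      _ = _ := one_mul _
  · refine (hcon τ τ' M M' e hy le_rfl he1 h1 hM hM' hx hx').trans_lt ?_
    calc _ < 1 * V.valuation (jInv τ - jInv τ') := mul_lt_mul_of_pos_right he1 (zero_lt_iff.mpr h0)
      _ = _ := one_mul _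

end Pool.Agent.ZPF
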