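import Mathlib
import Pool.Agent.ZPF.Step
import Pool.Agent.ZPOrd.Walk

/-!
Walks of `p`-isogenies through points whose residue is not in the field with `p ^ 2` elements: a closed walk of
unit trace follows the canonical step (forwards or backwards), periodic orbits of the canonical step in one
residue disc coincide.
-/

open UpperHalfPlane hiding I
open MatrixGroups

namespace Pool.Agent.ZPF

open Pool.Agent.Lib.ModularZP Pool.Agent.ZPOrd

variable {p : ℕ} [Fact p.Prime] {V : ValuationSubring ℂ}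

lemma w83_nf_seq (hV : V.valuation (p : ℂ) < 1) {y : ℕ → ℂ} (hy : ∀ k, TS p V (y k) (y (k + 1)))
    (h0 : NF p V (y 0)) : ∀ k, NF p V (y k) := by
  intro k
  induction k with
  | zero => exact h0
  | succ k ih =>
    obtain ⟨τ, M, -, -, -, h⟩ := hy k
    exact nf_pow hV ih h

omit [Fact p.Prime] in
lemma w83_per {α : Type*} {y : ℕ → α} {m : ℕ} (hym : ∀ k, y (k + m) = y k) (n : ℕ) : ∀ k, y (k + m * n) = y k := by
  induction n with
  | zero => intro k; simp
  | succ n ih =>
    intro k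
    rw [Nat.mul_succ, ← add_assoc, hym, ih]

theorem per_unique (hV : V.valuation (p : ℂ) < 1) {y z : ℕ → ℂ} {m m' : ℕ} (hm : 0 < m) (hm' : 0 < m')
    (hy : ∀ k, TS p V (y k) (y (k + 1))) (hz : ∀ k, TS p V (z k) (z (k + 1)))
    (hym : ∀ k, y (k + m) = y k) (hzm : ∀ k, z (k + m') = z k) (h0 : NF p V (y 0))
    (hc : V.valuation (y 0 - z 0) < 1) : y 0 = z 0 := by
  have hnf := w83_nf_seq hV hy h0
  by_contra hne
  have hstay : ∀ k, y k = z k → ∀ n, y (k + n) = z (k + n) := by
    intro k hk n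
    induction n with
    | zero => exact hk
    | succ n ih =>
      have h1 := hy (k + n)
      have h2 := hz (k + n)
      rw [← ih] at h2
      exact ts_fun hV (hnf (k + n)) h1 h2
  have hnek : ∀ k, y k ≠ z k := by
    intro k hk
    have h1 : k ≤ m * m' * k := by
      have : 1 ≤ m * m' := Nat.mul_pos hm hm'
      nlinarith
    obtain ⟨n, hn⟩ := Nat.exists_eq_add_of_le h1
    have h2 := hstay k hk n
    rw [← hn] at h2
    have h3 : y (m * m' * k) = y 0 := by
      have := w83_per hym (m' * k) 0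
      rw [zero_add, ← mul_assoc] at this
      exact this
    have h4 : z (m * m' * k) = z 0 := by
      have := w83_per hzm (m * k) 0
      rw [zero_add, ← mul_assoc, mul_comm m' m] at this
      exact this
    rw [h3, h4] at h2
    exact hne h2
  have hlt : ∀ k, V.valuation (y k - z k) < 1 ∧ V.valuation (y (k + 1) - z (k + 1)) < V.valuation (y k - z k) := by
    intro k
    induction k with
    | zero => exact ⟨hc, ts_contr hV h0 hc hne (hy 0) (hz 0)⟩
    | succ k ih =>
      have h1 := ih.2.trans ih.1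
      exact ⟨h1, ts_contr hV (hnf _) h1 (hnek _) (hy _) (hz _)⟩
  have hdec : ∀ k, V.valuation (y (k + 1) - z (k + 1)) < V.valuation (y 0 - z 0) := by
    intro k
    induction k with
    | zero => exact (hlt 0).2
    | succ k ih => exact (hlt (k + 1)).2.trans ih
  obtain ⟨n, hn⟩ : ∃ n, m * m' = n + 1 := ⟨m * m' - 1, by have := Nat.mul_pos hm hm'; omega⟩
  have h3 : y (n + 1) = y 0 := by
    have := w83_per hym m' 0
    rw [zero_add, hn] at this
    exact this
  have h4 : z (n + 1) = z 0 := by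
    have := w83_per hzm m 0
    rw [zero_add, mul_comm, hn] at this
    exact this
  have := hdec n
  rw [h3, h4] at this
  exact lt_irrefl _ this

/-- the closed walk of a matrix of determinant `p ^ m` and unit trace follows the canonical step, in one direction -/
theorem walk_data (hV : V.valuation (p : ℂ) < 1) {τ : ℍ} {E : M2} {m : ℕ} (hm : 0 < m) (hE : E.det = (p : ℤ) ^ m)
    (htE : ¬ (p : ℤ) ∣ E.trace) (hEf : gl E • τ = τ) (hNF : NF p V (jInv τ)) :
    ∃ (F : ℕ → M2) (t : ℕ → ℍ), (∀ k, (F k).det = p) ∧ (∀ k, F (k + m) = F k) ∧ wd F 0 m = E ∧ t 0 = τ ∧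
      (∀ k, gl (F k) • t k = t (k + 1)) ∧ (∀ k, t (k + m) = t k) ∧ (∀ a n, gl (wd F a n) • t a = t (a + n)) ∧
      (∀ k, NF p V (jInv (t k))) ∧
      ((∀ k, V.valuation (jInv (t (k + 1)) - jInv (t k) ^ p) < 1) ∨
        ∀ k, V.valuation (jInv (t (k + 1)) ^ p - jInv (t k)) < 1) := by
  have hp : p.Prime := Fact.out
  have hp0 : (0 : ℤ) < p := by exact_mod_cast hp.pos
  obtain ⟨F, h1, h2, h3⟩ := exists_periodic hp hm hE
  have hdet : ∀ k, 0 < (F k).det := fun k => by rw [h1]; exact hp0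
  have hdw : ∀ a n, 0 < (wd F a n).det := fun a n => by rw [det_wd h1]; positivity
  obtain ⟨t, ht⟩ : ∃ t : ℕ → ℍ, ∀ k, t k = gl (wd F 0 k) • τ := ⟨_, fun _ => rfl⟩
  have ht0 : t 0 = τ := by
    have : gl (1 : M2) = 1 := by
      apply Units.ext
      rw [gl_val (by simp)]
      simp
    simp [ht, wd, this]
  have hts : ∀ k, gl (F k) • t k = t (k + 1) := by
    intro k
    rw [ht, ht, ← gl_mul_smul (hdet k) (hdw 0 k), wd_succ, zero_add]
  have htm : ∀ k, t (k + m) = t k := by
    intro k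
    rw [ht, ht, add_comm, wd_add, gl_mul_smul (hdw _ _) (hdw _ _), h3, hEf]
    congr 2
    apply wd_congr
    intro i _
    rw [show 0 + m + i = 0 + i + m by ring, h2]
  have htw : ∀ a n, gl (wd F a n) • t a = t (a + n) := by
    intro a n
    rw [ht, ht, ← gl_mul_smul (hdw _ _) (hdw _ _), wd_add, zero_add]
  have hkron : ∀ k, jInv (t k) ∈ V → V.valuation (jInv (t (k + 1)) - jInv (t k) ^ p) < 1 ∨
      V.valuation (jInv (t (k + 1)) ^ p - jInv (t k)) < 1 := by
    intro k hk
    have := kron_cases hV hk (h1 k)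
    rw [hts] at this
    exact this
  have hnf : ∀ k, NF p V (jInv (t k)) := by
    intro k
    induction k with
    | zero => rw [ht0]; exact hNF
    | succ k ih =>
      rcases hkron k ih.1 with h | h
      · exact nf_pow hV ih h
      · refine nf_root hV ?_ ih h
        have hx : jInv (t (k + 1)) ^ p ∈ V := nb_mem ih.1 h
        rw [← V.valuation_le_one_iff, map_pow] at hx
        rw [← V.valuation_le_one_iff]
        exact (pow_le_one_iff hp.ne_zero).mp hx
  refine ⟨F, t, h1, h2, h3, ht0, hts, htm, htw, hnf, ?_⟩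
  by_contra hcon
  push Not at hcon
  obtain ⟨⟨a, ha⟩, ⟨b, hb⟩⟩ := hcon
  have haU : V.valuation (jInv (t (a + 1)) ^ p - jInv (t a)) < 1 := (hkron a (hnf a).1).resolve_left (not_lt.mpr ha)
  -- the first index after `a` where the step is not backwards
  have hex : ∃ n, ¬ V.valuation (jInv (t (a + n + 1)) ^ p - jInv (t (a + n))) < 1 := by
    have h4 : a ≤ b + m * a := by nlinarith
    obtain ⟨n, hn⟩ := Nat.exists_eq_add_of_le h4
    refine ⟨n, ?_⟩
    rw [← hn]
    have e1 : t (b + m * a) = t b := w83_per htm a b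
    have e2 : t (b + m * a + 1) = t (b + 1) := by
      have := w83_per htm a (b + 1)
      rw [← this]
      congr 1
      ring
    rw [e1, e2]
    exact not_lt.mpr hb
  classical
  obtain ⟨n, hn, hmin⟩ : ∃ n, (¬ V.valuation (jInv (t (a + n + 1)) ^ p - jInv (t (a + n))) < 1) ∧
      ∀ n' < n, V.valuation (jInv (t (a + n' + 1)) ^ p - jInv (t (a + n'))) < 1 :=
    ⟨Nat.find hex, Nat.find_spec hex, fun n' h => not_not.mp (Nat.find_min hex h)⟩
  obtain ⟨q, rfl⟩ : ∃ q, n = q + 1 := by
    cases n with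
    | zero => exact absurd haU hn
    | succ q => exact ⟨q, rfl⟩
  obtain ⟨l, hl⟩ : ∃ l, a + q = l := ⟨_, rfl⟩
  have hUl : V.valuation (jInv (t (l + 1)) ^ p - jInv (t l)) < 1 := by
    have := hmin q (by omega)
    rw [hl] at this
    exact this
  have hDl : V.valuation (jInv (t (l + 1 + 1)) - jInv (t (l + 1)) ^ p) < 1 := by
    rw [← add_assoc, hl] at hn
    exact (hkron (l + 1) (hnf (l + 1)).1).resolve_right hn
  have hadj : gl (F l).adjugate • t (l + 1) = t l := by
    rw [← hts l]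
    exact adj_smul hp (h1 l) _
  obtain ⟨γ, hγ⟩ := ts_unique hV (hnf (l + 1)) (M := (F l).adjugate) (M' := F (l + 1))
    (by rw [Matrix.det_adjugate, h1]; simp) (h1 _)
    (by rw [hadj, ← Valuation.map_neg, neg_sub]; exact hUl) (by rw [hts]; exact hDl)
  have hprod : F (l + 1) * F l = (p : ℤ) • (γ : SL(2, ℤ)).1 := by
    rw [hγ, mul_assoc, Matrix.adjugate_mul, h1, Matrix.mul_smul, mul_one]
  obtain ⟨n, rfl⟩ : ∃ n, m = n + 1 := ⟨m - 1, by omega⟩
  have hR1 : wd F (l + 1) (n + 1) = wd F (l + 2) n * F (l + 1) := wd_succ' _ _ _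
  have hR2 : wd F (l + 1) (n + 1) = F l * wd F (l + 1) n := by
    rw [wd_succ, show l + 1 + n = l + (n + 1) by ring, h2]
  have hRR : wd F (l + 1) (n + 1) * wd F (l + 1) (n + 1) =
      (p : ℤ) • (wd F (l + 2) n * (γ : SL(2, ℤ)).1 * wd F (l + 1) n) := by
    calc wd F (l + 1) (n + 1) * wd F (l + 1) (n + 1)
        = (wd F (l + 2) n * F (l + 1)) * (F l * wd F (l + 1) n) := by rw [← hR1, ← hR2]
      _ = wd F (l + 2) n * (F (l + 1) * F l) * wd F (l + 1) n := by simp only [mul_assoc]
      _ = _ := by rw [hprod, Matrix.mul_smul, Matrix.smul_mul]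
  have := dvd_trace_of_sq hp hm (det_wd h1 (l + 1) (n + 1)) hRR
  rw [trace_rotate hp h1 h2, h3] at this
  exact htE this

theorem walkF (hV : V.valuation (p : ℂ) < 1) {τ : ℍ} {E : M2} {m : ℕ} (hm : 0 < m) (hE : E.det = (p : ℤ) ^ m)
    (htE : ¬ (p : ℤ) ∣ E.trace) (hEf : gl E • τ = τ) (hNF : NF p V (jInv τ)) :
    ∃ y : ℕ → ℂ, y 0 = jInv τ ∧ (∀ k, TS p V (y k) (y (k + 1))) ∧ ∀ k, y (k + m) = y k := by
  have hp : p.Prime := Fact.out
  obtain ⟨F, t, h1, h2, h3, ht0, hts, htm, htw, hnf, h | h⟩ := walk_data hV hm hE htE hEf hNF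
  · exact ⟨fun k => jInv (t k), by simp only [ht0], fun k => ⟨t k, F k, h1 k, rfl, by rw [hts], h k⟩,
      fun k => by simp only [htm]⟩
  · refine ⟨fun k => jInv (t ((m - 1) * k)), by simp only [mul_zero, ht0], fun k => ?_, fun k => ?_⟩
    · obtain ⟨l, hl⟩ : ∃ l, (m - 1) * k + (m - 1) = l := ⟨_, rfl⟩
      have e1 : t (l + 1) = t ((m - 1) * k) := by
        rw [← htm ((m - 1) * k), ← hl]
        congr 1
        omega
      have hadj : gl (F l).adjugate • t (l + 1) = t l := by
        rw [← hts l]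
        exact adj_smul hp (h1 l) _
      have e2 : (m - 1) * (k + 1) = l := by rw [← hl]; ring
      refine ⟨t (l + 1), (F l).adjugate, by rw [Matrix.det_adjugate, h1]; simp, by simp only [e1], ?_, ?_⟩
      · simp only [e2]
        rw [hadj]
      · simp only [e2, ← e1]
        rw [← Valuation.map_neg, neg_sub]
        exact h l
    · have e : (m - 1) * (k + m) = (m - 1) * k + m * (m - 1) := by ring
      simp only [e]
      rw [w83_per htm]

omit [Fact p.Prime] in
lemma w83_pow_close {x z : ℂ} (hz : z ∈ V) (h : V.valuation (x - z) < 1) : V.valuation (x ^ p - z ^ p) < 1 := by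
  have hx : x ∈ V := nb_mem hz h
  have e : (⟨x ^ p, pow_mem hx _⟩ : V) = ⟨x, hx⟩ ^ p := rfl
  have e' : (⟨z ^ p, pow_mem hz _⟩ : V) = ⟨z, hz⟩ ^ p := rfl
  rw [res_iff (pow_mem hx _) (pow_mem hz _), e, e', map_pow, map_pow, (res_iff hx hz).mp h]

theorem olf_step (hV : V.valuation (p : ℂ) < 1) {s : ℕ} (hs : 0 < s) {z : ℂ} {t : ℤ} {τ : ℍ} {E : M2}
    (h : OLF p V s z t τ E) (hz : NF p V z) : ∃ τ' E', OLF p V s (z ^ p) t τ' E' := by
  have hp : p.Prime := Fact.out
  have hc := w83_pow_close (p := p) hz.1 h.close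
  obtain ⟨F, u, h1, h2, h3, hu0, hus, hum, huw, hnf, hD | hU⟩ := walk_data hV hs h.det (by rw [h.tr]; exact h.ndvd)
    h.fix (nf_close hV hz h.close)
  · refine ⟨u 1, wd F 1 s, det_wd h1 _ _, ?_, h.ndvd, ?_, ?_⟩
    · rw [trace_rotate hp h1 h2, h3, h.tr]
    · rw [huw, hum]
    · have h4 := hD 0
      rw [hu0] at h4
      have e : jInv (u 1) - z ^ p = (jInv (u (0 + 1)) - jInv τ ^ p) + (jInv τ ^ p - z ^ p) := by
        rw [zero_add]; ring
      rw [e]
      exact V.valuation.map_add_lt h4 hc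
  · refine ⟨u (s - 1), wd F (s - 1) s, det_wd h1 _ _, ?_, h.ndvd, ?_, ?_⟩
    · rw [trace_rotate hp h1 h2, h3, h.tr]
    · rw [huw, hum]
    · have h4 := hU (s - 1)
      have e0 : u (s - 1 + 1) = τ := by
        rw [Nat.sub_add_cancel hs, ← hu0, ← hum 0, zero_add]
      rw [e0] at h4
      have e : jInv (u (s - 1)) - z ^ p = -(jInv τ ^ p - jInv (u (s - 1))) + (jInv τ ^ p - z ^ p) := by ring
      rw [e]
      refine V.valuation.map_add_lt ?_ hc
      rw [Valuation.map_neg]
      exact h4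

end Pool.Agent.ZPF
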