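import Mathlib
import Pool.Agent.ZPF.Walk
import Pool.Agent.ZPOrd.IsoDisc

/-!
Isogenous points congruent to two canonical lifts over a finite field: the discriminants agree up to squares.
-/

open UpperHalfPlane hiding I
open MatrixGroups

namespace Pool.Agent.ZPF

open Pool.Agent.Lib.ModularZP Pool.Agent.ZPOrd

theorem exists_conjF {p N s : ℕ} (hp : p.Prime) (hs : 0 < s) (hN : 0 < N) (hpN : ¬ p ∣ N) {B C : M2}
    (hB : B.det = (p : ℤ) ^ s) (htr : ¬ (p : ℤ) ∣ B.trace) (hC : C.det = N) :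
    ∃ (E : M2) (m : ℕ), 0 < m ∧ E * C = C * B ^ m ∧ E.det = (p : ℤ) ^ (s * m) ∧ ¬ (p : ℤ) ∣ E.trace := by
  have hB' : B.det = ((p ^ s : ℕ) : ℤ) := by rw [hB]; push_cast; rfl
  obtain ⟨m, hm, B', hBm⟩ := exists_pow_eq_one hN
    (Nat.Coprime.pow_left s ((Nat.Prime.coprime_iff_not_dvd hp).mpr hpN)) hB'
  have hadj : C.adjugate * C = (N : ℤ) • (1 : M2) := by rw [Matrix.adjugate_mul, hC]
  have hEC : (1 + C * B' * C.adjugate) * C = C * B ^ m := by
    rw [add_mul, one_mul, Matrix.mul_assoc, hadj, hBm, mul_add, mul_one, Matrix.mul_smul, Matrix.mul_smul,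
      Matrix.mul_one]
  have hN0 : (N : ℤ) ≠ 0 := by exact_mod_cast hN.ne'
  refine ⟨1 + C * B' * C.adjugate, m, hm, hEC, ?_, ?_⟩
  · have h1 := congrArg Matrix.det hEC
    rw [Matrix.det_mul, Matrix.det_mul, Matrix.det_pow, hC, hB, mul_comm, ← pow_mul] at h1
    exact mul_left_cancel₀ hN0 h1
  · have h1 : (1 + C * B' * C.adjugate).trace = (B ^ m).trace := by
      rw [hBm, Matrix.trace_add, Matrix.trace_add, Matrix.trace_mul_comm, ← Matrix.mul_assoc, hadj,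
        Matrix.smul_mul, Matrix.one_mul]
    rw [h1]
    intro h2
    have h3 : (p : ℤ) ∣ (B ^ m).trace - B.trace ^ m :=
      dvd_trans (by push_cast; exact dvd_pow_self _ hs.ne') (trace_pow_mod hB' m hm)
    have h4 : (p : ℤ) ∣ B.trace ^ m := by
      have := dvd_sub h2 h3
      rwa [sub_sub_cancel] at this
    exact htr (Int.Prime.dvd_pow' hp h4)

/-- a matrix of determinant `p ^ s` and trace prime to `p` with a fixed point is not upper triangular -/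
lemma i83_lower_ne {p : ℕ} (hp : p.Prime) {s : ℕ} (hs : 0 < s) {B : M2} (hB : B.det = (p : ℤ) ^ s)
    (htr : ¬ (p : ℤ) ∣ B.trace) {τ : ℍ} (hf : gl B • τ = τ) : B 1 0 ≠ 0 := by
  intro h0
  have hp0 : (0 : ℤ) < p := by exact_mod_cast hp.pos
  have hpos : 0 < B.det := by rw [hB]; positivity
  obtain ⟨h1, -⟩ := fix_im hpos hf
  rw [h0] at h1
  have h2 : B 0 0 = B 1 1 := by
    have h3 : (B 0 0 : ℝ) - (B 1 1 : ℝ) = 0 := by rw [← h1]; simp
    have h4 : (B 0 0 : ℝ) = B 1 1 := sub_eq_zero.mp h3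
    exact_mod_cast h4
  rw [Matrix.det_fin_two, h0, mul_zero, sub_zero, h2] at hB
  rw [Matrix.trace_fin_two, h2] at htr
  have hpp : Prime (p : ℤ) := Nat.prime_iff_prime_int.mp hp
  have h5 : (p : ℤ) ∣ B 1 1 * B 1 1 := by
    rw [hB]
    exact dvd_pow_self _ hs.ne'
  have h6 : (p : ℤ) ∣ B 1 1 := (hpp.dvd_or_dvd h5).elim id id
  exact htr (dvd_add h6 h6)

variable {p : ℕ} [Fact p.Prime] {V : ValuationSubring ℂ}

lemma i83_nf_pow (hV : V.valuation (p : ℂ) < 1) {z : ℂ} (hz : NF p V z) (k : ℕ) : NF p V (z ^ (p ^ k)) := by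
  induction k with
  | zero => simpa using hz
  | succ k ih =>
    refine nf_pow hV ih ?_
    rw [pow_succ p k, pow_mul, sub_self, map_zero]
    exact zero_lt_one

lemma i83_olf_pow (hV : V.valuation (p : ℂ) < 1) {s : ℕ} (hs : 0 < s) {z : ℂ} {t : ℤ} {τ : ℍ} {E : M2}
    (h : OLF p V s z t τ E) (hz : NF p V z) (k : ℕ) : ∃ τ' E', OLF p V s (z ^ (p ^ k)) t τ' E' := by
  induction k with
  | zero => exact ⟨τ, E, by simpa using h⟩
  | succ k ih =>
    obtain ⟨τ', E', h'⟩ := ih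
    have := olf_step hV hs h' (i83_nf_pow hV hz k)
    rwa [← pow_mul, ← pow_succ] at this

lemma i83_frob_close (hV : V.valuation (p : ℂ) < 1) {x y : ℂ} (hx : x ∈ V) (hy : y ∈ V)
    (h : V.valuation (x ^ p - y ^ p) < 1) : V.valuation (x - y) < 1 := by
  have hp : p.Prime := Fact.out
  have : CharP (IsLocalRing.ResidueField V) p := Pool.Agent.ZP46.charP_residue hp hV
  rw [res_iff (pow_mem hx _) (pow_mem hy _)] at h
  have e : (⟨x ^ p, pow_mem hx _⟩ : V) = ⟨x, hx⟩ ^ p := rfl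
  have e' : (⟨y ^ p, pow_mem hy _⟩ : V) = ⟨y, hy⟩ ^ p := rfl
  rw [e, e', map_pow, map_pow] at h
  rw [res_iff hx hy]
  exact frobenius_inj (IsLocalRing.ResidueField V) p h

/-- a residue over the field with `p ^ s` elements, its canonical lift -/
structure DF (p : ℕ) (V : ValuationSubring ℂ) (s : ℕ) (z : ℂ) (t : ℤ) : Prop where
  nf : NF p V z
  fr : V.valuation (z ^ (p ^ s) - z) < 1
  ex : ∃ τ E, OLF p V s z t τ E

lemma DF.step (hV : V.valuation (p : ℂ) < 1) {s : ℕ} (hs : 0 < s) {z : ℂ} {t : ℤ} (h : DF p V s z t) :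
    DF p V s (z ^ p) t := by
  obtain ⟨τ, E, hE⟩ := h.ex
  refine ⟨nf_pow hV h.nf (by rw [sub_self, map_zero]; exact zero_lt_one), ?_, olf_step hV hs hE h.nf⟩
  have e : (z ^ p) ^ (p ^ s) = (z ^ (p ^ s)) ^ p := by rw [← pow_mul, ← pow_mul, mul_comm]
  rw [e]
  exact w83_pow_close h.nf.1 h.fr

lemma DF.steps (hV : V.valuation (p : ℂ) < 1) {s : ℕ} (hs : 0 < s) {z : ℂ} {t : ℤ} (h : DF p V s z t) (k : ℕ) :
    DF p V s (z ^ (p ^ k)) t := by
  induction k with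
  | zero => simpa using h
  | succ k ih =>
    have := ih.step hV hs
    rwa [← pow_mul, ← pow_succ] at this

/-- removal of the `p`-part of an isogeny -/
lemma i83_prime_to (hV : V.valuation (p : ℂ) < 1) {s : ℕ} (hs : 0 < s) {t : ℤ} {N : ℕ} (hN : 0 < N) (r : ℕ) :
    ∀ (z : ℂ) (τ : ℍ) (M : M2), DF p V s z t → M.det = (N : ℤ) * p ^ r → V.valuation (jInv τ - z) < 1 →
      ∃ (z' : ℂ) (τ' : ℍ) (M' : M2), DF p V s z' t ∧ M'.det = N ∧ V.valuation (jInv τ' - z') < 1 ∧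
        gl M' • τ' = gl M • τ := by
  have hp : p.Prime := Fact.out
  have hp0 : (0 : ℤ) < p := by exact_mod_cast hp.pos
  have hN0 : (0 : ℤ) < N := by exact_mod_cast hN
  induction r with
  | zero =>
    intro z τ M hD hM hc
    exact ⟨z, τ, M, hD, by simpa using hM, hc, rfl⟩
  | succ r ih =>
    intro z τ M hD hM hc
    obtain ⟨E, F, hEF, hF, hE⟩ := dz_factor hp M ⟨(N : ℤ) * p ^ r, by rw [hM]; ring⟩
    have hEdet : E.det = (N : ℤ) * p ^ r := by
      have h1 : E.det * p = ((N : ℤ) * p ^ r) * p := by rw [hE, hM]; ring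
      exact mul_right_cancel₀ hp0.ne' h1
    have hjV : jInv τ ∈ V := nb_mem hD.nf.1 hc
    obtain ⟨w, hDw, hw⟩ : ∃ w, DF p V s w t ∧ V.valuation (jInv (gl F • τ) - w) < 1 := by
      rcases kron_cases hV hjV hF with h | h
      · exact ⟨z ^ p, hD.step hV hs, dz_trans h (w83_pow_close hD.nf.1 hc)⟩
      · refine ⟨z ^ (p ^ (s - 1)), hD.steps hV hs _, ?_⟩
        refine i83_frob_close hV (jInv_mem (by rw [hF]; exact hp0) hjV) (pow_mem hD.nf.1 _) ?_
        have e : (z ^ p ^ (s - 1)) ^ p = z ^ (p ^ s) := by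
          rw [← pow_mul, ← pow_succ, Nat.sub_add_cancel hs]
        rw [e]
        refine dz_trans h (dz_trans hc ?_)
        rw [← Valuation.map_neg, neg_sub]
        exact hD.fr
    obtain ⟨z', τ', M', h1, h2, h3, h4⟩ := ih w (gl F • τ) E hDw hEdet hw
    refine ⟨z', τ', M', h1, h2, h3, ?_⟩
    rw [h4, hEF, gl_mul_smul (by rw [hEdet]; positivity) (by rw [hF]; exact hp0)]

/-- the point `C τ₀` has the same `j`-invariant as a canonical lift congruent to it -/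
lemma i83_conj_walk (hV : V.valuation (p : ℂ) < 1) {s : ℕ} (hs : 0 < s) {z z' : ℂ} {t t' : ℤ} {τ₀ τ₁ : ℍ}
    {E₀ E₁ : M2} (h0 : OLF p V s z t τ₀ E₀) (h1 : OLF p V s z' t' τ₁ E₁) (hz' : NF p V z') {N : ℕ}
    (hN : 0 < N) (hpN : ¬ p ∣ N) {C : M2} (hC : C.det = N)
    (hc : V.valuation (jInv (gl C • τ₀) - z') < 1) :
    ∃ γ : SL(2, ℤ), gl (γ.1 * C) • τ₀ = τ₁ := by
  have hp : p.Prime := Fact.out
  have hp0 : (0 : ℤ) < p := by exact_mod_cast hp.pos
  have hE0 : 0 < E₀.det := by rw [h0.det]; positivity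
  have hCp : 0 < C.det := by rw [hC]; exact_mod_cast hN
  obtain ⟨E, m, hm, hEC, hE, htE⟩ := exists_conjF hp hs hN hpN h0.det (by rw [h0.tr]; exact h0.ndvd) hC
  have hEp : 0 < E.det := by rw [hE]; positivity
  have hEf : gl E • (gl C • τ₀) = gl C • τ₀ := by
    rw [← gl_mul_smul hEp hCp, hEC, gl_mul_smul hCp (by rw [Matrix.det_pow]; positivity),
      dz_pow_fix hE0 h0.fix]
  have hsm : 0 < s * m := Nat.mul_pos hs hm
  obtain ⟨y, hy0, hy1, hy2⟩ := walkF hV hsm hE htE hEf (nf_close hV hz' hc)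
  obtain ⟨x, hx0, hx1, hx2⟩ := walkF hV hs h1.det (by rw [h1.tr]; exact h1.ndvd) h1.fix (nf_close hV hz' h1.close)
  have hj : jInv (gl C • τ₀) = jInv τ₁ := by
    rw [← hy0, ← hx0]
    refine per_unique hV hsm hs hy1 hx1 hy2 hx2 ?_ ?_
    · rw [hy0]
      exact nf_close hV hz' hc
    · rw [hy0, hx0]
      refine dz_trans hc ?_
      rw [← Valuation.map_neg, neg_sub]
      exact h1.close
  obtain ⟨γ, hγ⟩ := jInv_inj hj
  refine ⟨γ, ?_⟩
  rw [gl_mul_smul (by rw [γ.2]; exact one_pos) hCp, gl_sl_smul]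
  exact hγ

theorem iso_discF {p : ℕ} [Fact p.Prime] {V : ValuationSubring ℂ} (hV : V.valuation (p : ℂ) < 1) {s : ℕ} (hs : 0 < s)
    {z z' : ℂ} {t t' : ℤ} {τ₀ τ₁ τ : ℍ} {E₀ E₁ M : M2} (hz : NF p V z) (hz' : NF p V z')
    (hF : V.valuation (z ^ (p ^ s) - z) < 1) (h0 : OLF p V s z t τ₀ E₀)
    (h1 : OLF p V s z' t' τ₁ E₁) (hM : 0 < M.det) (hc : V.valuation (jInv τ - z) < 1)
    (hc' : V.valuation (jInv (gl M • τ) - z') < 1) :
    IsSquare ((t ^ 2 - 4 * (p : ℤ) ^ s) * (t' ^ 2 - 4 * (p : ℤ) ^ s)) := by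
  have hp : p.Prime := Fact.out
  have hp0 : (0 : ℤ) < p := by exact_mod_cast hp.pos
  obtain ⟨r, N, hpN, hMN⟩ := Nat.exists_eq_pow_mul_and_not_dvd (n := M.det.toNat)
    (by have := Int.toNat_of_nonneg hM.le; omega) p hp.ne_one
  have hNpos : 0 < N := by
    rcases Nat.eq_zero_or_pos N with h | h
    · rw [h] at hpN
      exact absurd (dvd_zero p) hpN
    · exact h
  have hMdet : M.det = (N : ℤ) * p ^ r := by
    rw [← Int.toNat_of_nonneg hM.le, hMN]
    push_cast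
    ring
  obtain ⟨w, τ', M', hD, hM', hcw, hMM⟩ := i83_prime_to hV hs hNpos r z τ M ⟨hz, hF, τ₀, E₀, h0⟩ hMdet hc
  rw [← hMM] at hc'
  obtain ⟨τ₂, E₂, h2⟩ := hD.ex
  have hB0 : 0 < E₂.det := by rw [h2.det]; positivity
  have hB1 : 0 < E₁.det := by rw [h1.det]; positivity
  have hjV : jInv τ' ∈ V := nb_mem hD.nf.1 hcw
  obtain ⟨C, hC, hCc⟩ := transfer (τ₀ := τ₂) hNpos hjV (dz_trans hcw (by
    rw [← Valuation.map_neg, neg_sub]
    exact h2.close)) hM'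
  obtain ⟨γ, hγ⟩ := i83_conj_walk hV hs h2 h1 hz' hNpos hpN hC (dz_trans hCc hc')
  set A : M2 := γ.1 * C with hA
  have hAdet : A.det = N := by rw [hA, Matrix.det_mul, γ.2, one_mul, hC]
  have hN0 : (0 : ℤ) < N := by exact_mod_cast hNpos
  have hadj : A.adjugate.det = N := by
    rw [Matrix.det_adjugate, hAdet]
    simp
  have hback : gl A.adjugate • τ₁ = τ₂ := by
    rw [← hγ, ← gl_mul_smul (by rw [hadj]; exact hN0) (by rw [hAdet]; exact hN0), Matrix.adjugate_mul, hAdet,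
      dz_scalar hN0]
  set W : M2 := A.adjugate * (E₁ * A) with hW
  have hWdet : W.det = N * (p ^ s * N) := by
    rw [hW, Matrix.det_mul, Matrix.det_mul, hadj, h1.det, hAdet]
  have hWf : gl W • τ₂ = τ₂ := by
    rw [hW, gl_mul_smul (by rw [hadj]; exact hN0) (by rw [Matrix.det_mul, h1.det, hAdet]; positivity),
      gl_mul_smul hB1 (by rw [hAdet]; exact hN0), hγ, h1.fix, hback]
  have hWtr : W.trace = N * t' := by
    rw [hW, Matrix.trace_mul_comm, Matrix.mul_assoc, Matrix.mul_adjugate, hAdet, Matrix.mul_smul, Matrix.mul_one,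
      Matrix.trace_smul, smul_eq_mul, h1.tr]
  obtain ⟨x, y, hxy⟩ := fix_comm (by rw [hWdet]; positivity) hB0 hWf h2.fix
    (i83_lower_ne hp hs h2.det (by rw [h2.tr]; exact h2.ndvd) h2.fix)
  have e00 := congrFun (congrFun hxy 0) 0
  have e01 := congrFun (congrFun hxy 0) 1
  have e10 := congrFun (congrFun hxy 1) 0
  have e11 := congrFun (congrFun hxy 1) 1
  simp only [Matrix.add_apply, Matrix.smul_apply, Matrix.map_apply, Matrix.one_apply_eq, smul_eq_mul, mul_one]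
    at e00 e01 e10 e11
  rw [Matrix.one_apply_ne (by decide : (0 : Fin 2) ≠ 1), mul_zero, zero_add] at e01
  rw [Matrix.one_apply_ne (by decide : (1 : Fin 2) ≠ 0), mul_zero, zero_add] at e10
  have hdisc : ∀ X : M2, ((X.trace ^ 2 - 4 * X.det : ℤ) : ℚ) =
      ((X 0 0 : ℚ) - X 1 1) ^ 2 + 4 * X 0 1 * X 1 0 := by
    intro X
    rw [Matrix.trace_fin_two, Matrix.det_fin_two]
    push_cast
    ring
  have hWd := hdisc W
  have hBd := hdisc E₂
  rw [h2.det, h2.tr] at hBd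
  rw [e00, e01, e10, e11] at hWd
  have hWd2 : ((W.trace ^ 2 - 4 * W.det : ℤ) : ℚ) = (N : ℚ) ^ 2 * ((t' ^ 2 - 4 * (p : ℤ) ^ s : ℤ) : ℚ) := by
    rw [hWtr, hWdet]
    push_cast
    ring
  have hkey : (N : ℚ) ^ 2 * ((t' ^ 2 - 4 * (p : ℤ) ^ s : ℤ) : ℚ) =
      y ^ 2 * ((t ^ 2 - 4 * (p : ℤ) ^ s : ℤ) : ℚ) := by
    rw [← hWd2, hWd, hBd]
    ring
  have hNq : (N : ℚ) ≠ 0 := by exact_mod_cast hNpos.ne'
  rw [← Rat.isSquare_intCast_iff]
  refine ⟨y * ((t ^ 2 - 4 * (p : ℤ) ^ s : ℤ) : ℚ) / N, ?_⟩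
  rw [Int.cast_mul]
  field_simp
  linear_combination ((t ^ 2 - 4 * (p : ℤ) ^ s : ℤ) : ℚ) * hkey

end Pool.Agent.ZPF
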