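import Mathlib
import Pool.Agent.ZPF.Walk
import Pool.Agent.ZPOrd.Lift
import Pool.Agent.ZPOrd.Conj

/-!
Existence of canonical lifts of residues which are not in the field with `p ^ 2` elements: the orbit of the
Teichmüller point under the canonical step converges to a periodic orbit.
-/

open UpperHalfPlane hiding I
open MatrixGroups

namespace Pool.Agent.ZPF

open Pool.Agent.Lib.ModularZP Pool.Agent.ZPOrd

section

variable {p : ℕ} [Fact p.Prime] {V : ValuationSubring ℂ}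

/-- a product of three factors which vanishes modulo `p`, the middle one being singular -/
lemma l23_mid {A B C : M2} (hB : (p : ℤ) ∣ B.det) (h : ∀ i j, (p : ℤ) ∣ (A * B * C) i j) :
    (∀ i j, (p : ℤ) ∣ (A * B) i j) ∨ ∀ i j, (p : ℤ) ∣ (B * C) i j := by
  have hp : Prime (p : ℤ) := Nat.prime_iff_prime_int.mp Fact.out
  by_contra hcon
  push Not at hcon
  obtain ⟨⟨i, j, h1⟩, ⟨k, l, h2⟩⟩ := hcon
  have key : ∃ w : ℤ, (A * B) i j * (B * C) k l = (A * B * C) i l * B k j + B.det * w := by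
    rw [Matrix.det_fin_two]
    fin_cases j <;> fin_cases k
    · refine ⟨-(A i 1 * C 1 l), ?_⟩
      simp [Matrix.mul_apply, Fin.sum_univ_two]
      ring
    · refine ⟨A i 0 * C 1 l, ?_⟩
      simp [Matrix.mul_apply, Fin.sum_univ_two]
      ring
    · refine ⟨A i 1 * C 0 l, ?_⟩
      simp [Matrix.mul_apply, Fin.sum_univ_two]
      ring
    · refine ⟨-(A i 0 * C 0 l), ?_⟩
      simp [Matrix.mul_apply, Fin.sum_univ_two]
      ring
  obtain ⟨w, hw⟩ := key
  have h3 : (p : ℤ) ∣ (A * B) i j * (B * C) k l := by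
    rw [hw]
    exact dvd_add ((h i l).mul_right _) (hB.mul_right _)
  rcases hp.dvd_or_dvd h3 with h4 | h4
  · exact h1 h4
  · exact h2 h4

/-- a word without backtracking is not divisible by `p` -/
lemma l23_word {F : ℕ → M2} (h1 : ∀ k, (F k).det = p) (h2 : ∀ k, ¬ ∀ i j, (p : ℤ) ∣ (F (k + 1) * F k) i j) :
    ∀ n, ¬ ∀ i j, (p : ℤ) ∣ (wd F 0 (n + 1)) i j := by
  have hp : p.Prime := Fact.out
  intro n
  induction n with
  | zero =>
    intro h
    have e : wd F 0 1 = F 0 := by simp [wd]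
    rw [zero_add, e] at h
    have h3 := h1 0
    rw [Matrix.det_fin_two] at h3
    obtain ⟨a, ha⟩ := h 0 0
    obtain ⟨b, hb⟩ := h 0 1
    obtain ⟨c, hc⟩ := h 1 0
    obtain ⟨d, hd⟩ := h 1 1
    rw [ha, hb, hc, hd] at h3
    have hp0 : (p : ℤ) ≠ 0 := by exact_mod_cast hp.ne_zero
    have h4 : (p : ℤ) * (a * d - b * c) = 1 := by
      apply mul_left_cancel₀ hp0
      linear_combination h3
    have h5 : (p : ℤ) ∣ 1 := ⟨_, h4.symm⟩
    exact (Nat.prime_iff_prime_int.mp hp).not_dvd_one h5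
  | succ n ih =>
    intro h
    have e1 : wd F 0 (n + 1) = F n * wd F 0 n := by rw [wd_succ, zero_add]
    have e2 : wd F 0 (n + 1 + 1) = F (n + 1) * F n * wd F 0 n := by
      rw [wd_succ, e1, zero_add, mul_assoc]
    rw [e2] at h
    rcases l23_mid (by rw [h1]) h with h3 | h3
    · exact h2 n h3
    · rw [← e1] at h3
      exact ih h3

lemma l23_scal (γ : SL(2, ℤ)) (t : ℍ) : gl ((p : ℤ) • γ.1) • t = γ • t := by
  have hp : p.Prime := Fact.out
  have hpc : (p : ℂ) ≠ 0 := by exact_mod_cast hp.ne_zero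
  rw [← gl_sl_smul]
  apply UpperHalfPlane.ext
  have hp0 : (0 : ℤ) < p := by exact_mod_cast hp.pos
  have hs : 0 < ((p : ℤ) • γ.1).det := by
    rw [Matrix.det_smul, γ.2]
    simp
    positivity
  rw [gl_smul_coe hs, gl_smul_coe (by rw [γ.2]; exact one_pos)]
  simp only [Matrix.smul_apply, smul_eq_mul, Int.cast_mul, Int.cast_natCast]
  rw [mul_assoc, ← mul_add, mul_assoc, ← mul_add, mul_div_mul_left _ _ hpc]

/-- backtracking does not move -/
lemma l23_back {X : M2} (hX : X.det = (p : ℤ) * p) (h : ∀ i j, (p : ℤ) ∣ X i j) (t : ℍ) :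
    jInv (gl X • t) = jInv t := by
  have hp : p.Prime := Fact.out
  have hp0 : (p : ℤ) ≠ 0 := by exact_mod_cast hp.ne_zero
  choose Y hY using h
  have h1 : X = (p : ℤ) • (Matrix.of Y : M2) := by
    ext i j
    rw [Matrix.smul_apply, smul_eq_mul, Matrix.of_apply, ← hY]
  have h2 : (Matrix.of Y : M2).det = 1 := by
    rw [h1, Matrix.det_smul] at hX
    simp only [Fintype.card_fin] at hX
    have h3 : (p : ℤ) * p * (Matrix.of Y : M2).det = (p : ℤ) * p * 1 := by
      linear_combination hX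
    exact mul_left_cancel₀ (mul_ne_zero hp0 hp0) h3
  have h3 := l23_scal (p := p) ⟨Matrix.of Y, h2⟩ t
  rw [h1]
  rw [h3, jInv_smul]

lemma l23_mod (a : ℕ) {s : ℕ} (hs : 0 < s) : (a % s = s - 1 ∧ (a + 1) % s = 0) ∨ (a % s ≠ s - 1 ∧ (a + 1) % s = a % s + 1) := by
  have h1 := Nat.mod_lt a hs
  by_cases h2 : s = 1
  · subst h2
    left
    omega
  · by_cases h : a % s = s - 1
    · left
      refine ⟨h, ?_⟩
      rw [Nat.add_mod, h, Nat.mod_eq_of_lt (by omega : 1 < s), Nat.sub_add_cancel hs, Nat.mod_self]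
    · right
      refine ⟨h, ?_⟩
      rw [Nat.add_mod, Nat.mod_eq_of_lt (by omega : 1 < s), Nat.mod_eq_of_lt (by omega)]

/-- a periodic orbit of the canonical step is a canonical lift -/
lemma l23_close (hV : V.valuation (p : ℂ) < 1) {s : ℕ} (hs : 0 < s) {t : ℕ → ℍ} {M : ℕ → M2}
    (hM : ∀ k, (M k).det = p) (ht : ∀ k, gl (M k) • t k = t (k + 1))
    (hD : ∀ k, V.valuation (jInv (t (k + 1)) - jInv (t k) ^ p) < 1) (h0 : NF p V (jInv (t 0)))
    (heq : jInv (t s) = jInv (t 0)) {z : ℂ} (hz : V.valuation (jInv (t 0) - z) < 1) :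
    ∃ t' τ E, OLF p V s z t' τ E := by
  have hp : p.Prime := Fact.out
  have hp0 : (0 : ℤ) < p := by exact_mod_cast hp.pos
  obtain ⟨γ, hγ⟩ := jInv_inj heq
  obtain ⟨F, hF⟩ : ∃ F : ℕ → M2, ∀ k, F k = if k % s = s - 1 then γ.1 * M (k % s) else M (k % s) := ⟨_, fun _ => rfl⟩
  obtain ⟨u, hu⟩ : ∃ u : ℕ → ℍ, ∀ k, u k = t (k % s) := ⟨_, fun _ => rfl⟩
  have h1 : ∀ k, (F k).det = p := by
    intro k
    rw [hF]
    split_ifs
    · rw [Matrix.det_mul, γ.2, one_mul, hM]
    · exact hM _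
  have hdet : ∀ k, 0 < (F k).det := fun k => by rw [h1]; exact hp0
  have hdw : ∀ a n, 0 < (wd F a n).det := fun a n => by rw [det_wd h1]; positivity
  have h2 : ∀ k, F (k + s) = F k := by
    intro k
    rw [hF, hF, Nat.add_mod_right]
  have hus : ∀ k, u (k + s) = u k := by
    intro k
    rw [hu, hu, Nat.add_mod_right]
  have hu0 : u 0 = t 0 := by rw [hu, Nat.zero_mod]
  have hstep : ∀ k, gl (F k) • u k = u (k + 1) := by
    intro k
    rw [hF, hu, hu]
    rcases l23_mod k hs with ⟨a1, a2⟩ | ⟨a1, a2⟩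
    · rw [if_pos a1, a2, a1, gl_mul_smul (by rw [γ.2]; exact one_pos) (by rw [hM]; exact hp0), ht,
        Nat.sub_add_cancel hs, gl_sl_smul, hγ]
    · rw [if_neg a1, a2, ht]
  have hDu : ∀ k, V.valuation (jInv (u (k + 1)) - jInv (u k) ^ p) < 1 := by
    intro k
    rw [hu, hu]
    rcases l23_mod k hs with ⟨a1, a2⟩ | ⟨a1, a2⟩
    · rw [a2, a1, ← heq]
      have := hD (s - 1)
      rwa [Nat.sub_add_cancel hs] at this
    · rw [a2]
      exact hD _
  have hwu : ∀ n, gl (wd F 0 n) • u 0 = u n := by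
    intro n
    induction n with
    | zero =>
      have : gl (1 : M2) = 1 := by
        apply Units.ext
        rw [gl_val (by simp)]
        simp
      simp [wd, this]
    | succ n ih => rw [wd_succ, gl_mul_smul (hdet _) (hdw _ _), ih, zero_add, hstep]
  have hnf : ∀ k, NF p V (jInv (u k)) := by
    intro k
    induction k with
    | zero => rw [hu0]; exact h0
    | succ k ih => exact nf_pow hV ih (hDu k)
  refine ⟨(wd F 0 s).trace, u 0, wd F 0 s, det_wd h1 _ _, rfl, ?_, ?_, by rw [hu0]; exact hz⟩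
  · intro htr
    have hEE : wd F 0 (s + s) = wd F 0 s * wd F 0 s := by
      rw [wd_add]
      congr 1
      apply wd_congr
      intro k _
      rw [show 0 + s + k = 0 + k + s by ring, h2]
    have hdE : (p : ℤ) ∣ (wd F 0 s).det := by
      rw [det_wd h1]
      exact dvd_pow_self _ hs.ne'
    have hdiv : ∀ i j, (p : ℤ) ∣ (wd F 0 (s + s)) i j := by
      have hCH : ∀ i j, (wd F 0 s * wd F 0 s) i j = (wd F 0 s).trace * (wd F 0 s) i j - (wd F 0 s).det * (1 : M2) i j := by
        intro i j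
        rw [Matrix.trace_fin_two, Matrix.det_fin_two]
        fin_cases i <;> fin_cases j <;> simp [Matrix.mul_apply, Fin.sum_univ_two] <;> ring
      intro i j
      rw [hEE, hCH]
      exact dvd_sub (htr.mul_right _) (hdE.mul_right _)
    obtain ⟨n, hn⟩ : ∃ n, s + s = n + 1 := ⟨s + s - 1, by omega⟩
    rw [hn] at hdiv
    have hex : ∃ k, ∀ i j, (p : ℤ) ∣ (F (k + 1) * F k) i j := by
      by_contra hcon
      push Not at hcon
      exact l23_word h1 (fun k hk => by obtain ⟨i, j, hij⟩ := hcon k; exact hij (hk i j)) n hdiv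
    obtain ⟨k, hk⟩ := hex
    have h3 := l23_back (X := F (k + 1) * F k) (by rw [Matrix.det_mul, h1, h1]) hk (u k)
    rw [gl_mul_smul (hdet _) (hdet _), hstep, hstep] at h3
    have h4 := hDu (k + 1)
    rw [h3] at h4
    have h5 : V.valuation (jInv (u (k + 1)) ^ p - (jInv (u k) ^ p) ^ p) < 1 :=
      (nb_pow_sub (hnf (k + 1)).1 (pow_mem (hnf k).1 p) p).trans_lt (hDu k)
    have h6 : jInv (u k) ^ (p ^ 2) - jInv (u k) = -((jInv (u k) - jInv (u (k + 1)) ^ p) +
        (jInv (u (k + 1)) ^ p - (jInv (u k) ^ p) ^ p)) := by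
      rw [← pow_mul, ← sq]; ring
    have h7 := (hnf k).2
    rw [h6, Valuation.map_neg] at h7
    exact absurd h7 (V.valuation.map_add_lt h4 h5).ne
  · rw [hwu, ← hus 0, zero_add]

/-- the orbit of the canonical step -/
lemma l23_chain (hV : V.valuation (p : ℂ) < 1) (τ : ℍ) (hτ : jInv τ ∈ V) : ∃ (t : ℕ → ℍ) (M : ℕ → M2), t 0 = τ ∧
    (∀ k, (M k).det = p) ∧ (∀ k, gl (M k) • t k = t (k + 1)) ∧
    ∀ k, V.valuation (jInv (t (k + 1)) - jInv (t k) ^ p) < 1 := by
  have hp : p.Prime := Fact.out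
  have key : ∀ σ : ℍ, ∃ M : M2, M.det = p ∧ (jInv σ ∈ V → V.valuation (jInv (gl M • σ) - jInv σ ^ p) < 1) := by
    intro σ
    by_cases h : jInv σ ∈ V
    · obtain ⟨M, h1, h2⟩ := ts_exists hV h
      exact ⟨M, h1, fun _ => h2⟩
    · refine ⟨!![(p : ℤ), 0; 0, 1], ?_, fun h' => absurd h' h⟩
      rw [Matrix.det_fin_two_of]
      ring
  choose f hf1 hf2 using key
  have hmem : ∀ k, jInv ((fun σ => gl (f σ) • σ)^[k] τ) ∈ V := by
    intro k
    induction k with
    | zero => exact hτ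
    | succ k ih =>
      rw [Function.iterate_succ_apply']
      exact nb_mem (pow_mem ih p) (hf2 _ ih)
  refine ⟨fun k => (fun σ => gl (f σ) • σ)^[k] τ, fun k => f ((fun σ => gl (f σ) • σ)^[k] τ), rfl,
    fun k => hf1 _, fun k => ?_, fun k => ?_⟩
  · simp only [Function.iterate_succ_apply']
  · simp only [Function.iterate_succ_apply']
    exact hf2 _ (hmem k)

lemma l23_int (hV : V.valuation (p : ℂ) < 1) {c : ℤ} (hc : ¬ (p : ℤ) ∣ c) : V.valuation (c : ℂ) = 1 := by
  have hp : Prime (p : ℤ) := Nat.prime_iff_prime_int.mp Fact.out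
  have hle : V.valuation (c : ℂ) ≤ 1 := (V.valuation_le_one_iff _).mpr (intCast_mem V c)
  refine le_antisymm hle ?_
  by_contra hlt
  push Not at hlt
  obtain ⟨u, v, huv⟩ := hp.coprime_iff_not_dvd.mpr hc
  have h1 : (u : ℂ) * p + (v : ℂ) * c = 1 := by exact_mod_cast huv
  have h2 : V.valuation ((u : ℂ) * p + (v : ℂ) * c) < 1 := by
    refine V.valuation.map_add_lt ?_ ?_
    · rw [map_mul, mul_comm]
      exact mul_lt_one_of_lt_of_le hV ((V.valuation_le_one_iff _).mpr (intCast_mem V u))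
    · rw [map_mul, mul_comm]
      exact mul_lt_one_of_lt_of_le hlt ((V.valuation_le_one_iff _).mpr (intCast_mem V v))
  rw [h1, map_one] at h2
  exact lt_irrefl _ h2

lemma l23_int_pow (hV : V.valuation (p : ℂ) < 1) {c : ℤ} (hc : c ≠ 0) :
    ∃ N, V.valuation (p : ℂ) ^ N ≤ V.valuation (c : ℂ) := by
  have hp : p.Prime := Fact.out
  have hf : FiniteMultiplicity (p : ℤ) c := by
    rw [Int.finiteMultiplicity_iff]
    exact ⟨by simpa using hp.ne_one, hc⟩
  obtain ⟨d, hd, hnd⟩ := hf.exists_eq_pow_mul_and_not_dvd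
  refine ⟨multiplicity (p : ℤ) c, ?_⟩
  conv_rhs => rw [hd]
  push_cast
  rw [map_mul, map_pow, l23_int hV hnd, mul_one]

/-- an algebraic number has bounded valuation -/
lemma l23_alg_pow (hV : V.valuation (p : ℂ) < 1) {a : ℂ} (ha : IsAlgebraic ℚ a) (ha0 : a ≠ 0) :
    ∃ N, V.valuation (p : ℂ) ^ N ≤ V.valuation a := by
  have h1 : IsAlgebraic ℤ a⁻¹ := by
    rw [IsFractionRing.isAlgebraic_iff ℤ ℚ ℂ]
    exact ha.inv
  obtain ⟨y, hy0, hy⟩ := h1.exists_integral_multiple
  obtain ⟨N, hN⟩ := l23_int_pow hV hy0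
  refine ⟨N, hN.trans ?_⟩
  have h2 : (y • a⁻¹ : ℂ) ∈ V := AI_le V (mem_AI.mpr hy)
  have h3 : V.valuation ((y : ℂ) * a⁻¹) ≤ 1 := by
    rw [V.valuation_le_one_iff]
    simpa using h2
  have h4 : (y : ℂ) = ((y : ℂ) * a⁻¹) * a := by field_simp
  rw [h4, map_mul]
  exact mul_le_of_le_one_left' h3

/-- an algebraic integer in the maximal ideal divides `p` up to a power -/
lemma l23_int_rank (hV : V.valuation (p : ℂ) < 1) {e : ℂ} (he : e ∈ AI) (he0 : e ≠ 0) (he1 : V.valuation e < 1) :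
    ∃ m, V.valuation e ^ m ≤ V.valuation (p : ℂ) := by
  classical
  obtain ⟨P, hP, hPe⟩ := mem_AI.mp he
  have hex : ∃ i, ¬ (p : ℤ) ∣ P.coeff i := by
    refine ⟨P.natDegree, ?_⟩
    rw [hP.coeff_natDegree]
    exact (Nat.prime_iff_prime_int.mp Fact.out).not_dvd_one
  obtain ⟨m, hm, hmin⟩ : ∃ m, ¬ (p : ℤ) ∣ P.coeff m ∧ ∀ i < m, (p : ℤ) ∣ P.coeff i :=
    ⟨Nat.find hex, Nat.find_spec hex, fun i hi => not_not.mp (Nat.find_min hex hi)⟩
  refine ⟨m, ?_⟩
  have hmn : m ∈ Finset.range (P.natDegree + 1) := by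
    rw [Finset.mem_range]
    by_contra hcon
    push Not at hcon
    apply hm
    rw [Polynomial.coeff_eq_zero_of_natDegree_lt (by omega)]
    exact dvd_zero _
  rw [Polynomial.eval₂_eq_sum_range, ← Finset.add_sum_erase _ _ hmn] at hPe
  have heV : V.valuation e ≠ 0 := by rw [Ne, map_eq_zero]; exact he0
  have h1 : V.valuation (∑ i ∈ (Finset.range (P.natDegree + 1)).erase m, (algebraMap ℤ ℂ) (P.coeff i) * e ^ i) ≤
      max (V.valuation (p : ℂ)) (V.valuation e ^ (m + 1)) := by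
    refine V.valuation.map_sum_le fun i hi => ?_
    have hne := (Finset.mem_erase.mp hi).1
    rcases Nat.lt_or_gt_of_ne hne with h | h
    · refine le_max_of_le_left ?_
      obtain ⟨c, hc⟩ := hmin i h
      rw [hc, map_mul, map_mul, map_mul]
      have e1 : V.valuation ((algebraMap ℤ ℂ) (p : ℤ)) = V.valuation (p : ℂ) := by simp
      rw [e1, mul_assoc]
      refine mul_le_of_le_one_right' ?_
      rw [← map_mul, V.valuation_le_one_iff]
      refine mul_mem ?_ (pow_mem (AI_le V he) i)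
      simp
    · refine le_max_of_le_right ?_
      rw [map_mul, map_pow]
      have e1 : V.valuation ((algebraMap ℤ ℂ) (P.coeff i)) ≤ 1 := by
        rw [V.valuation_le_one_iff]
        simp
      calc _ ≤ V.valuation e ^ i := mul_le_of_le_one_left' e1
        _ ≤ _ := pow_le_pow_right_of_le_one' he1.le h
  have h2 : V.valuation ((algebraMap ℤ ℂ) (P.coeff m) * e ^ m) = V.valuation e ^ m := by
    rw [map_mul, map_pow]
    have e1 : V.valuation ((algebraMap ℤ ℂ) (P.coeff m)) = 1 := by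
      have := l23_int hV hm
      simpa using this
    rw [e1, one_mul]
  have h3 : V.valuation e ^ m ≤ max (V.valuation (p : ℂ)) (V.valuation e ^ (m + 1)) := by
    rw [← h2, eq_neg_of_add_eq_zero_left hPe, Valuation.map_neg]
    exact h1
  rcases le_max_iff.mp h3 with h | h
  · exact h
  · exfalso
    rw [pow_succ] at h
    have h5 : V.valuation e ^ m * V.valuation e < V.valuation e ^ m * 1 :=
      mul_lt_mul_of_pos_left he1 (zero_lt_iff.mpr (pow_ne_zero _ heV))
    rw [mul_one] at h5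
    exact absurd h (not_le.mpr h5)

/-- the rank one argument -/
lemma l23_rank (hV : V.valuation (p : ℂ) < 1) {e a : ℂ} (he : e ∈ AI) (he0 : e ≠ 0) (he1 : V.valuation e < 1)
    (ha : IsAlgebraic ℚ a) (ha0 : a ≠ 0) : ∃ N, V.valuation e ^ N ≤ V.valuation a := by
  obtain ⟨m, hm⟩ := l23_int_rank hV he he0 he1
  obtain ⟨N, hN⟩ := l23_alg_pow hV ha ha0
  refine ⟨m * N, ?_⟩
  rw [pow_mul]
  exact (pow_le_pow_left' hm N).trans hN

lemma l23_alg_of_AI {a : ℂ} (ha : a ∈ AI) : IsAlgebraic ℚ a :=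
  ((mem_AI.mp ha).tower_top (A := ℚ)).isAlgebraic

/-- roots of polynomials with algebraic coefficients -/
lemma l23_root {P : Polynomial ℂ} (hP : P ≠ 0) (hc : ∀ i, IsAlgebraic ℚ (P.coeff i)) {x : ℂ} (hx : P.eval x = 0) :
    IsAlgebraic ℚ x := by
  have h1 : P ∈ Polynomial.lifts (algebraMap (algebraicClosure ℚ ℂ) ℂ) := by
    rw [Polynomial.lifts_iff_coeff_lifts]
    intro i
    exact ⟨⟨P.coeff i, mem_algebraicClosure_iff.mpr (hc i)⟩, rfl⟩
  obtain ⟨Q, hQ⟩ := h1
  rw [Polynomial.coe_mapRingHom] at hQ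
  have h2 : IsAlgebraic (algebraicClosure ℚ ℂ) x := by
    refine ⟨Q, ?_, ?_⟩
    · rintro rfl
      rw [Polynomial.map_zero] at hQ
      exact hP hQ.symm
    · rw [Polynomial.aeval_def, ← Polynomial.eval_map, hQ, hx]
  have : Algebra.IsAlgebraic ℚ (algebraicClosure ℚ ℂ) := algebraicClosure.isAlgebraic ℚ ℂ
  exact h2.restrictScalars ℚ

lemma l23_alg_iso {N : ℕ} [NeZero N] {τ : ℍ} {M : M2} (hM : M.det = N) (h : IsAlgebraic ℚ (jInv τ)) :
    IsAlgebraic ℚ (jInv (gl M • τ)) := by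
  obtain ⟨Φ, hΦ, hprod⟩ := exists_modPoly_prod N
  have h1 : (Φ.map (Polynomial.evalRingHom (jInv τ))).eval (jInv (gl M • τ)) = 0 := by
    rw [modPoly_eval hprod, Finset.prod_eq_zero (Finset.mem_univ (Quotient.mk'' (toMN M hM) : QN N))]
    rw [jInv_rep M hM τ, sub_self]
  refine l23_root (P := Φ.map (Polynomial.evalRingHom (jInv τ))) ?_ ?_ h1
  · rw [hprod]
    exact Finset.prod_ne_zero_iff.mpr fun q _ => Polynomial.X_sub_C_ne_zero _
  · intro i
    rw [Polynomial.coeff_map, Polynomial.coe_evalRingHom, Polynomial.eval_eq_sum_range]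
    have h2 : ∀ k, (Φ.coeff i).coeff k * jInv τ ^ k ∈ algebraicClosure ℚ ℂ := fun k =>
      mul_mem (mem_algebraicClosure_iff.mpr (l23_alg_of_AI (hΦ i k))) (pow_mem (mem_algebraicClosure_iff.mpr h) k)
    exact mem_algebraicClosure_iff.mp (sum_mem fun k _ => h2 k)

/-- a point which is fixed by scalar matrices only -/
lemma l23_noncm : ∃ τ : ℍ, ∀ E : M2, 0 < E.det → gl E • τ = τ → E 1 0 = 0 ∧ E 0 1 = 0 ∧ E 0 0 = E 1 1 := by
  have h2 : 0 < Real.sqrt (Real.sqrt 2) := Real.sqrt_pos.mpr (Real.sqrt_pos.mpr two_pos)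
  refine ⟨⟨⟨0, Real.sqrt (Real.sqrt 2)⟩, h2⟩, fun E hE hf => ?_⟩
  obtain ⟨h3, h4⟩ := fix_im hE hf
  simp only [UpperHalfPlane.re, UpperHalfPlane.im] at h3 h4
  have h5 : Real.sqrt (Real.sqrt 2) ^ 2 = Real.sqrt 2 := Real.sq_sqrt (Real.sqrt_nonneg _)
  rw [h5] at h4
  have h6 : E 1 0 = 0 := by
    by_contra hne
    have hne' : (E 1 0 : ℝ) ≠ 0 := by exact_mod_cast hne
    apply irrational_sqrt_two
    refine ⟨-(E 0 1 : ℚ) / (E 1 0 : ℚ), ?_⟩
    push_cast
    rw [div_eq_iff hne']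
    linear_combination -h4
  rw [h6] at h3 h4
  have h7 : (E 0 1 : ℝ) = 0 := by
    have : -(E 0 1 : ℝ) = 0 := by rw [← h4]; simp
    linarith
  have h8 : (E 0 0 : ℝ) = E 1 1 := by
    have : (E 0 0 : ℝ) - E 1 1 = 0 := by rw [← h3]; simp
    linarith
  exact ⟨h6, by exact_mod_cast h7, by exact_mod_cast h8⟩

lemma l23_diag_AI (Ψ : Polynomial (Polynomial ℂ)) (h : ∀ i k, (Ψ.coeff i).coeff k ∈ AI) (k : ℕ) :
    (Ψ.eval Polynomial.X).coeff k ∈ AI := by
  rw [Polynomial.eval_eq_sum, Polynomial.sum_def, Polynomial.finsetSum_coeff]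
  refine sum_mem fun i _ => ?_
  rw [Polynomial.coeff_mul_X_pow']
  split_ifs
  · exact h _ _
  · exact zero_mem _

/-- a class of matrices fixing the non CM point is the scalar class -/
lemma l23_scalar {N : ℕ} [NeZero N] {τ₀ : ℍ} (h0 : ∀ E : M2, 0 < E.det → gl E • τ₀ = τ₀ → E 1 0 = 0 ∧ E 0 1 = 0 ∧
    E 0 0 = E 1 1) {q : QN N} (hq : jInv (toGL (rep q) • τ₀) = jInv τ₀) :
    ∃ (γ : SL(2, ℤ)) (a : ℤ), a * a = N ∧ (rep q).1 = γ.1 * a • (1 : M2) := by
  have hN : (0 : ℤ) < N := by exact_mod_cast Nat.pos_of_ne_zero (NeZero.ne N)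
  obtain ⟨γ, hγ⟩ := jInv_inj hq
  have hdr : (rep q).1.det = N := (rep q).2
  have hdp : 0 < (rep q).1.det := by rw [hdr]; exact hN
  rw [← gl_toGL, ← gl_sl_smul, ← gl_mul_smul (by rw [γ.2]; exact one_pos) hdp] at hγ
  have hdE : (γ.1 * (rep q).1).det = N := by rw [Matrix.det_mul, γ.2, one_mul, hdr]
  obtain ⟨h1, h2, h3⟩ := h0 _ (by rw [hdE]; exact hN) hγ
  obtain ⟨E, hE⟩ : ∃ E : M2, γ.1 * (rep q).1 = E := ⟨_, rfl⟩
  rw [hE] at h1 h2 h3 hdE
  refine ⟨γ⁻¹, E 0 0, ?_, ?_⟩
  · rw [Matrix.det_fin_two, h1, h3] at hdE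
    rw [h3]
    linarith
  · have h4 : E = (E 0 0) • (1 : M2) := by
      ext i j
      fin_cases i <;> fin_cases j <;> simp [h1, h2, h3]
    rw [← h4, ← hE, ← Matrix.mul_assoc, ← Matrix.SpecialLinearGroup.coe_mul, inv_mul_cancel]
    simp

lemma l23_scalar_smul {N : ℕ} [NeZero N] {q : QN N} {γ : SL(2, ℤ)} {a : ℤ} (ha : a * a = N)
    (h : (rep q).1 = γ.1 * a • (1 : M2)) (τ : ℍ) : jInv (toGL (rep q) • τ) = jInv τ := by
  have hN : (0 : ℤ) < N := by exact_mod_cast Nat.pos_of_ne_zero (NeZero.ne N)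
  have ha0 : a ≠ 0 := by rintro rfl; rw [← ha] at hN; simp at hN
  have hac : (a : ℂ) ≠ 0 := by exact_mod_cast ha0
  have hd : (a • (1 : M2)).det = N := by rw [Matrix.det_smul]; simp; rw [← ha, sq]
  have hs : gl (a • (1 : M2)) • τ = τ := by
    apply UpperHalfPlane.ext
    rw [gl_smul_coe (by rw [hd]; exact hN)]
    simp [hac]
  rw [← gl_toGL, h, jInv_gl_sl_mul γ (by rw [hd]; exact hN.ne'), hs]

lemma l23_scalar_unique {N : ℕ} [NeZero N] {q q' : QN N} {γ γ' : SL(2, ℤ)} {a a' : ℤ} (ha : a * a = N) (ha' : a' * a' = N)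
    (h : (rep q).1 = γ.1 * a • (1 : M2)) (h' : (rep q').1 = γ'.1 * a' • (1 : M2)) : q = q' := by
  have h1 : ∃ δ : SL(2, ℤ), (rep q).1 = δ.1 * (rep q').1 := by
    have h2 : a = a' ∨ a = -a' := by
      rw [← sq_eq_sq_iff_eq_or_eq_neg, sq, sq, ha, ha']
    have h3 : (γ'⁻¹).1 * γ'.1 = 1 := congrArg Subtype.val (inv_mul_cancel γ')
    rcases h2 with rfl | rfl
    · refine ⟨γ * γ'⁻¹, ?_⟩
      rw [h, h', Matrix.SpecialLinearGroup.coe_mul, Matrix.mul_assoc, ← Matrix.mul_assoc _ γ'.1, h3, Matrix.one_mul]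
    · refine ⟨-(γ * γ'⁻¹), ?_⟩
      have h4 : (γ.1 * ((-a') • (1 : M2)) : M2) = -(γ.1 * (a' • (1 : M2))) := by simp
      have h5 : (-(γ * γ'⁻¹)).1 = -(γ.1 * (γ'⁻¹).1) := by
        rw [Matrix.SpecialLinearGroup.coe_neg, Matrix.SpecialLinearGroup.coe_mul]
      have h6 : (γ'⁻¹).1 * (γ'.1 * (a' • (1 : M2))) = a' • (1 : M2) := by
        rw [← Matrix.mul_assoc, h3, Matrix.one_mul]
      rw [h, h', h4, h5, Matrix.neg_mul, Matrix.mul_assoc, h6]
  obtain ⟨δ, hδ⟩ := h1
  rw [← rep_mk q, ← rep_mk q']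
  apply Quotient.sound
  change rep q ∈ MulAction.orbit _ (rep q')
  refine ⟨δ, ?_⟩
  apply Subtype.ext
  exact hδ.symm

open Polynomial in
/-- the polynomial whose roots are the CM points of the level -/
lemma l23_poly (s : ℕ) : ∃ f : Polynomial ℂ, f ≠ 0 ∧ (∀ i, f.coeff i ∈ AI) ∧ ∀ (τ : ℍ) (M : M2), M.det = (p : ℤ) ^ s →
    jInv τ ∈ V → jInv (gl M • τ) ≠ jInv τ → V.valuation (f.eval (jInv τ)) ≤ V.valuation (jInv (gl M • τ) - jInv τ) := by
  classical
  have hp : p.Prime := Fact.out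
  obtain ⟨N, hN⟩ : ∃ N, N = p ^ s := ⟨_, rfl⟩
  have : NeZero N := ⟨by rw [hN]; exact pow_ne_zero _ hp.ne_zero⟩
  obtain ⟨Φ, hΦ, hprod⟩ := exists_modPoly_prod N
  obtain ⟨τ₀, h0⟩ := l23_noncm
  have hall : ∀ q : QN N, jInv (toGL (rep q) • τ₀) = jInv τ₀ → ∀ τ : ℍ, jInv (toGL (rep q) • τ) = jInv τ := by
    intro q hq τ
    obtain ⟨γ, a, h1, h2⟩ := l23_scalar h0 hq
    exact l23_scalar_smul h1 h2 τ
  have huniq : ∀ q q' : QN N, jInv (toGL (rep q) • τ₀) = jInv τ₀ → jInv (toGL (rep q') • τ₀) = jInv τ₀ → q = q' := by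
    intro q q' hq hq'
    obtain ⟨γ, a, h1, h2⟩ := l23_scalar h0 hq
    obtain ⟨γ', a', h1', h2'⟩ := l23_scalar h0 hq'
    exact l23_scalar_unique h1 h1' h2 h2'
  obtain ⟨f, S, hS, hf, hfe⟩ : ∃ (f : Polynomial ℂ) (S : Finset (QN N)), (∀ q, q ∈ S ↔ jInv (toGL (rep q) • τ₀) ≠ jInv τ₀) ∧
      (∀ i, f.coeff i ∈ AI) ∧ ∀ τ, f.eval (jInv τ) = ∏ q ∈ S, (jInv τ - jInv (toGL (rep q) • τ)) := by
    by_cases hex : ∃ q₀ : QN N, jInv (toGL (rep q₀) • τ₀) = jInv τ₀
    · obtain ⟨q₀, hq₀⟩ := hex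
      refine ⟨(derivative Φ).eval X, Finset.univ.erase q₀, ?_, ?_, ?_⟩
      · intro q
        rw [Finset.mem_erase]
        constructor
        · rintro ⟨h1, -⟩ h2
          exact h1 (huniq _ _ h2 hq₀)
        · intro h1
          refine ⟨?_, Finset.mem_univ _⟩
          rintro rfl
          exact h1 hq₀
      · apply l23_diag_AI
        intro i k
        rw [Polynomial.coeff_derivative]
        have e : ((i : Polynomial ℂ) + 1) = C ((i + 1 : ℕ) : ℂ) := by
          push_cast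
          simp
        rw [e, Polynomial.coeff_mul_C]
        exact mul_mem (hΦ _ _) (natCast_mem AI _)
      · intro τ
        rw [lz_eval_eval_X, ← Polynomial.derivative_map, hprod, Polynomial.derivative_prod_finset,
          Polynomial.eval_finsetSum, Finset.sum_eq_single q₀]
        · rw [Polynomial.eval_mul, Polynomial.eval_prod]
          simp
        · intro q _ hq
          rw [Polynomial.eval_mul, Polynomial.eval_prod, Finset.prod_eq_zero (i := q₀), zero_mul]
          · exact Finset.mem_erase.mpr ⟨hq.symm, Finset.mem_univ _⟩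
          · rw [hall q₀ hq₀]; simp
        · intro h; exact absurd (Finset.mem_univ _) h
    · push Not at hex
      refine ⟨Φ.eval X, Finset.univ, fun q => ⟨fun _ => hex q, fun _ => Finset.mem_univ _⟩,
        fun i => l23_diag_AI Φ hΦ i, ?_⟩
      intro τ
      rw [lz_eval_eval_X, modPoly_eval hprod]
  refine ⟨f, ?_, hf, ?_⟩
  · rintro rfl
    have h1 := hfe τ₀
    rw [Polynomial.eval_zero] at h1
    obtain ⟨q, hq, hq0⟩ := Finset.prod_eq_zero_iff.mp h1.symm
    exact (hS q).mp hq (sub_eq_zero.mp hq0).symm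
  · intro τ M hM hτ hne
    have hM' : M.det = N := by rw [hM, hN]; push_cast; rfl
    have hm := jInv_rep M hM' τ
    set m : QN N := Quotient.mk'' (toMN M hM') with hmd
    have hmS : m ∈ S := by
      rw [hS]
      intro h
      exact hne (by rw [← hm, hall m h])
    rw [hfe, ← Finset.mul_prod_erase _ _ hmS, map_mul, hm, Valuation.map_sub_swap]
    refine mul_le_of_le_one_right' ?_
    rw [V.valuation_le_one_iff]
    refine prod_mem fun q _ => sub_mem hτ ?_
    rw [← gl_toGL]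
    refine jInv_mem ?_ hτ
    rw [(rep q).2]
    exact_mod_cast Nat.pos_of_ne_zero (NeZero.ne N)

/-- two orbits of the canonical step in the same residue disc stay close -/
lemma l23_follow (hV : V.valuation (p : ℂ) < 1) {x y : ℕ → ℂ} (hx : ∀ k, TS p V (x k) (x (k + 1)))
    (hy : ∀ k, TS p V (y k) (y (k + 1))) (h0 : NF p V (x 0)) (hc : V.valuation (x 0 - y 0) < 1) :
    ∀ k, V.valuation (x k - y k) ≤ V.valuation (x 0 - y 0) := by
  intro k
  induction k with
  | zero => exact le_rfl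
  | succ k ih =>
    have hnf := w83_nf_seq hV hx h0 k
    by_cases h : x k = y k
    · have h1 := hy k
      rw [← h] at h1
      rw [ts_fun hV hnf (hx k) h1, sub_self, map_zero]
      exact zero_le
    · exact (ts_contr hV hnf (ih.trans_lt hc) h (hx k) (hy k)).le.trans ih

lemma l23_wd {t : ℕ → ℍ} {M : ℕ → M2} (hM : ∀ k, (M k).det = p) (ht : ∀ k, gl (M k) • t k = t (k + 1)) (a n : ℕ) :
    gl (wd M a n) • t a = t (a + n) := by
  have hp : p.Prime := Fact.out
  have hp0 : (0 : ℤ) < p := by exact_mod_cast hp.pos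
  have hdet : ∀ k, 0 < (M k).det := fun k => by rw [hM]; exact hp0
  have hdw : ∀ a n, 0 < (wd M a n).det := fun a n => by rw [det_wd hM]; positivity
  induction n with
  | zero =>
    have : gl (1 : M2) = 1 := by
      apply Units.ext
      rw [gl_val (by simp)]
      simp
    simp [wd, this]
  | succ n ih => rw [wd_succ, gl_mul_smul (hdet _) (hdw _ _), ih, ht, add_assoc]

end

theorem exists_olf {p : ℕ} [Fact p.Prime] {V : ValuationSubring ℂ} (hV : V.valuation (p : ℂ) < 1) {s : ℕ} (hs : 0 < s)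
    {z : ℂ} (hz : NF p V z) (hF : V.valuation (z ^ (p ^ s) - z) < 1) : ∃ t τ E, OLF p V s z t τ E := by
  have hp : p.Prime := Fact.out
  by_contra hno
  -- the Teichmüller point
  have hps : 1 < p ^ s := Nat.one_lt_pow hs.ne' hp.one_lt
  obtain ⟨z', hz', hzz⟩ : ∃ z' : ℂ, z' ^ (p ^ s) = z' ∧ V.valuation (z' - z) < 1 := by
    obtain ⟨ρ, h1, h2⟩ := lz_root_close hz.1 (Polynomial.X ^ (p ^ s) - Polynomial.X) (p ^ s) (by
      rw [Polynomial.coeff_sub, Polynomial.coeff_X_pow_self, Polynomial.coeff_X, if_neg hps.ne, sub_zero, map_one])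
      (by simpa using hF)
    refine ⟨ρ, ?_, h2⟩
    rw [Polynomial.eval_sub, Polynomial.eval_pow, Polynomial.eval_X] at h1
    exact sub_eq_zero.mp h1
  have hnz' : NF p V z' := nf_close hV hz hzz
  obtain ⟨τ₀, hτ₀⟩ := jInv_surj z'
  obtain ⟨t, M, ht0, hM, ht, hD⟩ := l23_chain hV τ₀ (by rw [hτ₀]; exact hnz'.1)
  obtain ⟨y, hy⟩ : ∃ y : ℕ → ℂ, ∀ k, y k = jInv (t k) := ⟨_, fun _ => rfl⟩
  have hy0 : y 0 = z' := by rw [hy, ht0, hτ₀]
  have hTS : ∀ k, TS p V (y k) (y (k + 1)) := fun k =>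
    ⟨t k, M k, hM k, (hy k).symm, by rw [ht, hy], by rw [hy, hy]; exact hD k⟩
  have hnf : ∀ k, NF p V (y k) := w83_nf_seq hV hTS (by rw [hy0]; exact hnz')
  obtain ⟨e, heA, he0, he1, -, hc1, hc2⟩ := contr (p := p) hV
  have hev : V.valuation e ≠ 0 := by rw [Ne, map_eq_zero]; exact he0
  have hpowle : ∀ {a b : ℕ}, a ≤ b → V.valuation e ^ b ≤ V.valuation e ^ a := fun h => pow_le_pow_right_of_le_one' he1.le h
  have hpowlt : ∀ {a b : ℕ}, a < b → V.valuation e ^ b < V.valuation e ^ a := fun h =>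
    pow_lt_pow_right_of_lt_one₀ (zero_lt_iff.mpr hev) he1 h
  -- the orbit of the Teichmüller point
  have hyk : ∀ k, V.valuation (y k - z' ^ (p ^ k)) ≤ V.valuation e := by
    intro k
    induction k with
    | zero => rw [hy0, pow_zero, pow_one, sub_self, map_zero]; exact zero_le
    | succ k ih =>
      have h1 : y (k + 1) - z' ^ (p ^ (k + 1)) = (y (k + 1) - y k ^ p) + (y k ^ p - (z' ^ (p ^ k)) ^ p) := by
        rw [← pow_mul, ← pow_succ]; ring
      rw [h1]
      refine V.valuation.map_add_le ?_ ((nb_pow_sub (hnf k).1 (pow_mem hnz'.1 _) p).trans ih)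
      have h2 := hc1 (t k) (M k) (by rw [← hy]; exact hnf k) (hM k) (by rw [ht]; exact hD k)
      rwa [ht, ← hy, ← hy] at h2
  have hzp : ∀ l, z' ^ (p ^ (s * l)) = z' := by
    intro l
    induction l with
    | zero => simp
    | succ l ih => rw [Nat.mul_succ, pow_add, pow_mul, ih, hz']
  have hyl : ∀ l, V.valuation (y (s * l) - z') ≤ V.valuation e := by
    intro l
    have := hyk (s * l)
    rwa [hzp] at this
  have hys : ∀ k, V.valuation (y (k + s) - y k) ≤ V.valuation e ^ (k + 1) := by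
    intro k
    induction k with
    | zero =>
      rw [zero_add, zero_add, pow_one, hy0]
      have := hyl 1
      rwa [mul_one] at this
    | succ k ih =>
      have h1 : V.valuation (y (k + s) - y k) ≤ V.valuation e := ih.trans ((hpowle (by omega : 1 ≤ k + 1)).trans_eq (pow_one _))
      have h2 := hc2 (t (k + s)) (t k) (M (k + s)) (M k) e (by rw [← hy]; exact hnf _) le_rfl he1
        (by rw [← hy, ← hy]; exact h1) (hM _) (hM _) (by rw [ht]; exact hD _) (by rw [ht]; exact hD _)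
      rw [ht, ht, ← hy, ← hy, ← hy, ← hy] at h2
      rw [show k + 1 + s = k + s + 1 by ring, pow_succ', ]
      exact h2.trans (mul_le_mul_right ih _)
  -- no periodic point
  have hne : ∀ l, y (s * l + s) ≠ y (s * l) := by
    intro l h
    apply hno
    refine l23_close hV hs (t := fun i => t (s * l + i)) (M := fun i => M (s * l + i)) (fun i => hM _)
      (fun i => by rw [ht, add_assoc]) (fun i => by rw [← add_assoc]; exact hD _)
      (by simp only [add_zero]; rw [← hy]; exact hnf _) (by simp only [add_zero]; rw [← hy, ← hy]; exact h) ?_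
    simp only [add_zero]
    rw [← hy, show y (s * l) - z = (y (s * l) - z') + (z' - z) by ring]
    exact V.valuation.map_add_lt ((hyl l).trans_lt he1) hzz
  obtain ⟨f, hf0, hfA, hfv⟩ := l23_poly (p := p) (V := V) s
  have hfy : ∀ l, V.valuation (f.eval (y (s * l))) ≤ V.valuation e ^ (s * l + 1) := by
    intro l
    have h1 := l23_wd hM ht (s * l) s
    have h2 := hfv (t (s * l)) (wd M (s * l) s) (det_wd hM _ _) (by rw [← hy]; exact (hnf _).1)
      (by rw [h1, ← hy, ← hy]; exact hne l)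
    rw [h1, ← hy, ← hy] at h2
    exact h2.trans (hys _)
  -- the roots of `f` are far from the orbit
  have hK : ∀ ρ ∈ f.roots, ∃ N, ∀ l, N ≤ s * l → V.valuation e ^ N < V.valuation (y (s * l) - ρ) := by
    intro ρ hρ
    by_cases hρz : V.valuation (ρ - z') < 1
    · have hρN : NF p V ρ := nf_close hV hnz' hρz
      obtain ⟨σ, hσ⟩ := jInv_surj ρ
      obtain ⟨u, A, hu0, hA, hu, hDu⟩ := l23_chain hV σ (by rw [hσ]; exact hρN.1)
      have hu0' : jInv (u 0) = ρ := by rw [hu0, hσ]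
      have hus : jInv (u s) ≠ ρ := by
        intro h
        apply hno
        refine l23_close hV hs hA hu hDu (by rw [hu0']; exact hρN) (by rw [h, hu0']) ?_
        rw [hu0', show ρ - z = (ρ - z') + (z' - z) by ring]
        exact V.valuation.map_add_lt hρz hzz
      have hρa : IsAlgebraic ℚ ρ := l23_root hf0 (fun i => l23_alg_of_AI (hfA i)) ((Polynomial.mem_roots hf0).mp hρ)
      have husa : IsAlgebraic ℚ (jInv (u s)) := by
        have : NeZero (p ^ s) := ⟨pow_ne_zero _ hp.ne_zero⟩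
        have h1 := l23_wd hA hu 0 s
        rw [zero_add] at h1
        rw [← h1]
        exact l23_alg_iso (N := p ^ s) (by rw [det_wd hA]; push_cast; rfl) (by rw [hu0']; exact hρa)
      obtain ⟨N, hN⟩ := l23_rank hV heA he0 he1 (husa.sub hρa) (sub_ne_zero.mpr hus)
      refine ⟨N + 1, fun l hl => ?_⟩
      by_contra hcon
      push Not at hcon
      have h1 : V.valuation (jInv (u 0) - y (s * l)) ≤ V.valuation e ^ (N + 1) := by
        rw [hu0', Valuation.map_sub_swap]; exact hcon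
      have h2 : V.valuation e ^ (N + 1) < 1 := (hpowlt (Nat.succ_pos N)).trans_eq (pow_zero _)
      have h3 := l23_follow hV (x := fun k => jInv (u k)) (y := fun k => y (s * l + k))
        (fun k => ⟨u k, A k, hA k, rfl, by rw [hu], hDu k⟩) (fun k => by rw [← add_assoc]; exact hTS _)
        (by rw [hu0']; exact hρN) (h1.trans_lt h2) s
      simp only [add_zero] at h3
      have h4 : jInv (u s) - ρ = (jInv (u s) - y (s * l + s)) + ((y (s * l + s) - y (s * l)) + (y (s * l) - ρ)) := by ring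
      have h5 : V.valuation (jInv (u s) - ρ) ≤ V.valuation e ^ (N + 1) := by
        rw [h4]
        refine V.valuation.map_add_le (h3.trans h1) (V.valuation.map_add_le ?_ hcon)
        exact (hys _).trans (hpowle (by omega))
      exact absurd (hN.trans h5) (not_le.mpr (hpowlt (Nat.lt_succ_self N)))
    · refine ⟨1, fun l _ => ?_⟩
      by_contra hcon
      push Not at hcon
      apply hρz
      rw [pow_one] at hcon
      rw [show ρ - z' = (y (s * l) - z') - (y (s * l) - ρ) by ring]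
      exact (V.valuation.map_sub_le (hyl l) hcon).trans_lt he1
  classical
  have hK' : ∀ ρ : ℂ, ∃ N, ρ ∈ f.roots → ∀ l, N ≤ s * l → V.valuation e ^ N < V.valuation (y (s * l) - ρ) := by
    intro ρ
    by_cases h : ρ ∈ f.roots
    · obtain ⟨N, hN⟩ := hK ρ h
      exact ⟨N, fun _ => hN⟩
    · exact ⟨0, fun h' => absurd h' h⟩
  choose g hg using hK'
  obtain ⟨N, hN⟩ : ∃ N, N = f.roots.toFinset.sup g := ⟨_, rfl⟩
  have hN' : ∀ ρ ∈ f.roots, g ρ ≤ N := fun ρ hρ => by
    rw [hN]; exact Finset.le_sup (Multiset.mem_toFinset.mpr hρ)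
  obtain ⟨N₀, hN₀⟩ := l23_rank hV heA he0 he1 (l23_alg_of_AI (hfA f.natDegree)) (Polynomial.leadingCoeff_ne_zero.mpr hf0)
  obtain ⟨l, hl⟩ : ∃ l, l = N + N₀ + N * Multiset.card f.roots + 1 := ⟨_, rfl⟩
  have hll : l ≤ s * l := Nat.le_mul_of_pos_left _ hs
  have hroots : f = Polynomial.C f.leadingCoeff * (f.roots.map fun a => Polynomial.X - Polynomial.C a).prod :=
    (IsAlgClosed.splits f).eq_prod_roots
  have h2 : f.eval (y (s * l)) = f.leadingCoeff * (f.roots.map fun ρ => y (s * l) - ρ).prod := by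
    conv_lhs => rw [hroots]
    rw [Polynomial.eval_mul, Polynomial.eval_C, Polynomial.eval_multiset_prod, Multiset.map_map]
    congr 2
    refine Multiset.map_congr rfl fun a _ => ?_
    simp
  have h3 : V.valuation (f.eval (y (s * l))) = V.valuation f.leadingCoeff *
      (f.roots.map fun ρ => V.valuation (y (s * l) - ρ)).prod := by
    rw [h2, map_mul, map_multiset_prod, Multiset.map_map]
    rfl
  have h4 : (V.valuation e ^ N) ^ (Multiset.card (f.roots.map fun ρ => V.valuation (y (s * l) - ρ))) ≤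
      (f.roots.map fun ρ => V.valuation (y (s * l) - ρ)).prod := by
    refine Multiset.pow_card_le_prod fun x hx => ?_
    obtain ⟨ρ, hρ, rfl⟩ := Multiset.mem_map.mp hx
    exact (hpowle (hN' ρ hρ)).trans (hg ρ hρ l ((hN' ρ hρ).trans (by omega))).le
  rw [Multiset.card_map, ← pow_mul] at h4
  have h5 : V.valuation e ^ (N₀ + N * Multiset.card f.roots) ≤ V.valuation (f.eval (y (s * l))) := by
    rw [h3, pow_add]
    exact mul_le_mul' hN₀ h4
  exact absurd (h5.trans (hfy l)) (not_le.mpr (hpowlt (by omega)))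

end Pool.Agent.ZPF
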