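import Mathlib
import Pool.Agent.ZPF.Lift
import Pool.Agent.ZPF.IsoD
import Pool.Agent.ZPF.Count
import Pool.Agent.ZPOrd.Dsc

/-!
Counting the residues which are isogenous to a given residue.
-/

open UpperHalfPlane hiding I
open MatrixGroups

namespace Pool.Agent.ZPF

open Pool.Agent.Lib.ModularZP Pool.Agent.ZPOrd

namespace IsoCount

lemma res_eq_iff {V : ValuationSubring ℂ} (a b : V) :
    IsLocalRing.residue V a = IsLocalRing.residue V b ↔ V.valuation ((a : ℂ) - (b : ℂ)) < 1 := by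
  rw [← sub_eq_zero, ← map_sub, IsLocalRing.residue_eq_zero_iff, ValuationSubring.valuation_lt_one_iff]
  rfl

lemma nf_of_res {p : ℕ} {V : ValuationSubring ℂ} (a : V)
    (h : IsLocalRing.residue V a ^ (p ^ 2) ≠ IsLocalRing.residue V a) : NF p V (a : ℂ) := by
  refine ⟨a.2, ?_⟩
  have h1 : IsLocalRing.residue V (a ^ (p ^ 2) - a) ≠ 0 := by
    rw [map_sub, map_pow]
    exact sub_ne_zero.2 h
  rw [IsLocalRing.residue_ne_zero_iff_isUnit, ValuationSubring.valuation_eq_one_iff] at h1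
  simpa using h1

lemma fr_of_res {p s : ℕ} {V : ValuationSubring ℂ} (a : V)
    (h : IsLocalRing.residue V a ^ (p ^ s) = IsLocalRing.residue V a) :
    V.valuation ((a : ℂ) ^ (p ^ s) - (a : ℂ)) < 1 := by
  have h1 : IsLocalRing.residue V (a ^ (p ^ s)) = IsLocalRing.residue V a := by
    rw [map_pow]; exact h
  have := (res_eq_iff _ _).1 h1
  simpa using this

lemma olf_lower_ne {p s : ℕ} (hp : p.Prime) (hs : 0 < s) {V : ValuationSubring ℂ} {z : ℂ} {t : ℤ} {τ : ℍ} {E : M2}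
    (h : OLF p V s z t τ E) : E 1 0 ≠ 0 := by
  intro hc
  have hE0 : 0 < E.det := by
    rw [h.det]
    have : (0 : ℤ) < p := by exact_mod_cast hp.pos
    positivity
  obtain ⟨h1, h2⟩ := Dsc.fix_coords hE0 h.fix
  rw [hc] at h1 h2
  simp at h1 h2
  have h3 : E 0 0 = E 1 1 := by
    have : (E 0 0 : ℝ) = (E 1 1 : ℝ) := by linarith
    exact_mod_cast this
  have hdet := h.det
  have htr := h.tr
  rw [Matrix.det_fin_two, hc, h3] at hdet
  rw [Matrix.trace_fin_two, h3] at htr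
  have hpi := Nat.prime_iff_prime_int.1 hp
  have h4 : (p : ℤ) ∣ E 1 1 := by
    apply hpi.dvd_of_dvd_pow (n := 2)
    have : E 1 1 ^ 2 = (p : ℤ) ^ s := by linarith
    rw [this]
    exact dvd_pow_self _ hs.ne'
  apply h.ndvd
  rw [← htr]
  exact dvd_add h4 h4

/-- the data attached to an isogenous residue -/
lemma exists_data {p : ℕ} [Fact p.Prime] {V : ValuationSubring ℂ} (hV : V.valuation (p : ℂ) < 1) {s : ℕ}
    (hs : 0 < s) {u v : IsLocalRing.ResidueField V} {z : V} (hzu : IsLocalRing.residue V z = u)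
    (hu : u ^ (p ^ s) = u) (hu2 : u ^ (p ^ 2) ≠ u) {t : ℤ} {τ₀ : ℍ} {E₀ : M2} (h0 : OLF p V s (z : ℂ) t τ₀ E₀)
    (hv : v ^ (p ^ s) = v) (hv2 : v ^ (p ^ 2) ≠ v) (hiso : IsoV V u v) :
    ∃ (τ : ℍ) (B : M2), B.det = (p : ℤ) ^ s ∧ gl B • τ = τ ∧
      (∃ w : V, IsLocalRing.residue V w = v ∧ V.valuation (jInv τ - (w : ℂ)) < 1) ∧
      ¬ (p : ℤ) ∣ B.trace ∧ IsSquare ((t ^ 2 - 4 * (p : ℤ) ^ s) * (B.trace ^ 2 - 4 * (p : ℤ) ^ s)) ∧
      |B 0 0 - B 1 1| ≤ |B 1 0| ∧ |B 1 0| ≤ |B 0 1| ∧ B 0 1 * B 1 0 < 0 := by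
  have hp : p.Prime := Fact.out
  obtain ⟨w, hw⟩ := IsLocalRing.residue_surjective v
  have hwN : NF p V (w : ℂ) := nf_of_res w (by rw [hw]; exact hv2)
  have hwF : V.valuation ((w : ℂ) ^ (p ^ s) - (w : ℂ)) < 1 := fr_of_res w (by rw [hw]; exact hv)
  have hzN : NF p V (z : ℂ) := nf_of_res z (by rw [hzu]; exact hu2)
  have hzF : V.valuation ((z : ℂ) ^ (p ^ s) - (z : ℂ)) < 1 := fr_of_res z (by rw [hzu]; exact hu)
  obtain ⟨t', τ₁, E₁, h1⟩ := exists_olf hV hs hwN hwF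
  obtain ⟨τ, M, hM, m1, m2, r1, r2⟩ := hiso
  have hc1 : V.valuation (jInv τ - (z : ℂ)) < 1 := by
    have : IsLocalRing.residue V ⟨jInv τ, m1⟩ = IsLocalRing.residue V z := r1.trans hzu.symm
    exact (res_eq_iff _ _).1 this
  have hc2 : V.valuation (jInv (gl M • τ) - (w : ℂ)) < 1 := by
    have : IsLocalRing.residue V ⟨jInv (gl M • τ), m2⟩ = IsLocalRing.residue V w := r2.trans hw.symm
    exact (res_eq_iff _ _).1 this
  have hsq := iso_discF hV hs hzN hwN hzF h0 h1 hM hc1 hc2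
  have hpos : 0 < E₁.det := by
    rw [h1.det]
    have : (0 : ℤ) < p := by exact_mod_cast hp.pos
    positivity
  obtain ⟨γ, B', hc, g1, g2, g3⟩ := exists_reduced hpos h1.fix (olf_lower_ne hp hs h1)
  have hd := Dsc.det_conj hc
  have ht := Dsc.trace_conj hc
  refine ⟨γ • τ₁, B', hd.trans h1.det, Dsc.fix_conj hpos h1.fix hc (by rw [hd]; exact hpos), ⟨w, hw, ?_⟩, ?_, ?_,
    g1, g2, g3⟩
  · rw [jInv_smul]; exact h1.close
  · rw [ht, h1.tr]; exact h1.ndvd
  · rw [ht, h1.tr]; exact hsq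

end IsoCount

open IsoCount in
theorem isoV_count (δ : ℝ) (hδ : 0 < δ) : ∃ C : ℝ, 0 < C ∧ ∀ (p : ℕ) (_ : Fact p.Prime), p ≠ 2 → ∀ V : ValuationSubring ℂ,
    V.valuation (p : ℂ) < 1 → ∀ s : ℕ, 0 < s → ∀ u : IsLocalRing.ResidueField V, u ^ (p ^ s) = u → u ^ (p ^ 2) ≠ u →
    ∀ T : Finset (IsLocalRing.ResidueField V), (∀ v ∈ T, v ^ (p ^ s) = v ∧ v ^ (p ^ 2) ≠ v ∧ IsoV V u v) →
      (T.card : ℝ) ≤ C * ((p : ℝ) ^ s) ^ (1 / 2 + δ) := by
  classical
  obtain ⟨C, hC0, hC⟩ := count_reducedF δ hδ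
  refine ⟨C, hC0, fun p hpf hp2 V hV s hs u hu hu2 T hT => ?_⟩
  have hp : p.Prime := Fact.out
  have hpi := Nat.prime_iff_prime_int.1 hp
  have hps : (0 : ℤ) < (p : ℤ) ^ s := by
    have : (0 : ℤ) < p := by exact_mod_cast hp.pos
    positivity
  obtain ⟨z, hz⟩ := IsLocalRing.residue_surjective u
  obtain ⟨t, τ₀, E₀, h0⟩ := exists_olf hV hs (nf_of_res z (by rw [hz]; exact hu2))
    (fr_of_res z (by rw [hz]; exact hu))
  have hD : t ^ 2 - 4 * (p : ℤ) ^ s ≠ 0 := by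
    intro h
    apply h0.ndvd
    apply hpi.dvd_of_dvd_pow (n := 2)
    have : t ^ 2 = 4 * (p : ℤ) ^ s := by linarith
    rw [this]
    exact dvd_mul_of_dvd_right (dvd_pow_self _ hs.ne') _
  have hdata := fun (v : IsLocalRing.ResidueField V) (hv : v ∈ T) =>
    exists_data hV hs hz hu hu2 h0 (hT v hv).1 (hT v hv).2.1 (hT v hv).2.2
  choose! P M hM1 hM2 hM3 hM4 hM5 hM6 hM7 hM8 using hdata
  set f : IsLocalRing.ResidueField V → ℤ × ℤ × ℤ × ℤ := fun v => (M v 0 0, M v 0 1, M v 1 0, M v 1 1) with hf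
  have hinj : Set.InjOn f T := by
    intro a ha b hb hab
    simp only [hf, Prod.mk.injEq] at hab
    have hMM : M a = M b := by
      ext i j
      fin_cases i <;> fin_cases j
      · exact hab.1
      · exact hab.2.1
      · exact hab.2.2.1
      · exact hab.2.2.2
    have hne : M a 1 0 ≠ 0 := by
      intro h
      have := hM8 a ha
      rw [h] at this
      simp at this
    have hPP : P a = P b := by
      apply Dsc.fix_unique (B := M a) (by rw [hM1 a ha]; exact hps) (hM2 a ha) _ hne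
      rw [hMM]
      exact hM2 b hb
    obtain ⟨w, hw, hw1⟩ := hM3 a ha
    obtain ⟨w', hw', hw1'⟩ := hM3 b hb
    rw [hPP] at hw1
    have h3 : V.valuation ((w : ℂ) - (w' : ℂ)) < 1 := by
      have e : (w : ℂ) - (w' : ℂ) = (jInv (P b) - (w' : ℂ)) - (jInv (P b) - (w : ℂ)) := by ring
      rw [e]
      exact (V.valuation.map_sub _ _).trans_lt (max_lt hw1' hw1)
    rw [← hw, ← hw']
    exact (res_eq_iff _ _).2 h3
  have hcard : (T.image f).card = T.card := Finset.card_image_of_injOn hinj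
  rw [← hcard]
  apply hC p hp hp2 s hs (t ^ 2 - 4 * (p : ℤ) ^ s) hD
  intro x hx
  obtain ⟨v, hv, rfl⟩ := Finset.mem_image.1 hx
  simp only [hf]
  refine ⟨?_, hM6 v hv, hM7 v hv, hM8 v hv, ?_, ?_⟩
  · have := hM1 v hv
    rw [Matrix.det_fin_two] at this
    exact this
  · have := hM4 v hv
    rw [Matrix.trace_fin_two] at this
    exact this
  · have := hM5 v hv
    rw [Matrix.trace_fin_two] at this
    exact this

end Pool.Agent.ZPF
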