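import Mathlib
import Pool.Agent.ZPF.DensAux
import Pool.Agent.ZPF.IsoCount
import Pool.Agent.ZPF.EvRank
import Pool.Agent.ZPF.GoodB

/-!
The bad events modulo a prime, and their proportions.
-/

namespace Pool.Agent.ZPF

open Pool.Agent.Lib.ModularZP Pool.Agent.ZPOrd Pool.Agent.ZP46 Finset

/-- indices of the coefficients -/
abbrev Ix (n m d e : ℕ) := Fin n × Cf m d e

section events

variable {m d e n : ℕ} (f : Fin (e + 1) → Polynomial ℂ) {p : ℕ} [Fact p.Prime] {V : ValuationSubring ℂ}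
  (ψ : ZMod p →+* IsLocalRing.ResidueField V) (r : ℂ → ZMod p) (dd : ZMod p → ℤ)

/-- the value at the point `η` at infinity of the coordinate `j` -/
def iv (v : Ix n m d e → ZMod p) (j : Fin n) (η : ZMod p) : ZMod p :=
  (∑ b : Fin (e + 1), v (j, Sum.inl ⟨b, Fin.last _⟩) * η ^ (b : ℕ)) / v (j, Sum.inr (Fin.last d))

/-- the value of the denominator of the coordinate `j` -/
noncomputable def dv (v : Ix n m d e → ZMod p) (j : Fin n) (z : IsLocalRing.ResidueField V) : IsLocalRing.ResidueField V :=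
  denP (fun s => ψ (v (j, s))) z

/-- the value of the coordinate `j` -/
noncomputable def xv (v : Ix n m d e → ZMod p) (j : Fin n) (z w : IsLocalRing.ResidueField V) : IsLocalRing.ResidueField V :=
  numP (fun s => ψ (v (j, s))) z w / denP (fun s => ψ (v (j, s))) z

/-- the coefficients of the equation of the curve -/
noncomputable def hv (b : Fin (e + 1)) (z : IsLocalRing.ResidueField V) : IsLocalRing.ResidueField V :=
  (f b).sum fun a u => ψ (r u) * z ^ a

/-- the conditions for the coordinates in `I` -/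
structure PF (Δ : Finset ℤ) (I : Fin n → Prop) (v : Ix n m d e → ZMod p) : Prop where
  lead : ∀ j, v (j, Sum.inr (Fin.last d)) ≠ 0
  coprime : ∀ j k, I j → I k → j ≠ k → ∀ z, dv ψ v j z = 0 → dv ψ v k z ≠ 0
  ordInf : ∀ η, InfRoot f p m r η → ∀ j, I j → dd (iv v j η) ≠ 0
  del : ∀ η, InfRoot f p m r η → ∀ j, I j → ∀ D ∈ Δ, ¬ IsSquare (D * dd (iv v j η))
  crossInf : ∀ η, InfRoot f p m r η → ∀ j k, I j → I k → j ≠ k → ¬ IsSquare (dd (iv v j η) * dd (iv v k η))
  four : ∀ j k l, I j → I k → I l → j ≠ k → j ≠ l → k ≠ l → ∀ z w, dv ψ v j z = 0 →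
    w ^ (e + 1) = ∑ b : Fin (e + 1), hv f ψ r b z * w ^ (b : ℕ) → ¬ IsoV V (xv ψ v k z w) (xv ψ v l z w)

variable {f ψ r dd} in
lemma PF_of {Δ : Finset ℤ} {i : Fin n} {t : Mo m d e} (v v' : Ix n m d e → ZMod p)
    (hv : ∀ s, s ≠ (i, Sum.inl t) → v s = v' s) (h : PF f ψ r dd Δ (fun _ => True) v) :
    PF f ψ r dd Δ (fun j => j ≠ i) v' := by
  have e1 : ∀ j, j ≠ i → ∀ s, v (j, s) = v' (j, s) := fun j hj s => hv _ fun h => hj (Prod.ext_iff.mp h).1
  have e2 : ∀ j, j ≠ i → ∀ z, dv ψ v' j z = dv ψ v j z := fun j hj z => by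
    unfold dv
    simp only [e1 j hj]
  have e3 : ∀ j, j ≠ i → ∀ z w, xv ψ v' j z w = xv ψ v j z w := fun j hj z w => by
    unfold xv
    simp only [e1 j hj]
  have e4 : ∀ j, j ≠ i → ∀ η, iv v' j η = iv v j η := fun j hj η => by
    unfold iv
    simp only [e1 j hj]
  refine ⟨fun j => ?_, ?_, ?_, ?_, ?_, ?_⟩
  · rw [← hv _ (by simp)]
    exact h.lead j
  · intro j k hj hk hjk z
    rw [e2 j hj, e2 k hk]
    exact h.coprime j k trivial trivial hjk z
  · intro η hη j hj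
    rw [e4 j hj]
    exact h.ordInf η hη j trivial
  · intro η hη j hj
    rw [e4 j hj]
    exact h.del η hη j trivial
  · intro η hη j k hj hk hjk
    rw [e4 j hj, e4 k hk]
    exact h.crossInf η hη j k trivial trivial hjk
  · intro j k l hj hk hl hjk hjl hkl z w
    rw [e2 j hj, e3 k hk, e3 l hl]
    exact h.four j k l trivial trivial trivial hjk hjl hkl z w

open Classical in
/-- the points at infinity -/
noncomputable def RI (f : Fin (e + 1) → Polynomial ℂ) (p : ℕ) [Fact p.Prime] (m : ℕ) (r : ℂ → ZMod p) : Finset (ZMod p) :=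
  (univ : Finset (ZMod p)).filter fun η => InfRoot f p m r η

lemma mem_RI {η : ZMod p} : η ∈ RI f p m r ↔ InfRoot f p m r η := by
  classical
  unfold RI
  rw [mem_filter]
  exact ⟨fun h => h.2, fun h => ⟨mem_univ _, h⟩⟩

lemma card_RI : (RI f p m r).card ≤ e + 1 := by
  classical
  set g : Polynomial (ZMod p) := Polynomial.X ^ (e + 1) -
    ∑ b : Fin (e + 1), Polynomial.C (r ((f b).coeff (m * (e + 1 - (b : ℕ))))) * Polynomial.X ^ (b : ℕ) with hg
  have hdeg : (∑ b : Fin (e + 1), Polynomial.C (r ((f b).coeff (m * (e + 1 - (b : ℕ))))) *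
      Polynomial.X ^ (b : ℕ)).degree < ((e + 1 : ℕ) : WithBot ℕ) := by
    refine lt_of_le_of_lt (Polynomial.degree_sum_le _ _) ?_
    rw [Finset.sup_lt_iff (by exact WithBot.bot_lt_coe _)]
    intro b _
    refine lt_of_le_of_lt (Polynomial.degree_C_mul_X_pow_le _ _) ?_
    exact_mod_cast b.2
  have hmon : g.Monic := Polynomial.monic_X_pow_sub hdeg
  have hsub : RI f p m r ⊆ g.roots.toFinset := by
    intro η hη
    rw [mem_RI] at hη
    rw [Multiset.mem_toFinset, Polynomial.mem_roots hmon.ne_zero, Polynomial.IsRoot.def, hg, Polynomial.eval_sub,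
      Polynomial.eval_pow, Polynomial.eval_X, Polynomial.eval_finsetSum, sub_eq_zero]
    rw [InfRoot] at hη
    rw [hη]
    exact sum_congr rfl fun b _ => by simp
  refine (card_le_card hsub).trans ((Multiset.toFinset_card_le _).trans ((Polynomial.card_roots' _).trans ?_))
  refine Polynomial.natDegree_le_iff_degree_le.mpr ?_
  refine (Polynomial.degree_sub_le _ _).trans (max_le ?_ hdeg.le)
  rw [Polynomial.degree_X_pow]

/-- the denominator of the coordinate `j` is irreducible of the right degree -/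
def GB (v : Ix n m d e → ZMod p) (j : Fin n) : Prop := v (j, Sum.inr (Fin.last d)) ≠ 0 ∧
  Irreducible (∑ a : Fin (d + 1), Polynomial.C (v (j, Sum.inr a)) * Polynomial.X ^ (a : ℕ))

/-- indices of the bad events -/
abbrev EvF (n : ℕ) {e : ℕ} (f : Fin (e + 1) → Polynomial ℂ) (p : ℕ) [Fact p.Prime] (m : ℕ) (r : ℂ → ZMod p)
    (Δ : Finset ℤ) : Type :=
  (Fin n × Fin n) ⊕ ((Fin n × ↥(RI f p m r) × Option ↥Δ) ⊕ ((Fin n × Fin n × ↥(RI f p m r)) ⊕
    ((Fin n × Fin n) ⊕ (Fin n × Fin n × Fin n))))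

/-- the bad events -/
def BadF (Δ : Finset ℤ) : EvF n f p m r Δ → (Ix n m d e → ZMod p) → Prop
  | Sum.inl (j, k), v => j ≠ k ∧ v (k, Sum.inr (Fin.last d)) ≠ 0 ∧
      v (j, Sum.inr 0) * v (k, Sum.inr (Fin.last d)) = v (k, Sum.inr 0) * v (j, Sum.inr (Fin.last d))
  | Sum.inr (Sum.inl (j, η, D)), v => v (j, Sum.inr (Fin.last d)) ≠ 0 ∧
      (dd (iv v j η) = 0 ∨ IsSquare ((D.elim 1 fun D => (D : ℤ)) * dd (iv v j η)))
  | Sum.inr (Sum.inr (Sum.inl (j, k, η))), v => j ≠ k ∧ v (j, Sum.inr (Fin.last d)) ≠ 0 ∧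
      dd (iv v k η) ≠ 0 ∧ IsSquare (dd (iv v k η) * dd (iv v j η))
  | Sum.inr (Sum.inr (Sum.inr (Sum.inl (j, k)))), v => j ≠ k ∧ GB v j ∧ ∃ z w, dv ψ v j z = 0 ∧
      w ^ (e + 1) = ∑ b : Fin (e + 1), hv f ψ r b z * w ^ (b : ℕ) ∧ dv ψ v k z ≠ 0 ∧
      xv ψ v k z w ^ (p ^ 2) = xv ψ v k z w
  | Sum.inr (Sum.inr (Sum.inr (Sum.inr (j, k, l)))), v => j ≠ l ∧ k ≠ l ∧ GB v j ∧ ∃ z w, dv ψ v j z = 0 ∧
      w ^ (e + 1) = ∑ b : Fin (e + 1), hv f ψ r b z * w ^ (b : ℕ) ∧ dv ψ v l z ≠ 0 ∧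
      xv ψ v k z w ^ (p ^ 2) ≠ xv ψ v k z w ∧ xv ψ v l z w ^ (p ^ 2) ≠ xv ψ v l z w ∧
      IsoV V (xv ψ v k z w) (xv ψ v l z w)

lemma exists_badF (Δ : Finset ℤ) (v : Ix n m d e → ZMod p) (hG : ∀ j, GB v j)
    (hv : ¬ PF f ψ r dd Δ (fun _ => True) v) : ∃ b, BadF f ψ r dd Δ b v := by
  by_contra hcon
  push Not at hcon
  apply hv
  have h1 : ∀ j, v (j, Sum.inr (Fin.last d)) ≠ 0 := fun j => (hG j).1
  have hcop : ∀ j k, j ≠ k → ∀ z, dv ψ v j z = 0 → dv ψ v k z ≠ 0 := by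
    intro j k hjk z hz hz'
    refine hcon (Sum.inl (j, k)) ⟨hjk, h1 k, ?_⟩
    exact common_root ψ (hG j).2 (hG k).2 hz hz'
  have h2 : ∀ η, InfRoot f p m r η → ∀ j, ∀ D : Option ↥Δ,
      ¬ (dd (iv v j η) = 0 ∨ IsSquare ((D.elim 1 fun D => (D : ℤ)) * dd (iv v j η))) := fun η hη j D h =>
    hcon (Sum.inr (Sum.inl (j, ⟨η, (mem_RI f r).mpr hη⟩, D))) ⟨h1 j, h⟩
  have h3 : ∀ η, InfRoot f p m r η → ∀ j, dd (iv v j η) ≠ 0 := fun η hη j h => h2 η hη j none (Or.inl h)
  refine ⟨h1, fun j k _ _ => hcop j k, fun η hη j _ => h3 η hη j, ?_, ?_, ?_⟩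
  · intro η hη j _ D hD h
    exact h2 η hη j (some ⟨D, hD⟩) (Or.inr h)
  · intro η hη j k _ _ hjk h
    refine hcon (Sum.inr (Sum.inr (Sum.inl (j, k, ⟨η, (mem_RI f r).mpr hη⟩)))) ⟨hjk, h1 j, h3 η hη k, ?_⟩
    rwa [mul_comm]
  · intro j k l _ _ _ hjk hjl hkl z w hz hw hiso
    have k1 := hcop j k hjk z hz
    have k2 := hcop j l hjl z hz
    have k3 : xv ψ v k z w ^ (p ^ 2) ≠ xv ψ v k z w := fun h =>
      hcon (Sum.inr (Sum.inr (Sum.inr (Sum.inl (j, k))))) ⟨hjk, hG j, z, w, hz, hw, k1, h⟩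
    have k4 : xv ψ v l z w ^ (p ^ 2) ≠ xv ψ v l z w := fun h =>
      hcon (Sum.inr (Sum.inr (Sum.inr (Sum.inl (j, l))))) ⟨hjl, hG j, z, w, hz, hw, k2, h⟩
    exact hcon (Sum.inr (Sum.inr (Sum.inr (Sum.inr (j, k, l))))) ⟨hjl, hkl, hG j, z, w, hz, hw, k2, k3, k4, hiso⟩

end events

section small

variable {m d e n : ℕ} (f : Fin (e + 1) → Polynomial ℂ) {p : ℕ} [Fact p.Prime] {V : ValuationSubring ℂ}
  (ψ : ZMod p →+* IsLocalRing.ResidueField V) (r : ℂ → ZMod p) (dd : ZMod p → ℤ)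

/-- the block of the numerator of the coordinate `l` -/
def bl (l : Fin n) (t : Mo m d e) : Ix n m d e := (l, Sum.inl t)

lemma bl_injective (l : Fin n) : Function.Injective (bl (m := m) (d := d) (e := e) l) := by
  intro t t' h
  exact Sum.inl.inj (Prod.ext_iff.mp h).2

lemma ext_inl (l : Fin n) (A : Mo m d e → ZMod p) (v : Ix n m d e → ZMod p) (t : Mo m d e) :
    Function.extend (bl l) A v (l, Sum.inl t) = A t := (bl_injective l).extend_apply A v t

lemma ext_inr (l : Fin n) (A : Mo m d e → ZMod p) (v : Ix n m d e → ZMod p) (j : Fin n) (a : Fin (d + 1)) :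
    Function.extend (bl l) A v (j, Sum.inr a) = v (j, Sum.inr a) := by
  refine Function.extend_apply' _ _ _ ?_
  rintro ⟨t, ht⟩
  simp [bl] at ht

lemma ext_ne {l k : Fin n} (h : k ≠ l) (A : Mo m d e → ZMod p) (v : Ix n m d e → ZMod p) (s : Cf m d e) :
    Function.extend (bl l) A v (k, s) = v (k, s) := by
  refine Function.extend_apply' _ _ _ ?_
  rintro ⟨t, ht⟩
  exact h (Prod.ext_iff.mp ht).1.symm

lemma ext_dv (l : Fin n) (A : Mo m d e → ZMod p) (v : Ix n m d e → ZMod p) (j : Fin n)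
    (z : IsLocalRing.ResidueField V) : dv ψ (Function.extend (bl l) A v) j z = dv ψ v j z := by
  unfold dv denP
  simp only [ext_inr]

lemma ext_xv_ne {l k : Fin n} (h : k ≠ l) (A : Mo m d e → ZMod p) (v : Ix n m d e → ZMod p)
    (z w : IsLocalRing.ResidueField V) : xv ψ (Function.extend (bl l) A v) k z w = xv ψ v k z w := by
  unfold xv
  simp only [ext_ne h]

lemma ext_xv (l : Fin n) (A : Mo m d e → ZMod p) (v : Ix n m d e → ZMod p)
    (z w : IsLocalRing.ResidueField V) : xv ψ (Function.extend (bl l) A v) l z w =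
      (∑ t : Mo m d e, ψ (A t) * z ^ (t.2 : ℕ) * w ^ (t.1 : ℕ)) / dv ψ v l z := by
  have h1 := ext_dv ψ l A v l z
  unfold xv numP
  unfold dv at h1
  rw [h1]
  simp only [ext_inl]
  rfl

lemma ext_GB (l : Fin n) (A : Mo m d e → ZMod p) (v : Ix n m d e → ZMod p) (j : Fin n) :
    GB (Function.extend (bl l) A v) j ↔ GB v j := by
  unfold GB
  simp only [ext_inr]

/-- the denominator of the coordinate `j` as a polynomial over the residue field -/
noncomputable def qj (v : Ix n m d e → ZMod p) (j : Fin n) : Polynomial (IsLocalRing.ResidueField V) :=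
  (∑ a : Fin (d + 1), Polynomial.C (v (j, Sum.inr a)) * Polynomial.X ^ (a : ℕ)).map ψ

lemma qj_eval (v : Ix n m d e → ZMod p) (j : Fin n) (z : IsLocalRing.ResidueField V) :
    (qj ψ v j).eval z = dv ψ v j z := by
  unfold qj dv denP
  rw [Polynomial.eval_map, Polynomial.eval₂_finsetSum]
  exact sum_congr rfl fun a _ => by simp

lemma qj_ne {v : Ix n m d e → ZMod p} {j : Fin n} (h : GB v j) : qj ψ v j ≠ 0 := by
  unfold qj
  rw [Polynomial.map_ne_zero_iff ψ.injective]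
  exact h.2.ne_zero

lemma qj_deg (v : Ix n m d e → ZMod p) (j : Fin n) : (qj ψ v j).natDegree ≤ d := by
  unfold qj
  refine Polynomial.natDegree_map_le.trans ?_
  refine Polynomial.natDegree_sum_le_of_forall_le _ _ fun k _ => ?_
  refine (Polynomial.natDegree_C_mul_X_pow_le _ _).trans ?_
  have := k.2
  omega

/-- the coefficients of the equation of the curve as polynomials -/
noncomputable def gP (f : Fin (e + 1) → Polynomial ℂ) (r : ℂ → ZMod p) (b : Fin (e + 1)) : Polynomial (ZMod p) :=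
  ∑ a ∈ (f b).support, Polynomial.C (r ((f b).coeff a)) * Polynomial.X ^ a

lemma gP_eval (b : Fin (e + 1)) (z : IsLocalRing.ResidueField V) : (gP f r b).eval₂ ψ z = hv f ψ r b z := by
  unfold gP hv Polynomial.sum
  rw [Polynomial.eval₂_finsetSum]
  exact sum_congr rfl fun a _ => by simp

open Classical in
/-- the elements of the field with `p ^ s` elements -/
noncomputable def Fq (V : ValuationSubring ℂ) (p s : ℕ) : Finset (IsLocalRing.ResidueField V) :=
  (Polynomial.X ^ (p ^ s) - Polynomial.X : Polynomial (IsLocalRing.ResidueField V)).roots.toFinset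

lemma mem_Fq {s : ℕ} (hs : 0 < s) {x : IsLocalRing.ResidueField V} (p : ℕ) [Fact p.Prime] : x ∈ Fq V p s ↔ x ^ (p ^ s) = x := by
  have h1 : 1 < p ^ s := Nat.one_lt_pow (by omega) (Fact.out : p.Prime).one_lt
  have hne : (Polynomial.X ^ (p ^ s) - Polynomial.X : Polynomial (IsLocalRing.ResidueField V)) ≠ 0 :=
    FiniteField.X_pow_card_sub_X_ne_zero _ h1
  classical
  unfold Fq
  rw [Multiset.mem_toFinset, Polynomial.mem_roots hne, Polynomial.IsRoot.def, Polynomial.eval_sub,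
    Polynomial.eval_pow, Polynomial.eval_X, sub_eq_zero]

lemma card_Fq {s : ℕ} (hs : 0 < s) (p : ℕ) [Fact p.Prime] : (Fq V p s).card ≤ p ^ s := by
  have h1 : 1 < p ^ s := Nat.one_lt_pow (by omega) (Fact.out : p.Prime).one_lt
  classical
  unfold Fq
  refine (Multiset.toFinset_card_le _).trans ((Polynomial.card_roots' _).trans ?_)
  rw [FiniteField.X_pow_card_sub_X_natDegree_eq _ h1]

/-- the value is in the field with `p ^ 2` elements -/
def P1 (v : Ix n m d e → ZMod p) (k : Fin n) (z w : IsLocalRing.ResidueField V) (A : Mo m d e → ZMod p) : Prop :=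
  dv ψ v k z ≠ 0 ∧ ((∑ t : Mo m d e, ψ (A t) * z ^ (t.2 : ℕ) * w ^ (t.1 : ℕ)) / dv ψ v k z) ^ (p ^ 2) =
    (∑ t : Mo m d e, ψ (A t) * z ^ (t.2 : ℕ) * w ^ (t.1 : ℕ)) / dv ψ v k z

/-- the values are isogenous -/
def P2 (v : Ix n m d e → ZMod p) (k l : Fin n) (z w : IsLocalRing.ResidueField V) (A : Mo m d e → ZMod p) : Prop :=
  dv ψ v l z ≠ 0 ∧ xv ψ v k z w ^ (p ^ 2) ≠ xv ψ v k z w ∧
    ((∑ t : Mo m d e, ψ (A t) * z ^ (t.2 : ℕ) * w ^ (t.1 : ℕ)) / dv ψ v l z) ^ (p ^ 2) ≠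
    (∑ t : Mo m d e, ψ (A t) * z ^ (t.2 : ℕ) * w ^ (t.1 : ℕ)) / dv ψ v l z ∧
    IsoV V (xv ψ v k z w) ((∑ t : Mo m d e, ψ (A t) * z ^ (t.2 : ℕ) * w ^ (t.1 : ℕ)) / dv ψ v l z)

open Classical in
/-- events of type four: the values in the field with `p ^ 2` elements -/
lemma small_one (hd3 : 3 ≤ d) (hmd : 2 * (m * e) ≤ d) (j k : Fin n) (Δ : Finset ℤ) :
    (((univ : Finset (Ix n m d e → ZMod p)).filter
      (BadF f ψ r dd Δ (Sum.inr (Sum.inr (Sum.inr (Sum.inl (j, k))))))).card : ℝ) ≤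
      (d * (e + 1) * (1 / p)) * (p : ℝ) ^ Fintype.card (Ix n m d e) := by
  have hp0 : 0 < p := (Fact.out : p.Prime).pos
  have hpR : (0 : ℝ) < p := Nat.cast_pos.mpr hp0
  set M := Fintype.card (Mo m d e) with hM
  have hkey := block_count (bl (m := m) (d := d) (e := e) k) (bl_injective k) (BadF f ψ r dd Δ (Sum.inr (Sum.inr (Sum.inr (Sum.inl (j, k))))))
    (d * (e + 1) * ((p : ℝ) ^ M / p)) ?_
  · have hpM : (0 : ℝ) < (p : ℝ) ^ M := by positivity
    refine le_of_mul_le_mul_right (hkey.trans (le_of_eq ?_)) hpM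
    ring
  · intro v
    have h0 : (0 : ℝ) ≤ d * (e + 1) * ((p : ℝ) ^ M / p) := by positivity
    by_cases hj : j ≠ k ∧ GB v j
    · refine le_trans ?_ (zw_union (ν := Mo m d e) (qj ψ v j) (qj_ne ψ hj.2) (qj_deg ψ v j) (hv f ψ r)
        (P1 ψ v k)
        ((p : ℝ) ^ M / p) (by positivity) ?_)
      · refine Nat.cast_le.mpr (card_le_card ?_)
        intro A hA
        rw [mem_filter] at hA ⊢
        obtain ⟨_, _, _, z, w, h1, h2, h3, h4⟩ := hA
        rw [ext_dv] at h1 h3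
        rw [ext_xv] at h4
        exact ⟨mem_univ _, z, w, by rw [qj_eval]; exact h1, h2, h3, h4⟩
      · intro z w hz hw
        rw [qj_eval] at hz
        obtain ⟨s, r', hs0, hs1, hr1, hr2, hzs, hws, hT⟩ := evRank ψ (by omega : 1 ≤ d) hmd hj.2.1 hj.2.2 hz (gP f r)
          (by rw [hw]; exact sum_congr rfl fun b _ => by rw [gP_eval])
        by_cases hdk : dv ψ v k z = 0
        · rw [filter_eq_empty_iff.mpr fun A _ hA => hA.1 hdk]
          simp only [card_empty, Nat.cast_zero]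
          positivity
        have h1 := hT ((Fq V p 2).image fun x => x * dv ψ v k z)
        have h2 : ((univ : Finset (Mo m d e → ZMod p)).filter fun A => P1 ψ v k z w A).card ≤
            ((univ : Finset (Mo m d e → ZMod p)).filter fun A =>
              (∑ t : Mo m d e, ψ (A t) * z ^ (t.2 : ℕ) * w ^ (t.1 : ℕ)) ∈ (Fq V p 2).image fun x => x * dv ψ v k z).card := by
          refine card_le_card fun A hA => ?_
          rw [mem_filter] at hA ⊢
          refine ⟨hA.1, mem_image.mpr ⟨_, (mem_Fq (by norm_num) p).mpr hA.2.2, ?_⟩⟩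
          rw [div_mul_cancel₀ _ hdk]
        have h3 : ((Fq V p 2).image fun x => x * dv ψ v k z).card ≤ p ^ 2 :=
          card_image_le.trans (card_Fq (by norm_num) p)
        set N1 := ((univ : Finset (Mo m d e → ZMod p)).filter fun A => P1 ψ v k z w A).card with hN1
        have h4 : N1 * p ^ 3 ≤ p ^ 2 * p ^ M := by
          calc N1 * p ^ 3 ≤ N1 * p ^ r' := Nat.mul_le_mul_left _ (Nat.pow_le_pow_right hp0 (by omega))
            _ ≤ _ := (Nat.mul_le_mul_right _ h2).trans (h1.trans (Nat.mul_le_mul_right _ h3))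
        have h5 : N1 * p ≤ p ^ M := by
          have : p ^ 2 * (N1 * p) ≤ p ^ 2 * p ^ M := by
            calc _ = N1 * p ^ 3 := by ring
              _ ≤ _ := h4
          exact Nat.le_of_mul_le_mul_left this (by positivity)
        rw [le_div_iff₀ hpR]
        exact_mod_cast h5
    · rw [filter_eq_empty_iff.mpr]
      · simp only [card_empty, Nat.cast_zero]
        exact h0
      · intro A _ hA
        exact hj ⟨hA.1, (ext_GB k A v j).mp hA.2.1⟩

open Classical in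
/-- events of type four: isogenous values -/
lemma small_two (hd3 : 3 ≤ d) (hmd : 2 * (m * e) ≤ d) (j k l : Fin n) (Δ : Finset ℤ) (C : ℝ) (hC : 0 < C)
    (hiso : ∀ s : ℕ, 0 < s → ∀ u : IsLocalRing.ResidueField V, u ^ (p ^ s) = u → u ^ (p ^ 2) ≠ u →
    ∀ T : Finset (IsLocalRing.ResidueField V), (∀ v ∈ T, v ^ (p ^ s) = v ∧ v ^ (p ^ 2) ≠ v ∧ IsoV V u v) →
      (T.card : ℝ) ≤ C * ((p : ℝ) ^ s) ^ (1 / 2 + 1 / (4 * ((e : ℝ) + 1)))) :
    (((univ : Finset (Ix n m d e → ZMod p)).filter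
      (BadF f ψ r dd Δ (Sum.inr (Sum.inr (Sum.inr (Sum.inr (j, k, l))))))).card : ℝ) ≤
      (d * (e + 1) * (C * (p : ℝ) ^ (-(3 / 4) : ℝ))) * (p : ℝ) ^ Fintype.card (Ix n m d e) := by
  have hp0 : 0 < p := (Fact.out : p.Prime).pos
  have hp1 : 1 < p := (Fact.out : p.Prime).one_lt
  have hpR : (0 : ℝ) < p := Nat.cast_pos.mpr hp0
  have hp1R : (1 : ℝ) ≤ p := by exact_mod_cast hp1.le
  set M := Fintype.card (Mo m d e) with hM
  have hkey := block_count (bl (m := m) (d := d) (e := e) l) (bl_injective l) (BadF f ψ r dd Δ (Sum.inr (Sum.inr (Sum.inr (Sum.inr (j, k, l))))))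
    (d * (e + 1) * (C * (p : ℝ) ^ (-(3 / 4) : ℝ) * (p : ℝ) ^ M)) ?_
  · have hpM : (0 : ℝ) < (p : ℝ) ^ M := by positivity
    refine le_of_mul_le_mul_right (hkey.trans (le_of_eq ?_)) hpM
    ring
  · intro v
    have h0 : (0 : ℝ) ≤ d * (e + 1) * (C * (p : ℝ) ^ (-(3 / 4) : ℝ) * (p : ℝ) ^ M) := by positivity
    by_cases hj : j ≠ l ∧ k ≠ l ∧ GB v j
    · obtain ⟨hjl, hkl, hGB⟩ := hj
      refine le_trans ?_ (zw_union (ν := Mo m d e) (qj ψ v j) (qj_ne ψ hGB) (qj_deg ψ v j) (hv f ψ r)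
        (P2 ψ v k l)
        (C * (p : ℝ) ^ (-(3 / 4) : ℝ) * (p : ℝ) ^ M) (by positivity) ?_)
      · refine Nat.cast_le.mpr (card_le_card ?_)
        intro A hA
        rw [mem_filter] at hA ⊢
        obtain ⟨_, _, _, _, z, w, h1, h2, h3, h4, h5, h6⟩ := hA
        rw [ext_dv] at h1 h3
        rw [ext_xv_ne ψ hkl] at h4 h6
        rw [ext_xv] at h5 h6
        exact ⟨mem_univ _, z, w, by rw [qj_eval]; exact h1, h2, h3, h4, h5, h6⟩
      · intro z w hz hw
        rw [qj_eval] at hz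
        obtain ⟨s, r', hs0, hs1, hr1, hr2, hzs, hws, hT⟩ := evRank ψ (by omega : 1 ≤ d) hmd hGB.1 hGB.2 hz (gP f r)
          (by rw [hw]; exact sum_congr rfl fun b _ => by rw [gP_eval])
        have hpos : (0 : ℝ) ≤ C * (p : ℝ) ^ (-(3 / 4) : ℝ) * (p : ℝ) ^ M := by positivity
        by_cases hdl : dv ψ v l z = 0
        · rw [filter_eq_empty_iff.mpr fun A _ hA => hA.1 hdl]
          simpa using hpos
        by_cases hu : xv ψ v k z w ^ (p ^ 2) = xv ψ v k z w
        · rw [filter_eq_empty_iff.mpr fun A _ hA => hA.2.1 hu]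
          simpa using hpos
        set T' : Finset (IsLocalRing.ResidueField V) := (Fq V p s).filter fun x => x ^ (p ^ 2) ≠ x ∧ IsoV V (xv ψ v k z w) x with hT'
        have hT'c : (T'.card : ℝ) ≤ C * ((p : ℝ) ^ s) ^ (1 / 2 + 1 / (4 * ((e : ℝ) + 1))) := by
          refine hiso s hs0 (xv ψ v k z w) (frob_val ψ (fun t => v (k, t)) hzs hws) hu T' ?_
          intro x hx
          rw [hT', mem_filter] at hx
          exact ⟨(mem_Fq hs0 p).mp hx.1, hx.2.1, hx.2.2⟩
        have h1 := hT (T'.image fun x => x * dv ψ v l z)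
        set N1 := ((univ : Finset (Mo m d e → ZMod p)).filter fun A => P2 ψ v k l z w A).card with hN1
        have h2 : N1 ≤ ((univ : Finset (Mo m d e → ZMod p)).filter fun A =>
              (∑ t : Mo m d e, ψ (A t) * z ^ (t.2 : ℕ) * w ^ (t.1 : ℕ)) ∈ T'.image fun x => x * dv ψ v l z).card := by
          refine card_le_card fun A hA => ?_
          rw [mem_filter] at hA ⊢
          refine ⟨hA.1, mem_image.mpr ⟨_, ?_, div_mul_cancel₀ _ hdl⟩⟩
          rw [hT', mem_filter]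
          refine ⟨(mem_Fq hs0 p).mpr ?_, hA.2.2.2.1, hA.2.2.2.2⟩
          have h3 := frob_val ψ (fun t => Function.extend (bl l) A v (l, t)) hzs hws
          have h4 := ext_xv ψ l A v z w
          unfold xv at h4
          rwa [h4] at h3
        have h3 : (T'.image fun x => x * dv ψ v l z).card ≤ T'.card := card_image_le
        have h4 : (N1 : ℝ) * (p : ℝ) ^ r' ≤ C * ((p : ℝ) ^ s) ^ (1 / 2 + 1 / (4 * ((e : ℝ) + 1))) * (p : ℝ) ^ M := by
          have h5 : N1 * p ^ r' ≤ T'.card * p ^ M :=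
            (Nat.mul_le_mul_right _ h2).trans (h1.trans (Nat.mul_le_mul_right _ h3))
          calc (N1 : ℝ) * (p : ℝ) ^ r' ≤ (T'.card : ℝ) * (p : ℝ) ^ M := by exact_mod_cast h5
            _ ≤ _ := mul_le_mul_of_nonneg_right hT'c (by positivity)
        have h5 : ((p : ℝ) ^ s) ^ (1 / 2 + 1 / (4 * ((e : ℝ) + 1))) ≤ (p : ℝ) ^ (-(3 / 4) : ℝ) * (p : ℝ) ^ r' := by
          rw [← Real.rpow_natCast, ← Real.rpow_natCast, ← Real.rpow_mul hpR.le, ← Real.rpow_add hpR]
          refine Real.rpow_le_rpow_of_exponent_le hp1R ?_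
          have he1 : (0 : ℝ) < (e : ℝ) + 1 := by positivity
          have k1 : (s : ℝ) ≤ d * ((e : ℝ) + 1) := by exact_mod_cast hs1
          have k2 : (s : ℝ) + d ≤ 2 * r' := by exact_mod_cast hr2
          have k3 : (3 : ℝ) ≤ d := by exact_mod_cast hd3
          have k4 : (s : ℝ) * (1 / (4 * ((e : ℝ) + 1))) ≤ d / 4 := by
            rw [mul_one_div, div_le_div_iff₀ (by positivity) (by norm_num)]
            nlinarith
          nlinarith
        have hpr : (0 : ℝ) < (p : ℝ) ^ r' := by positivity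
        refine le_of_mul_le_mul_right (h4.trans ?_) hpr
        calc C * ((p : ℝ) ^ s) ^ (1 / 2 + 1 / (4 * ((e : ℝ) + 1))) * (p : ℝ) ^ M
            ≤ C * ((p : ℝ) ^ (-(3 / 4) : ℝ) * (p : ℝ) ^ r') * (p : ℝ) ^ M := by gcongr
          _ = _ := by ring
    · rw [filter_eq_empty_iff.mpr]
      · simp only [card_empty, Nat.cast_zero]
        exact h0
      · intro A _ hA
        exact hj ⟨hA.1, hA.2.1, (ext_GB l A v j).mp hA.2.2.1⟩

end small

end Pool.Agent.ZPF
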