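import Mathlib
import Pool.Agent.ZPF.Events

/-!
Almost all coefficient vectors have two good private primes in every coordinate, with independent
residual discriminants.
-/

open Filter Topology

namespace Pool.Agent.ZPF

open Pool.Agent.Lib.ModularZP Pool.Agent.ZPOrd Pool.Agent.ZP46 Finset

section small

variable {m d e n : ℕ} (f : Fin (e + 1) → Polynomial ℂ) {p : ℕ} [Fact p.Prime] {V : ValuationSubring ℂ}
  (ψ : ZMod p →+* IsLocalRing.ResidueField V) (r : ℂ → ZMod p) (dd : ZMod p → ℤ)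

lemma iv_upd_ne (v : Ix n m d e → ZMod p) {j k : Fin n} (h : k ≠ j) (s : Cf m d e) (w η : ZMod p) :
    iv (Function.update v (j, s) w) k η = iv v k η := by
  have h1 : ∀ t, Function.update v (j, s) w (k, t) = v (k, t) := fun t =>
    Function.update_of_ne (fun h' => h (Prod.ext_iff.mp h').1) _ _
  unfold iv
  simp only [h1]

lemma iv_upd_inj (v : Ix n m d e → ZMod p) (j : Fin n) (h : v (j, Sum.inr (Fin.last d)) ≠ 0) (η : ZMod p) :
    Function.Injective fun w => iv (Function.update v (j, Sum.inl ⟨0, Fin.last _⟩) w) j η := by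
  intro w w' hw
  have h1 : ∀ w, Function.update v (j, Sum.inl ⟨0, Fin.last _⟩) w (j, Sum.inr (Fin.last d)) = v (j, Sum.inr (Fin.last d)) :=
    fun w => Function.update_of_ne (by simp) _ _
  have h3 : ∀ w, ∑ b : Fin (e + 1), Function.update v (j, Sum.inl ⟨0, Fin.last _⟩) w (j, Sum.inl ⟨b, Fin.last _⟩) * η ^ (b : ℕ) =
      w + ∑ b ∈ univ.erase (0 : Fin (e + 1)), v (j, Sum.inl ⟨b, Fin.last _⟩) * η ^ (b : ℕ) := by
    intro w
    have h4 : w * η ^ ((0 : Fin (e + 1)) : ℕ) = w := by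
      rw [Fin.val_zero, pow_zero, mul_one]
    rw [← add_sum_erase _ _ (mem_univ (0 : Fin (e + 1))), Function.update_self, h4]
    congr 1
    refine sum_congr rfl fun b hb => ?_
    rw [Function.update_of_ne]
    intro h'
    exact ne_of_mem_erase hb (congrArg Sigma.fst (Sum.inl.inj (Prod.ext_iff.mp h').2))
  simp only [iv, h1, h3] at hw
  rw [div_left_inj' h, add_left_inj] at hw
  exact hw

open Classical in
lemma small_easy (hd1 : 1 ≤ d) (Δ : Finset ℤ) (hΔ : ∀ D ∈ Δ, D ≠ 0) (B : ℕ) (hB : 0 < B)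
    (hd : ∀ D : ℤ, D ≠ 0 → ∀ P : ZMod p → Prop, (∀ α, P α → dd α = 0 ∨ IsSquare (D * dd α)) →
      ((univ : Finset (ZMod p)).filter P).card ≤ B)
    (b : (Fin n × Fin n) ⊕ ((Fin n × ↥(RI f p m r) × Option ↥Δ) ⊕ (Fin n × Fin n × ↥(RI f p m r)))) :
    p * ((univ : Finset (Ix n m d e → ZMod p)).filter (BadF f ψ r dd Δ
      (Sum.elim (fun x => Sum.inl x) (fun x => Sum.inr (Sum.elim (fun x => Sum.inl x) (fun x => Sum.inr (Sum.inl x)) x)) b))).card ≤
      B * p ^ Fintype.card (Ix n m d e) := by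
  have hempty : ∀ (P : ZMod p → Prop), (∀ v, ¬ P v) → ((univ : Finset (ZMod p)).filter P).card ≤ B := by
    intro P hP
    rw [filter_eq_empty_iff.mpr fun v _ => hP v]
    simp
  have hsub : ∀ (P Q : ZMod p → Prop), (∀ v, P v → Q v) → ((univ : Finset (ZMod p)).filter Q).card ≤ B →
      ((univ : Finset (ZMod p)).filter P).card ≤ B := by
    intro P Q h hQ
    refine (card_le_card ?_).trans hQ
    intro v hv
    rw [mem_filter] at hv ⊢
    exact ⟨hv.1, h v hv.2⟩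
  rcases b with ⟨j, k⟩ | ⟨j, η, D⟩ | ⟨j, k, η⟩
  · simp only [Sum.elim_inl]
    refine fiber_univ ((j, Sum.inr 0) : Ix n m d e) _ B fun v => ?_
    by_cases hjk : j = k
    · exact hempty _ fun w hw => hw.1 hjk
    have k1 : ∀ w, Function.update v (j, Sum.inr 0) w (k, Sum.inr (Fin.last d)) = v (k, Sum.inr (Fin.last d)) := fun w =>
      Function.update_of_ne (fun h' => hjk (Prod.ext_iff.mp h').1.symm) _ _
    have k2 : ∀ w, Function.update v (j, Sum.inr 0) w (k, Sum.inr 0) = v (k, Sum.inr 0) := fun w =>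
      Function.update_of_ne (fun h' => hjk (Prod.ext_iff.mp h').1.symm) _ _
    have k3 : ∀ w, Function.update v (j, Sum.inr 0) w (j, Sum.inr (Fin.last d)) = v (j, Sum.inr (Fin.last d)) := fun w =>
      Function.update_of_ne (fun h' => by
        have h3 := Sum.inr.inj (Prod.ext_iff.mp h').2
        rw [Fin.ext_iff] at h3
        simp only [Fin.val_last, Fin.val_zero] at h3
        omega) _ _
    refine le_trans (card_le_one.mpr ?_) (Nat.succ_le_of_lt hB)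
    intro w hw w' hw'
    obtain ⟨_, _, a1, a2⟩ := mem_filter.mp hw
    obtain ⟨_, _, a3, a4⟩ := mem_filter.mp hw'
    rw [k1, k2, k3, Function.update_self] at a2 a4
    rw [k1] at a1
    exact mul_right_cancel₀ a1 (a2.trans a4.symm)
  · simp only [Sum.elim_inl, Sum.elim_inr]
    refine fiber_univ ((j, Sum.inl ⟨0, Fin.last _⟩) : Ix n m d e) _ B fun v => ?_
    have hD0 : (D.elim 1 fun D => (D : ℤ)) ≠ 0 := by
      rcases D with _ | D
      · exact one_ne_zero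
      · exact hΔ _ D.2
    by_cases h0 : v (j, Sum.inr (Fin.last d)) = 0
    · refine hempty _ fun w hw => hw.1 ?_
      rw [Function.update_of_ne (by simp), h0]
    · refine hsub _ (fun w => dd (iv (Function.update v (j, Sum.inl ⟨0, Fin.last _⟩) w) j η) = 0 ∨
        IsSquare ((D.elim 1 fun D => (D : ℤ)) * dd (iv (Function.update v (j, Sum.inl ⟨0, Fin.last _⟩) w) j η)))
        (fun w hw => hw.2) ?_
      exact card_inj_le (iv_upd_inj v j h0 η)
        (fun α => dd α = 0 ∨ IsSquare ((D.elim 1 fun D => (D : ℤ)) * dd α)) (hd _ hD0 _ fun _ h => h)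
  · simp only [Sum.elim_inr]
    refine fiber_univ ((j, Sum.inl ⟨0, Fin.last _⟩) : Ix n m d e) _ B fun v => ?_
    by_cases hjk : j = k
    · exact hempty _ fun w hw => hw.1 hjk
    by_cases h0 : v (j, Sum.inr (Fin.last d)) = 0
    · refine hempty _ fun w hw => hw.2.1 ?_
      rw [Function.update_of_ne (by simp), h0]
    by_cases h1 : dd (iv v k η) = 0
    · refine hempty _ fun w hw => hw.2.2.1 ?_
      rw [iv_upd_ne v (Ne.symm hjk), h1]
    · refine hsub _ (fun w => dd (iv (Function.update v (j, Sum.inl ⟨0, Fin.last _⟩) w) j η) = 0 ∨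
        IsSquare (dd (iv v k η) * dd (iv (Function.update v (j, Sum.inl ⟨0, Fin.last _⟩) w) j η)))
        (fun w hw => ?_) ?_
      · have h2 := hw.2.2.2
        rw [iv_upd_ne v (Ne.symm hjk)] at h2
        exact Or.inr h2
      · exact card_inj_le (iv_upd_inj v j h0 η)
          (fun α => dd α = 0 ∨ IsSquare (dd (iv v k η) * dd α)) (hd _ h1 _ fun _ h => h)

open Classical in
lemma badF_small (hd3 : 3 ≤ d) (hmd : 2 * (m * e) ≤ d) (Δ : Finset ℤ) (hΔ : ∀ D ∈ Δ, D ≠ 0) (ε : ℝ) (B : ℕ) (hB : 0 < B)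
    (hBε : (B : ℝ) ≤ ε * p)
    (hd : ∀ D : ℤ, D ≠ 0 → ∀ P : ZMod p → Prop, (∀ α, P α → dd α = 0 ∨ IsSquare (D * dd α)) →
      ((univ : Finset (ZMod p)).filter P).card ≤ B)
    (C : ℝ) (hC : 0 < C)
    (hiso : ∀ s : ℕ, 0 < s → ∀ u : IsLocalRing.ResidueField V, u ^ (p ^ s) = u → u ^ (p ^ 2) ≠ u →
    ∀ T : Finset (IsLocalRing.ResidueField V), (∀ v ∈ T, v ^ (p ^ s) = v ∧ v ^ (p ^ 2) ≠ v ∧ IsoV V u v) →
      (T.card : ℝ) ≤ C * ((p : ℝ) ^ s) ^ (1 / 2 + 1 / (4 * ((e : ℝ) + 1))))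
    (h1 : (d : ℝ) * (e + 1) * (1 / p) ≤ ε) (h2 : (d : ℝ) * (e + 1) * (C * (p : ℝ) ^ (-(3 / 4) : ℝ)) ≤ ε)
    (b : EvF n f p m r Δ) :
    (((univ : Finset (Ix n m d e → ZMod p)).filter (BadF f ψ r dd Δ b)).card : ℝ) ≤
      ε * (p : ℝ) ^ Fintype.card (Ix n m d e) := by
  have hp0 : 0 < p := (Fact.out : p.Prime).pos
  have hpR : (0 : ℝ) < p := Nat.cast_pos.mpr hp0
  have hpN : (0 : ℝ) ≤ (p : ℝ) ^ Fintype.card (Ix n m d e) := by positivity
  have hE : ∀ N1 : ℕ, p * N1 ≤ B * p ^ Fintype.card (Ix n m d e) →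
      (N1 : ℝ) ≤ ε * (p : ℝ) ^ Fintype.card (Ix n m d e) := by
    intro N1 h
    have h3 : (p : ℝ) * N1 ≤ B * (p : ℝ) ^ Fintype.card (Ix n m d e) := by exact_mod_cast h
    have h4 : (p : ℝ) * N1 ≤ p * (ε * (p : ℝ) ^ Fintype.card (Ix n m d e)) := by
      calc (p : ℝ) * N1 ≤ B * (p : ℝ) ^ Fintype.card (Ix n m d e) := h3
        _ ≤ ε * p * (p : ℝ) ^ Fintype.card (Ix n m d e) := mul_le_mul_of_nonneg_right hBε hpN
        _ = _ := by ring
    exact le_of_mul_le_mul_left h4 hpR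
  rcases b with x | x | x | ⟨j, k⟩ | ⟨j, k, l⟩
  · exact hE _ (small_easy f ψ r dd (by omega) Δ hΔ B hB hd (Sum.inl x))
  · exact hE _ (small_easy f ψ r dd (by omega) Δ hΔ B hB hd (Sum.inr (Sum.inl x)))
  · exact hE _ (small_easy f ψ r dd (by omega) Δ hΔ B hB hd (Sum.inr (Sum.inr x)))
  · exact (small_one f ψ r dd hd3 hmd j k Δ).trans (mul_le_mul_of_nonneg_right h1 hpN)
  · exact (small_two f ψ r dd hd3 hmd j k l Δ C hC hiso).trans (mul_le_mul_of_nonneg_right h2 hpN)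

open Classical in
lemma card_PF (hd3 : 3 ≤ d) (hmd : 2 * (m * e) ≤ d) (Δ : Finset ℤ) (hΔ : ∀ D ∈ Δ, D ≠ 0) (ε : ℝ) (hε0 : 0 ≤ ε) (B : ℕ) (hB : 0 < B)
    (hBε : (B : ℝ) ≤ ε * p)
    (hd : ∀ D : ℤ, D ≠ 0 → ∀ P : ZMod p → Prop, (∀ α, P α → dd α = 0 ∨ IsSquare (D * dd α)) →
      ((univ : Finset (ZMod p)).filter P).card ≤ B)
    (C : ℝ) (hC : 0 < C)
    (hiso : ∀ s : ℕ, 0 < s → ∀ u : IsLocalRing.ResidueField V, u ^ (p ^ s) = u → u ^ (p ^ 2) ≠ u →
    ∀ T : Finset (IsLocalRing.ResidueField V), (∀ v ∈ T, v ^ (p ^ s) = v ∧ v ^ (p ^ 2) ≠ v ∧ IsoV V u v) →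
      (T.card : ℝ) ≤ C * ((p : ℝ) ^ s) ^ (1 / 2 + 1 / (4 * ((e : ℝ) + 1))))
    (h1 : (d : ℝ) * (e + 1) * (1 / p) ≤ ε) (h2 : (d : ℝ) * (e + 1) * (C * (p : ℝ) ^ (-(3 / 4) : ℝ)) ≤ ε)
    (hG : p ^ Fintype.card (Ix n m d e) ≤ (4 * d) ^ n *
      ((univ : Finset (Ix n m d e → ZMod p)).filter fun v => ∀ j, GB v j).card)
    (K : ℕ) (hK : Fintype.card (EvF n f p m r Δ) ≤ K) (hKε : 2 * (((4 * d) ^ n : ℕ) : ℝ) * (K * ε) ≤ 1)
    (hp2 : 2 * Fintype.card (Ix n m d e) ≤ p) (i : Fin n) :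
    p ^ (2 * Fintype.card (Ix n m d e)) ≤ 2 * (2 * (4 * d) ^ n) * p *
      ((boxS ((i, Sum.inl ⟨0, 0⟩) : Ix n m d e) p).filter fun x => PF f ψ r dd Δ (fun j => j ≠ i) (vr x)).card := by
  refine card_box_gen (ι := Ix n m d e) (i, Sum.inl ⟨0, 0⟩) (PF f ψ r dd Δ fun _ => True) (PF f ψ r dd Δ fun j => j ≠ i)
    (2 * (4 * d) ^ n) ?_ ?_ hp2
  · intro v v' hv h
    exact PF_of v v' hv h
  · refine union_real (fun v => ∀ j, GB v j) ((4 * d) ^ n) (by convert hG) (BadF f ψ r dd Δ) ε _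
      (fun v hv hv' => exists_badF f ψ r dd Δ v hv hv')
      (badF_small f ψ r dd hd3 hmd Δ hΔ ε B hB hBε hd C hC hiso h1 h2) ?_
    refine le_trans ?_ hKε
    have h3 : ((Fintype.card (EvF n f p m r Δ) : ℕ) : ℝ) ≤ (K : ℝ) := Nat.cast_le.mpr hK
    gcongr

end small

section red

variable {m d e n : ℕ} {f : Fin (e + 1) → Polynomial ℂ} {p : ℕ} [Fact p.Prime] {V : ValuationSubring ℂ}
  {ψ : ZMod p →+* IsLocalRing.ResidueField V} {r : ℂ → ZMod p} {dd : ZMod p → ℤ}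

/-- the coefficient vectors -/
def unF (c : Ix n m d e → ℚ) (i : Fin n) (s : Cf m d e) : ℚ := c (i, s)

lemma unF_injective : Function.Injective (unF : (Ix n m d e → ℚ) → _) := by
  intro c c' h
  funext s
  exact congrFun (congrFun h s.1) s.2

lemma vr_toInt (c : Ix n m d e → ℚ) (j : Fin n) (s : Cf m d e) :
    vr (fun k => (toInt c k : ZMod p)) (j, s) = redQ p (unF c j s) := by
  simp [vr, toInt, redQ, unF]

lemma locF_of (hp2 : p ≠ 2) {Δ : Finset ℤ} {c : Ix n m d e → ℚ} {i : Fin n}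
    (h1 : (fun k => (toInt c k : ZMod p)) ∈ boxS ((i, Sum.inl ⟨0, 0⟩) : Ix n m d e) p)
    (h2 : PF f ψ r dd Δ (fun j => j ≠ i) (vr fun k => (toInt c k : ZMod p))) :
    LocF f p V ψ r dd (unF c) i := by
  rw [mem_boxS] at h1
  obtain ⟨h3, h4, h5⟩ := h1
  simp only [toInt, Sum.elim_inl, Sum.elim_inr] at h3 h4 h5
  have e1 : ∀ j η, iv (vr fun k => (toInt c k : ZMod p)) j η = infVal p (unF c) j η := by
    intro j η
    unfold iv infVal
    simp only [vr_toInt]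
  have e2 : ∀ j (z : IsLocalRing.ResidueField V), dv ψ (vr fun k => (toInt c k : ZMod p)) j z =
      denP (fun s => ψ (redQ p (unF c j s))) z := by
    intro j z
    unfold dv
    simp only [vr_toInt]
  have e3 : ∀ j (z w : IsLocalRing.ResidueField V), xv ψ (vr fun k => (toInt c k : ZMod p)) j z w =
      numP (fun s => ψ (redQ p (unF c j s))) z w / denP (fun s => ψ (redQ p (unF c j s))) z := by
    intro j z w
    unfold xv
    simp only [vr_toInt]
  refine ⟨hp2, ?_, ?_, ?_, ?_, ?_, ?_, ?_⟩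
  · exact (ZMod.natCast_eq_zero_iff _ p).mp (by simpa [unF] using h3)
  · intro j s hs h
    refine h5 (j, s) hs ?_
    have := (ZMod.natCast_eq_zero_iff (c (j, s)).den p).mpr h
    simpa using this
  · intro j
    have := h2.lead j
    rwa [vr_toInt] at this
  · intro j k hj hk hjk z hz
    have := h2.coprime j k hj hk hjk z
    rw [e2, e2] at this
    exact this hz
  · intro η hη j hj
    have := h2.ordInf η hη j hj
    rwa [e1] at this
  · intro η hη j k hj hk hjk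
    have := h2.crossInf η hη j k hj hk hjk
    rwa [e1, e1] at this
  · intro j k l hj hk hl hjk hjl hkl z w hz hw
    have := h2.four j k l hj hk hl hjk hjl hkl z w
    rw [e2, e3, e3] at this
    exact this hz hw

end red

open Classical in
theorem density_all {m d e n : ℕ} (hd3 : 3 ≤ d) (hmd : 2 * (m * e) ≤ d) (f : Fin (e + 1) → Polynomial ℂ)
    (dd : ∀ p : ℕ, ValuationSubring ℂ → ZMod p → ℤ)
    (hdd : ∀ ε : ℝ, 0 < ε → ∃ p₀ : ℕ, ∀ p : ℕ, ∀ (_ : Fact p.Prime), p₀ ≤ p → ∀ V : ValuationSubring ℂ,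
      V.valuation (p : ℂ) < 1 → ∀ D : ℤ, D ≠ 0 →
      (((Finset.univ : Finset (ZMod p)).filter fun α => dd p V α = 0 ∨ IsSquare (D * dd p V α)).card : ℝ) ≤ ε * p)
    (S : Finset ℂ) (Good : (Fin n → Cf m d e → ℚ) → Prop) (hGood : ∀ c, AllLoc f dd S c → Good c) :
    Tendsto (fun H : ℕ => ((boxF n m d e H ∩ {c | ¬ Good c}).ncard : ℝ) / (boxF n m d e H).ncard) atTop (𝓝 0) := by
  obtain ⟨PP, hPP, hV⟩ := exists_split_primes S
  choose! V hpV hVS using hV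
  -- residues
  let r : ∀ p : Nat.Primes, ℂ → ZMod (p : ℕ) := fun p s =>
    if h : ∃ m : ℤ, (V p).valuation (s - (m : ℂ)) < 1 then ((h.choose : ℤ) : ZMod (p : ℕ)) else 0
  let ψ : ∀ p : Nat.Primes, p ∈ PP → (ZMod (p : ℕ) →+* IsLocalRing.ResidueField (V p)) := fun p hp =>
    haveI := charP_residue (V := V p) p.2 (hpV p hp)
    ZMod.castHom (dvd_refl (p : ℕ)) _
  have hr : ∀ p (hp : p ∈ PP), ∀ s ∈ S, Rs (ψ p hp) s (r p s) := by
    intro p hp s hs
    obtain ⟨h1, h2, h3⟩ := hVS p hp s hs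
    refine ⟨h1, ?_⟩
    have h4 : (V p).valuation (s - (h3.choose : ℂ)) < 1 := h3.choose_spec
    have h5 : r p s = ((h3.choose : ℤ) : ZMod (p : ℕ)) := by
      simp only [r]
      rw [dif_pos h3]
    rw [h5, map_intCast, ← sub_eq_zero, ← map_intCast (IsLocalRing.residue (V p)), ← map_sub, residue_eq_zero]
    simpa using h4
  -- the bounds
  set K : ℕ := n * n + (n * ((e + 1) * (n * (e + 1) + 1)) + (n * (n * (e + 1)) + (n * n + n * (n * n)))) with hK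
  have hd0 : 0 < d := by omega
  have hCn : 0 < (4 * d) ^ n := by positivity
  set ε : ℝ := 1 / (2 * (((4 * d) ^ n : ℕ) : ℝ) * ((K : ℝ) + 1)) with hε
  have hCnR : (0 : ℝ) < (((4 * d) ^ n : ℕ) : ℝ) := Nat.cast_pos.mpr hCn
  have hε0 : 0 < ε := by positivity
  have hKε : 2 * (((4 * d) ^ n : ℕ) : ℝ) * (K * ε) ≤ 1 := by
    rw [hε]
    rw [show 2 * (((4 * d) ^ n : ℕ) : ℝ) * ((K : ℝ) * (1 / (2 * (((4 * d) ^ n : ℕ) : ℝ) * ((K : ℝ) + 1)))) =
      (K : ℝ) / ((K : ℝ) + 1) by field_simp]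
    rw [div_le_one (by positivity)]
    linarith
  obtain ⟨p₀, hp₀⟩ := hdd ε hε0
  obtain ⟨P₁, hP₁⟩ := card_goodB (m := m) (d := d) (e := e) (n := n) (by omega)
  obtain ⟨C, hC, hiso⟩ := isoV_count (1 / (4 * ((e : ℝ) + 1))) (by positivity)
  obtain ⟨P₂, hP₂⟩ : ∃ P₂ : ℕ, ∀ p : ℕ, P₂ ≤ p → (1 : ℝ) ≤ ε * p ∧ (d : ℝ) * (e + 1) * (1 / p) ≤ ε ∧
      (d : ℝ) * (e + 1) * (C * (p : ℝ) ^ (-(3 / 4) : ℝ)) ≤ ε := by
    have t1 : Tendsto (fun p : ℕ => ε * (p : ℝ)) atTop atTop :=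
      tendsto_natCast_atTop_atTop.const_mul_atTop hε0
    have t2 : Tendsto (fun p : ℕ => (d : ℝ) * (e + 1) * (1 / (p : ℝ))) atTop (𝓝 ((d : ℝ) * (e + 1) * 0)) :=
      tendsto_one_div_atTop_nhds_zero_nat.const_mul _
    have t3 : Tendsto (fun p : ℕ => (d : ℝ) * (e + 1) * (C * (p : ℝ) ^ (-(3 / 4) : ℝ))) atTop
        (𝓝 ((d : ℝ) * (e + 1) * (C * 0))) :=
      (((tendsto_rpow_neg_atTop (by norm_num)).comp tendsto_natCast_atTop_atTop).const_mul _).const_mul _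
    rw [mul_zero] at t2
    rw [mul_zero, mul_zero] at t3
    have h1 := (t1.eventually_ge_atTop 1).and ((t2.eventually (ge_mem_nhds hε0)).and (t3.eventually (ge_mem_nhds hε0)))
    obtain ⟨P₂, hP₂⟩ := eventually_atTop.mp h1
    exact ⟨P₂, fun p hp => hP₂ p hp⟩
  set P₀ : ℕ := p₀ + P₁ + P₂ + 2 * Fintype.card (Ix n m d e) + 2 with hP₀
  have hkey : ∀ p (hp : p ∈ PP), P₀ < (p : ℕ) → ∀ Δ : Finset ℤ, (∀ D ∈ Δ, D ≠ 0) → Δ.card ≤ n * (e + 1) →
      ∀ i : Fin n, (p : ℕ) ^ (2 * Fintype.card (Ix n m d e)) ≤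
        2 * (2 * (4 * d) ^ n) * (p : ℕ) * ((boxS ((i, Sum.inl ⟨0, 0⟩) : Ix n m d e) (p : ℕ)).filter
          fun x => PF f (ψ p hp) (r p) (dd p (V p)) Δ (fun j => j ≠ i) (vr x)).card := by
    intro p hp hpP Δ hΔ hΔc i
    obtain ⟨g1, g2, g3⟩ := hP₂ p (by omega)
    have hfl : (⌊ε * (p : ℝ)⌋₊ : ℝ) ≤ ε * (p : ℝ) := Nat.floor_le (by positivity)
    refine card_PF f (ψ p hp) (r p) (dd p (V p)) hd3 hmd Δ hΔ ε hε0.le ⌊ε * (p : ℝ)⌋₊ (Nat.floor_pos.mpr g1) hfl ?_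
      C hC (hiso p inferInstance (by omega) (V p) (hpV p hp)) g2 g3 ?_ K ?_ hKε (by omega) i
    · intro D hD P hP
      refine Nat.le_floor (le_trans ?_ (hp₀ p inferInstance (by omega) (V p) (hpV p hp) D hD))
      refine Nat.cast_le.mpr (card_le_card ?_)
      intro α hα
      rw [mem_filter] at hα ⊢
      exact ⟨hα.1, hP α hα.2⟩
    · refine (hP₁ p (by omega)).trans (Nat.mul_le_mul_left _ (card_le_card ?_))
      intro v hv
      rw [mem_filter] at hv ⊢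
      exact ⟨mem_univ _, fun j => hv.2 j⟩
    · simp only [Fintype.card_sum, Fintype.card_prod, Fintype.card_option, Fintype.card_coe, Fintype.card_fin]
      rw [hK]
      have hR : (RI f (p : ℕ) m (r p)).card ≤ e + 1 := card_RI f (r p)
      gcongr
  let Δ₂ : ∀ p : Nat.Primes, (Ix n m d e ⊕ Ix n m d e → ZMod (p : ℕ)) → Finset ℤ := fun p x =>
    (((univ : Finset (Fin n)) ×ˢ RI f (p : ℕ) m (r p)).image fun b =>
      dd p (V p) (iv (vr x) b.1 b.2)).filter fun D => D ≠ 0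
  have hΔ₂ : ∀ p x, (∀ D ∈ Δ₂ p x, D ≠ 0) ∧ (Δ₂ p x).card ≤ n * (e + 1) := by
    intro p x
    refine ⟨fun D hD => (mem_filter.mp hD).2, ?_⟩
    refine ((card_filter_le _ _).trans card_image_le).trans ?_
    rw [card_product, card_univ, Fintype.card_fin]
    exact Nat.mul_le_mul_left _ (card_RI f (r p))
  let Ω : ∀ (p : Nat.Primes) (_ : Finset ℤ), Fin n → Finset (Ix n m d e ⊕ Ix n m d e → ZMod p) := fun p Δ i =>
    if hp : p ∈ PP then (boxS ((i, Sum.inl ⟨0, 0⟩) : Ix n m d e) (p : ℕ)).filter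
      fun x => PF f (ψ p hp) (r p) (dd p (V p)) Δ (fun j => j ≠ i) (vr x) else ∅
  have hΩ : ∀ p (hp : p ∈ PP) Δ i, Ω p Δ i = (boxS ((i, Sum.inl ⟨0, 0⟩) : Ix n m d e) (p : ℕ)).filter
      fun x => PF f (ψ p hp) (r p) (dd p (V p)) Δ (fun j => j ≠ i) (vr x) := by
    intro p hp Δ i
    simp only [Ω]
    rw [dif_pos hp]
  have hden := density_pair (ι := Ix n m d e) (J := Fin n) (fun c => Good (unF c)) PP hPP (2 * (2 * (4 * d) ^ n))
    (by positivity) (fun p i => Ω p ∅ i) (fun p x q i => Ω q (Δ₂ p x) i) (fun _ => P₀) P₀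
    (fun p hp hpP i => by
      rw [hΩ p hp]
      exact hkey p hp hpP ∅ (by simp) (by simp) i)
    (fun p _ _ i x _ q hq hqP => by
      rw [hΩ q hq]
      exact hkey q hq hqP (Δ₂ p x) (hΔ₂ p x).1 (hΔ₂ p x).2 i) (by
      intro c hc
      apply hGood
      intro i
      obtain ⟨p, hp, q, hq, hpq, hpP, hqP, h1, h2⟩ := hc i
      rw [hΩ p hp, mem_filter] at h1
      rw [hΩ q hq, mem_filter] at h2
      have k1 := locF_of (c := c) (i := i) (by omega : (p : ℕ) ≠ 2) h1.1 h1.2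
      have k2 := locF_of (c := c) (i := i) (by omega : (q : ℕ) ≠ 2) h2.1 h2.2
      refine ⟨p, q, inferInstance, inferInstance, V p, V q, ψ p hp, ψ q hq, r p, r q, hpV p hp, hpV q hq,
        hr p hp, hr q hq, k1, k2, ?_⟩
      intro j hj η η' hη hη' hsq
      have h0 := k1.ordInf η hη j hj
      have e1 : ∀ (p : Nat.Primes) j η, iv (vr fun k => (toInt c k : ZMod (p : ℕ))) j η = infVal p (unF c) j η := by
        intro p j η
        unfold iv infVal
        simp only [vr_toInt]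
      refine h2.2.del η' hη' j hj (dd p (V p) (infVal p (unF c) j η)) ?_ (by rw [e1]; exact hsq)
      simp only [Δ₂]
      rw [mem_filter]
      refine ⟨mem_image.mpr ⟨(j, η), mem_product.mpr ⟨mem_univ _, (mem_RI f (r p)).mpr hη⟩, ?_⟩, h0⟩
      simp only
      rw [e1])
  refine hden.congr fun H => ?_
  have habs : ∀ (z : ℤ), z.natAbs ≤ H ↔ |z| ≤ (H : ℤ) := by
    intro z
    rw [Int.abs_eq_natAbs]
    exact_mod_cast Iff.rfl
  have e1 : boxF n m d e H = unF '' {c : Ix n m d e → ℚ | ∀ s, (c s).num.natAbs ≤ H ∧ (c s).den ≤ H} := by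
    ext c
    constructor
    · intro hc
      exact ⟨fun s => c s.1 s.2, fun s => ⟨(habs _).mpr (hc s.1 s.2).1, (hc s.1 s.2).2⟩, rfl⟩
    · rintro ⟨c, hc, rfl⟩ i s
      exact ⟨(habs _).mp (hc (i, s)).1, (hc (i, s)).2⟩
  have e2 : boxF n m d e H ∩ {c | ¬ Good c} =
      unF '' {c : Ix n m d e → ℚ | (∀ s, (c s).num.natAbs ≤ H ∧ (c s).den ≤ H) ∧ ¬ Good (unF c)} := by
    rw [e1]
    ext c
    constructor
    · rintro ⟨⟨c, hc, rfl⟩, hc'⟩
      exact ⟨c, ⟨hc, hc'⟩, rfl⟩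
    · rintro ⟨c, ⟨hc, hc'⟩, rfl⟩
      exact ⟨⟨c, hc, rfl⟩, hc'⟩
  rw [e2, e1, Set.ncard_image_of_injective _ unF_injective, Set.ncard_image_of_injective _ unF_injective]

end Pool.Agent.ZPF
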