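import Mathlib
import Pool.Agent.ZPF.EvRank
import Pool.Agent.ZPF.IsoCount

/-!
For fixed irreducible denominators, few numerators take isogenous values at a zero of another denominator.
-/

open Polynomial

namespace Pool.Agent.ZPF

open Pool.Agent.Lib.ModularZP Pool.Agent.ZPOrd Finset

section

open Classical in
lemma fb_fiber {ι α : Type*} [Fintype ι] [DecidableEq ι] [Fintype α] (k : ι) (P : (ι → α) → Prop) (M : ℝ)
    (h : ∀ A : ι → α, (((univ : Finset α).filter fun v => P (Function.update A k v)).card : ℝ) ≤ M) :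
    (((univ : Finset (ι → α)).filter P).card : ℝ) * (Fintype.card α : ℝ) ≤
      M * (Fintype.card (ι → α) : ℝ) := by
  have h1 : ∑ x : (ι → α) × α, (if P (Function.update x.1 k x.2) then (1 : ℝ) else 0) =
      ∑ x : (ι → α) × α, (if P x.1 then (1 : ℝ) else 0) := by
    let σ : (ι → α) × α → (ι → α) × α := fun x => (Function.update x.1 k x.2, x.1 k)
    have hσ : Function.Involutive σ := by
      rintro ⟨A, v⟩
      simp [σ]
    exact Fintype.sum_equiv (hσ.toPerm σ) _ _ fun x => rfl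
  rw [Fintype.sum_prod_type, Fintype.sum_prod_type] at h1
  have h2 : ∀ A : ι → α, ∑ v : α, (if P (Function.update A k v) then (1 : ℝ) else 0) =
      (((univ : Finset α).filter fun v => P (Function.update A k v)).card : ℝ) := by
    intro A
    rw [Finset.sum_boole]
  have h3 : ∑ A : ι → α, ∑ _v : α, (if P A then (1 : ℝ) else 0) =
      (((univ : Finset (ι → α)).filter P).card : ℝ) * (Fintype.card α : ℝ) := by
    simp only [sum_const, card_univ, nsmul_eq_mul]
    rw [← Finset.mul_sum, Finset.sum_boole, mul_comm]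
  rw [h3] at h1
  rw [← h1]
  calc ∑ A : ι → α, ∑ v : α, (if P (Function.update A k v) then (1 : ℝ) else 0)
      ≤ ∑ _A : ι → α, M := sum_le_sum fun A _ => by rw [h2]; exact h A
    _ = M * (Fintype.card (ι → α) : ℝ) := by
      rw [sum_const, card_univ, nsmul_eq_mul, mul_comm]

end

section

variable {p : ℕ} [hp : Fact p.Prime] {k : Type*} [Field k] (ψ : ZMod p →+* k) {m d e : ℕ}

/-- value of the numerator -/
def evA (A : Mo m d e → ZMod p) (z w : k) : k := ∑ t : Mo m d e, ψ (A t) * z ^ (t.2 : ℕ) * w ^ (t.1 : ℕ)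

/-- value of the denominator -/
def evB (B : Fin (d + 1) → ZMod p) (z : k) : k := ∑ a : Fin (d + 1), ψ (B a) * z ^ (a : ℕ)

include ψ in
lemma fb_char : CharP k p := charP_of_injective_ringHom ψ.injective p

lemma fb_frobA {s : ℕ} {z w : k} (hz : z ^ (p ^ s) = z) (hw : w ^ (p ^ s) = w) (A : Mo m d e → ZMod p) :
    (evA ψ A z w) ^ (p ^ s) = evA ψ A z w := by
  have := fb_char ψ
  have h1 : ∀ a : ZMod p, (ψ a) ^ (p ^ s) = ψ a := fun a => by
    rw [← map_pow, ZMod.pow_card_pow]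
  have h2 : iterateFrobenius k p s (evA ψ A z w) = evA ψ A z w := by
    unfold evA
    rw [map_sum]
    refine sum_congr rfl fun t _ => ?_
    rw [map_mul, map_mul, map_pow, map_pow, iterateFrobenius_def, iterateFrobenius_def, iterateFrobenius_def, h1, hz, hw]
  rwa [iterateFrobenius_def] at h2

lemma fb_frobB {s : ℕ} {z : k} (hz : z ^ (p ^ s) = z) (B : Fin (d + 1) → ZMod p) :
    (evB ψ B z) ^ (p ^ s) = evB ψ B z := by
  have := fb_char ψ
  have h1 : ∀ a : ZMod p, (ψ a) ^ (p ^ s) = ψ a := fun a => by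
    rw [← map_pow, ZMod.pow_card_pow]
  have h2 : iterateFrobenius k p s (evB ψ B z) = evB ψ B z := by
    unfold evB
    rw [map_sum]
    refine sum_congr rfl fun t _ => ?_
    rw [map_mul, map_pow, iterateFrobenius_def, iterateFrobenius_def, h1, hz]
  rwa [iterateFrobenius_def] at h2

variable (k) in
open Classical in
/-- the roots of `X ^ q - X` -/
noncomputable def fixT (q : ℕ) : Finset k := (X ^ q - X : k[X]).roots.toFinset

lemma mem_fixT {q : ℕ} (hq : 1 < q) (x : k) : x ∈ fixT k q ↔ x ^ q = x := by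
  classical
  unfold fixT
  rw [Multiset.mem_toFinset, mem_roots (FiniteField.X_pow_card_sub_X_ne_zero k hq)]
  simp [IsRoot, sub_eq_zero]

lemma card_fixT {q : ℕ} (hq : 1 < q) : (fixT k q).card ≤ q := by
  classical
  unfold fixT
  refine (Multiset.toFinset_card_le _).trans ((card_roots' _).trans ?_)
  rw [FiniteField.X_pow_card_sub_X_natDegree_eq k hq]

open Classical in
lemma fb_pre {r : ℕ} {z w b : k} (hb : b ≠ 0)
    (hT : ∀ T : Finset k, ((univ : Finset (Mo m d e → ZMod p)).filter fun A => evA ψ A z w ∈ T).card * p ^ r ≤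
      T.card * p ^ Fintype.card (Mo m d e)) (P : k → Prop) (T : Finset k) (hP : ∀ x, P x → x ∈ T) :
    (((univ : Finset (Mo m d e → ZMod p)).filter fun A => P (evA ψ A z w / b)).card : ℝ) ≤
      (T.card : ℝ) * (p : ℝ) ^ Fintype.card (Mo m d e) / (p : ℝ) ^ r := by
  have hp0 : (0 : ℝ) < p := by exact_mod_cast hp.out.pos
  have h1 := hT (T.image fun x => x * b)
  have h2 : ((univ : Finset (Mo m d e → ZMod p)).filter fun A => P (evA ψ A z w / b)).card ≤
      ((univ : Finset (Mo m d e → ZMod p)).filter fun A => evA ψ A z w ∈ T.image fun x => x * b).card := by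
    refine card_le_card fun A hA => ?_
    rw [mem_filter] at hA ⊢
    refine ⟨mem_univ _, mem_image.mpr ⟨_, hP _ hA.2, ?_⟩⟩
    field_simp
  have h3 : ((univ : Finset (Mo m d e → ZMod p)).filter fun A => P (evA ψ A z w / b)).card * p ^ r ≤
      T.card * p ^ Fintype.card (Mo m d e) :=
    (Nat.mul_le_mul_right _ h2).trans (h1.trans (Nat.mul_le_mul_right _ card_image_le))
  rw [le_div_iff₀ (by positivity)]
  exact_mod_cast h3

end

section

variable {p : ℕ} [hp : Fact p.Prime] {m d e n : ℕ}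

lemma fb_rpow {s r : ℕ} (hd3 : 3 ≤ d) (hs : s ≤ d * (e + 1)) (hsr : s + d ≤ 2 * r) :
    ((p : ℝ) ^ s) ^ (1 / 2 + 1 / (4 * ((e : ℝ) + 1))) ≤ (p : ℝ) ^ r * (p : ℝ) ^ (-(1 / 2 : ℝ)) := by
  have hp1 : (1 : ℝ) < p := by exact_mod_cast hp.out.one_lt
  have hp0 : (0 : ℝ) < p := by linarith
  rw [← Real.rpow_natCast, ← Real.rpow_natCast, ← Real.rpow_mul hp0.le, ← Real.rpow_add hp0]
  refine Real.rpow_le_rpow_of_exponent_le hp1.le ?_
  have he : (0 : ℝ) < (e : ℝ) + 1 := by positivity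
  have h1 : (s : ℝ) ≤ d * ((e : ℝ) + 1) := by exact_mod_cast hs
  have h2 : (s : ℝ) + d ≤ 2 * r := by exact_mod_cast hsr
  have h3 : (s : ℝ) * (1 / (4 * ((e : ℝ) + 1))) ≤ d / 4 := by
    rw [mul_one_div, div_le_iff₀ (by positivity)]
    nlinarith
  have h4 : (3 : ℝ) ≤ d := by exact_mod_cast hd3
  nlinarith

lemma fb_pow_three {r : ℕ} (hr : 3 ≤ r) : (p : ℝ) ^ 2 / (p : ℝ) ^ r ≤ (p : ℝ) ^ (-(1 / 2 : ℝ)) := by
  have hp1 : (1 : ℝ) < p := by exact_mod_cast hp.out.one_lt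
  have hp0 : (0 : ℝ) < p := by linarith
  rw [← Real.rpow_natCast, ← Real.rpow_natCast, ← Real.rpow_sub hp0]
  refine Real.rpow_le_rpow_of_exponent_le hp1.le ?_
  have h4 : (3 : ℝ) ≤ r := by exact_mod_cast hr
  push_cast
  linarith

open Classical in
/-- one pair of values -/
lemma fb_event (V : ValuationSubring ℂ) {C : ℝ} (hC : 0 < C)
    (hCC : ∀ s : ℕ, 0 < s → ∀ u : IsLocalRing.ResidueField V, u ^ (p ^ s) = u → u ^ (p ^ 2) ≠ u →
      ∀ T : Finset (IsLocalRing.ResidueField V), (∀ v ∈ T, v ^ (p ^ s) = v ∧ v ^ (p ^ 2) ≠ v ∧ IsoV V u v) →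
      (T.card : ℝ) ≤ C * ((p : ℝ) ^ s) ^ (1 / 2 + 1 / (4 * ((e : ℝ) + 1))))
    (ψ : ZMod p →+* IsLocalRing.ResidueField V) (hd3 : 3 ≤ d) {z w : IsLocalRing.ResidueField V} {s r : ℕ}
    (hs0 : 0 < s) (hs : s ≤ d * (e + 1)) (hdr : d ≤ r) (hsr : s + d ≤ 2 * r) (hz : z ^ (p ^ s) = z) (hw : w ^ (p ^ s) = w)
    (hT : ∀ T : Finset (IsLocalRing.ResidueField V), ((univ : Finset (Mo m d e → ZMod p)).filter fun A =>
      evA ψ A z w ∈ T).card * p ^ r ≤ T.card * p ^ Fintype.card (Mo m d e))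
    (B : Fin n → Fin (d + 1) → ZMod p) {k l : Fin n} (hkl : k ≠ l) (hk : evB ψ (B k) z ≠ 0) (hl : evB ψ (B l) z ≠ 0) :
    (((univ : Finset (Fin n → Mo m d e → ZMod p)).filter fun A =>
      IsoV V (evA ψ (A k) z w / evB ψ (B k) z) (evA ψ (A l) z w / evB ψ (B l) z)).card : ℝ) ≤
      (2 + C) * (p : ℝ) ^ (-(1 / 2 : ℝ)) * (p : ℝ) ^ (n * Fintype.card (Mo m d e)) := by
  have hp1 : (1 : ℝ) < p := by exact_mod_cast hp.out.one_lt
  have hp0 : (0 : ℝ) < p := by linarith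
  have hpp : 1 < p ^ 2 := Nat.one_lt_pow (by norm_num) hp.out.one_lt
  have hps : 1 < p ^ s := Nat.one_lt_pow hs0.ne' hp.out.one_lt
  set N := Fintype.card (Mo m d e) with hN
  set ρ : ℝ := (p : ℝ) ^ (-(1 / 2 : ℝ)) with hρ
  have hρ0 : 0 < ρ := Real.rpow_pos_of_pos hp0 _
  have hα : (Fintype.card (Mo m d e → ZMod p) : ℝ) = (p : ℝ) ^ N := by
    rw [Fintype.card_fun, ZMod.card]
    push_cast
    rfl
  have hαn : (Fintype.card (Fin n → Mo m d e → ZMod p) : ℝ) = (p : ℝ) ^ (n * N) := by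
    rw [Fintype.card_fun, Fintype.card_fun, ZMod.card, Fintype.card_fin]
    push_cast
    rw [← pow_mul, mul_comm]
  -- values in the field with `p ^ 2` elements
  have hfix : ∀ i : Fin n, evB ψ (B i) z ≠ 0 →
      (((univ : Finset (Fin n → Mo m d e → ZMod p)).filter fun A =>
        (evA ψ (A i) z w / evB ψ (B i) z) ^ (p ^ 2) = evA ψ (A i) z w / evB ψ (B i) z).card : ℝ) ≤
        ρ * (p : ℝ) ^ (n * N) := by
    intro i hi
    have h1 := fb_fiber i (fun A : Fin n → Mo m d e → ZMod p =>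
      (evA ψ (A i) z w / evB ψ (B i) z) ^ (p ^ 2) = evA ψ (A i) z w / evB ψ (B i) z) (ρ * (p : ℝ) ^ N) (by
      intro A
      have h2 := fb_pre ψ hi hT (fun x => x ^ (p ^ 2) = x) (fixT _ (p ^ 2)) (fun x hx => (mem_fixT hpp x).mpr hx)
      simp only [Function.update_self]
      refine h2.trans ?_
      have h3 : ((fixT (IsLocalRing.ResidueField V) (p ^ 2)).card : ℝ) ≤ (p : ℝ) ^ 2 := by
        exact_mod_cast card_fixT hpp
      calc ((fixT (IsLocalRing.ResidueField V) (p ^ 2)).card : ℝ) * (p : ℝ) ^ N / (p : ℝ) ^ r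
          ≤ (p : ℝ) ^ 2 * (p : ℝ) ^ N / (p : ℝ) ^ r := by gcongr
        _ = (p : ℝ) ^ 2 / (p : ℝ) ^ r * (p : ℝ) ^ N := by ring
        _ ≤ ρ * (p : ℝ) ^ N := by
          gcongr
          exact fb_pow_three (hd3.trans hdr))
    rw [hα, hαn, mul_right_comm] at h1
    exact le_of_mul_le_mul_right h1 (by positivity)
  -- the other values
  have hcross : (((univ : Finset (Fin n → Mo m d e → ZMod p)).filter fun A =>
      (evA ψ (A k) z w / evB ψ (B k) z) ^ (p ^ 2) ≠ evA ψ (A k) z w / evB ψ (B k) z ∧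
      (evA ψ (A l) z w / evB ψ (B l) z) ^ (p ^ 2) ≠ evA ψ (A l) z w / evB ψ (B l) z ∧
      IsoV V (evA ψ (A k) z w / evB ψ (B k) z) (evA ψ (A l) z w / evB ψ (B l) z)).card : ℝ) ≤
        C * ρ * (p : ℝ) ^ (n * N) := by
    have h1 := fb_fiber l (fun A : Fin n → Mo m d e → ZMod p =>
      (evA ψ (A k) z w / evB ψ (B k) z) ^ (p ^ 2) ≠ evA ψ (A k) z w / evB ψ (B k) z ∧
      (evA ψ (A l) z w / evB ψ (B l) z) ^ (p ^ 2) ≠ evA ψ (A l) z w / evB ψ (B l) z ∧
      IsoV V (evA ψ (A k) z w / evB ψ (B k) z) (evA ψ (A l) z w / evB ψ (B l) z)) (C * ρ * (p : ℝ) ^ N) (by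
      intro A
      simp only [Function.update_self, Function.update_of_ne hkl]
      set u := evA ψ (A k) z w / evB ψ (B k) z with hu
      by_cases hu2 : u ^ (p ^ 2) = u
      · rw [filter_eq_empty_iff.mpr fun v _ h => h.1 hu2]
        simp only [card_empty, Nat.cast_zero]
        positivity
      have hus : u ^ (p ^ s) = u := by
        rw [hu, div_pow, fb_frobA ψ hz hw, fb_frobB ψ hz]
      set T := (fixT (IsLocalRing.ResidueField V) (p ^ s)).filter fun v => v ^ (p ^ 2) ≠ v ∧ IsoV V u v with hTd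
      have hTc : (T.card : ℝ) ≤ C * ((p : ℝ) ^ s) ^ (1 / 2 + 1 / (4 * ((e : ℝ) + 1))) := by
        refine hCC s hs0 u hus hu2 T fun v hv => ?_
        rw [hTd, mem_filter] at hv
        exact ⟨(mem_fixT hps v).mp hv.1, hv.2.1, hv.2.2⟩
      have h2 := fb_pre ψ hl hT (fun x => x ^ (p ^ s) = x ∧ x ^ (p ^ 2) ≠ x ∧ IsoV V u x) T (fun x hx => by
        rw [hTd, mem_filter]
        exact ⟨(mem_fixT hps x).mpr hx.1, hx.2.1, hx.2.2⟩)
      refine le_trans ?_ (h2.trans ?_)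
      · exact_mod_cast card_le_card fun v hv => by
          rw [mem_filter] at hv ⊢
          refine ⟨mem_univ _, ?_, hv.2.2.1, hv.2.2.2⟩
          rw [div_pow, fb_frobA ψ hz hw, fb_frobB ψ hz]
      · calc (T.card : ℝ) * (p : ℝ) ^ N / (p : ℝ) ^ r
            ≤ C * ((p : ℝ) ^ s) ^ (1 / 2 + 1 / (4 * ((e : ℝ) + 1))) * (p : ℝ) ^ N / (p : ℝ) ^ r := by gcongr
          _ ≤ C * ((p : ℝ) ^ r * ρ) * (p : ℝ) ^ N / (p : ℝ) ^ r := by
            gcongr
            exact fb_rpow hd3 hs hsr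
          _ = C * ρ * (p : ℝ) ^ N := by
            field_simp)
    rw [hα, hαn, mul_right_comm] at h1
    have h9 := le_of_mul_le_mul_right h1 (show (0 : ℝ) < (p : ℝ) ^ N by positivity)
    refine le_trans (le_of_eq ?_) h9
    congr
  have hsub : ((univ : Finset (Fin n → Mo m d e → ZMod p)).filter fun A =>
      IsoV V (evA ψ (A k) z w / evB ψ (B k) z) (evA ψ (A l) z w / evB ψ (B l) z)) ⊆
      (((univ : Finset (Fin n → Mo m d e → ZMod p)).filter fun A =>
        (evA ψ (A k) z w / evB ψ (B k) z) ^ (p ^ 2) = evA ψ (A k) z w / evB ψ (B k) z) ∪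
      ((univ : Finset (Fin n → Mo m d e → ZMod p)).filter fun A =>
        (evA ψ (A l) z w / evB ψ (B l) z) ^ (p ^ 2) = evA ψ (A l) z w / evB ψ (B l) z)) ∪
      ((univ : Finset (Fin n → Mo m d e → ZMod p)).filter fun A =>
      (evA ψ (A k) z w / evB ψ (B k) z) ^ (p ^ 2) ≠ evA ψ (A k) z w / evB ψ (B k) z ∧
      (evA ψ (A l) z w / evB ψ (B l) z) ^ (p ^ 2) ≠ evA ψ (A l) z w / evB ψ (B l) z ∧
      IsoV V (evA ψ (A k) z w / evB ψ (B k) z) (evA ψ (A l) z w / evB ψ (B l) z)) := by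
    intro A hA
    rw [mem_filter] at hA
    simp only [mem_union, mem_filter, mem_univ, true_and]
    tauto
  have h5 := (card_le_card hsub).trans ((card_union_le _ _).trans (Nat.add_le_add_right (card_union_le _ _) _))
  have h6 := hfix k hk
  have h7 := hfix l hl
  have h8 : (((univ : Finset (Fin n → Mo m d e → ZMod p)).filter fun A =>
      IsoV V (evA ψ (A k) z w / evB ψ (B k) z) (evA ψ (A l) z w / evB ψ (B l) z)).card : ℝ) ≤
      ((((univ : Finset (Fin n → Mo m d e → ZMod p)).filter fun A =>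
        (evA ψ (A k) z w / evB ψ (B k) z) ^ (p ^ 2) = evA ψ (A k) z w / evB ψ (B k) z).card : ℝ) +
      (((univ : Finset (Fin n → Mo m d e → ZMod p)).filter fun A =>
        (evA ψ (A l) z w / evB ψ (B l) z) ^ (p ^ 2) = evA ψ (A l) z w / evB ψ (B l) z).card : ℝ)) +
      (((univ : Finset (Fin n → Mo m d e → ZMod p)).filter fun A =>
      (evA ψ (A k) z w / evB ψ (B k) z) ^ (p ^ 2) ≠ evA ψ (A k) z w / evB ψ (B k) z ∧
      (evA ψ (A l) z w / evB ψ (B l) z) ^ (p ^ 2) ≠ evA ψ (A l) z w / evB ψ (B l) z ∧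
      IsoV V (evA ψ (A k) z w / evB ψ (B k) z) (evA ψ (A l) z w / evB ψ (B l) z)).card : ℝ) := by
    exact_mod_cast h5
  calc _ ≤ _ := h8
    _ ≤ (ρ * (p : ℝ) ^ (n * N) + ρ * (p : ℝ) ^ (n * N)) + C * ρ * (p : ℝ) ^ (n * N) := by
      gcongr
    _ = (2 + C) * ρ * (p : ℝ) ^ (n * N) := by ring

end

section

open Classical in
/-- For fixed irreducible denominators without common zeros, the numerators for which two coordinates take isogenous
values at a zero of a third denominator are rare. -/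
theorem four_bad {m d e n : ℕ} (hd3 : 3 ≤ d) (hmd : 2 * (m * e) ≤ d) (ε : ℝ) (hε : 0 < ε) :
    ∃ p₀ : ℕ, ∀ (p : ℕ) (_ : Fact p.Prime), p₀ ≤ p → ∀ V : ValuationSubring ℂ, V.valuation (p : ℂ) < 1 →
    ∀ (ψ : ZMod p →+* IsLocalRing.ResidueField V) (g : Fin (e + 1) → Polynomial (ZMod p))
      (B : Fin n → Fin (d + 1) → ZMod p), (∀ j, B j (Fin.last d) ≠ 0) →
      (∀ j, Irreducible (∑ a : Fin (d + 1), C (B j a) * X ^ (a : ℕ))) →
      (∀ j k, j ≠ k → ∀ z : IsLocalRing.ResidueField V, ∑ a : Fin (d + 1), ψ (B j a) * z ^ (a : ℕ) = 0 →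
        ∑ a : Fin (d + 1), ψ (B k a) * z ^ (a : ℕ) ≠ 0) →
      (((univ : Finset (Fin n → Mo m d e → ZMod p)).filter fun A =>
        ∃ j k l : Fin n, j ≠ k ∧ j ≠ l ∧ k ≠ l ∧ ∃ z w : IsLocalRing.ResidueField V,
          ∑ a : Fin (d + 1), ψ (B j a) * z ^ (a : ℕ) = 0 ∧
          w ^ (e + 1) = ∑ b : Fin (e + 1), (g b).eval₂ ψ z * w ^ (b : ℕ) ∧
          IsoV V ((∑ t : Mo m d e, ψ (A k t) * z ^ (t.2 : ℕ) * w ^ (t.1 : ℕ)) / ∑ a : Fin (d + 1), ψ (B k a) * z ^ (a : ℕ))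
            ((∑ t : Mo m d e, ψ (A l t) * z ^ (t.2 : ℕ) * w ^ (t.1 : ℕ)) / ∑ a : Fin (d + 1), ψ (B l a) * z ^ (a : ℕ))).card : ℝ) ≤
        ε * (p : ℝ) ^ (n * Fintype.card (Mo m d e)) := by
  obtain ⟨C, hC, hCC⟩ := isoV_count (1 / (4 * ((e : ℝ) + 1))) (by positivity)
  set K : ℝ := (n : ℝ) * n * n * (d * (e + 1)) * (2 + C) + 1 with hK
  have hK0 : 0 < K := by positivity
  obtain ⟨p₀, hp₀⟩ := exists_nat_gt ((K / ε) ^ 2)
  refine ⟨p₀ + 3, fun p hp hpp V hV ψ g B hB hirr hcop => ?_⟩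
  have hp2 : p ≠ 2 := by omega
  have hp1 : (1 : ℝ) < p := by exact_mod_cast hp.out.one_lt
  have hp0 : (0 : ℝ) < p := by linarith
  set N := Fintype.card (Mo m d e) with hN
  set ρ : ℝ := (p : ℝ) ^ (-(1 / 2 : ℝ)) with hρ
  have hρ0 : 0 < ρ := Real.rpow_pos_of_pos hp0 _
  have hρK : K * ρ ≤ ε := by
    have h1 : (K / ε) ^ 2 ≤ p := hp₀.le.trans (by exact_mod_cast (by omega : p₀ ≤ p))
    have h2 : K / ε ≤ (p : ℝ) ^ (1 / 2 : ℝ) := by
      rw [← Real.sqrt_eq_rpow]
      exact Real.le_sqrt_of_sq_le h1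
    have h3 : ρ = ((p : ℝ) ^ (1 / 2 : ℝ))⁻¹ := by
      rw [hρ, Real.rpow_neg hp0.le]
    rw [h3, ← div_eq_mul_inv, div_le_iff₀ (Real.rpow_pos_of_pos hp0 _)]
    rwa [div_le_iff₀ hε, mul_comm] at h2
  -- the roots
  let Z : Fin n → Finset (IsLocalRing.ResidueField V) := fun j =>
    ((∑ a : Fin (d + 1), Polynomial.C (B j a) * X ^ (a : ℕ)).map ψ).roots.toFinset
  let W : IsLocalRing.ResidueField V → Finset (IsLocalRing.ResidueField V) := fun z =>
    (X ^ (e + 1) - ∑ b : Fin (e + 1), Polynomial.C ((g b).eval₂ ψ z) * X ^ (b : ℕ) :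
      (IsLocalRing.ResidueField V)[X]).roots.toFinset
  have hZc : ∀ j, (Z j).card ≤ d := by
    intro j
    refine (Multiset.toFinset_card_le _).trans ((card_roots' _).trans ((natDegree_map_le).trans ?_))
    refine natDegree_sum_le_of_forall_le _ _ fun a _ => ?_
    exact (natDegree_C_mul_X_pow_le _ _).trans (Nat.lt_succ_iff.mp a.2)
  have hZ : ∀ j z, ∑ a : Fin (d + 1), ψ (B j a) * z ^ (a : ℕ) = 0 → z ∈ Z j := by
    intro j z hz
    simp only [Z]
    rw [Multiset.mem_toFinset, mem_roots ((Polynomial.map_ne_zero_iff ψ.injective).mpr (hirr j).ne_zero)]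
    rw [IsRoot, Polynomial.map_sum, eval_finsetSum]
    simpa using hz
  have hZ' : ∀ j z, z ∈ Z j → ∑ a : Fin (d + 1), ψ (B j a) * z ^ (a : ℕ) = 0 := by
    intro j z hz
    simp only [Z] at hz
    rw [Multiset.mem_toFinset, mem_roots ((Polynomial.map_ne_zero_iff ψ.injective).mpr (hirr j).ne_zero)] at hz
    rw [IsRoot, Polynomial.map_sum, eval_finsetSum] at hz
    simpa using hz
  have hWmon : ∀ z, (X ^ (e + 1) - ∑ b : Fin (e + 1), Polynomial.C ((g b).eval₂ ψ z) * X ^ (b : ℕ) :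
      (IsLocalRing.ResidueField V)[X]).Monic := fun z => monic_X_pow_sub (degree_sum_fin_lt _)
  have hWc : ∀ z, (W z).card ≤ e + 1 := by
    intro z
    refine (Multiset.toFinset_card_le _).trans ((card_roots' _).trans ?_)
    refine (natDegree_sub_le _ _).trans (max_le (by simp) ?_)
    exact natDegree_sum_le_of_forall_le _ _ fun a _ => (natDegree_C_mul_X_pow_le _ _).trans a.2.le
  have hW : ∀ z w, w ^ (e + 1) = ∑ b : Fin (e + 1), (g b).eval₂ ψ z * w ^ (b : ℕ) → w ∈ W z := by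
    intro z w hw
    simp only [W]
    rw [Multiset.mem_toFinset, mem_roots (hWmon z).ne_zero, IsRoot, eval_sub, eval_finsetSum]
    simp only [eval_pow, eval_X, eval_mul, eval_C]
    rw [hw, sub_self]
  have hW' : ∀ z w, w ∈ W z → w ^ (e + 1) = ∑ b : Fin (e + 1), (g b).eval₂ ψ z * w ^ (b : ℕ) := by
    intro z w hw
    simp only [W] at hw
    rw [Multiset.mem_toFinset, mem_roots (hWmon z).ne_zero, IsRoot, eval_sub, eval_finsetSum] at hw
    simp only [eval_pow, eval_X, eval_mul, eval_C] at hw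
    exact sub_eq_zero.mp hw
  set M : ℝ := (2 + C) * ρ * (p : ℝ) ^ (n * N) with hM
  have hM0 : 0 ≤ M := by positivity
  let Ev : (Fin n × Fin n × Fin n) → IsLocalRing.ResidueField V → IsLocalRing.ResidueField V →
      Finset (Fin n → Mo m d e → ZMod p) := fun x z w =>
    (univ : Finset (Fin n → Mo m d e → ZMod p)).filter fun A => (x.1 ≠ x.2.1 ∧ x.1 ≠ x.2.2 ∧ x.2.1 ≠ x.2.2) ∧
      IsoV V (evA ψ (A x.2.1) z w / evB ψ (B x.2.1) z) (evA ψ (A x.2.2) z w / evB ψ (B x.2.2) z)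
  have hEv : ∀ x, ∀ z ∈ Z x.1, ∀ w ∈ W z, ((Ev x z w).card : ℝ) ≤ M := by
    rintro ⟨j, k, l⟩ z hz w hw
    by_cases hx : j ≠ k ∧ j ≠ l ∧ k ≠ l
    · obtain ⟨s, r, hs0, hs, hdr, hsr, hzs, hws, hT⟩ := evRank ψ (by omega : 1 ≤ d) hmd (hB j) (hirr j) (hZ' j z hz) g
        (hW' z w hw)
      have h1 := fb_event V hC (fun s hs u hu hu2 T hT => hCC p hp hp2 V hV s hs u hu hu2 T hT) ψ hd3
        hs0 hs hdr hsr hzs hws hT B hx.2.2 (hcop j k hx.1 z (hZ' j z hz)) (hcop j l hx.2.1 z (hZ' j z hz))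
      refine le_trans ?_ h1
      exact_mod_cast card_le_card fun A hA => by
        rw [mem_filter] at hA ⊢
        exact ⟨mem_univ _, hA.2.2⟩
    · have h1 : Ev (j, k, l) z w = ∅ := filter_eq_empty_iff.mpr fun A _ h => hx h.1
      rw [h1, card_empty]
      simpa using hM0
  have hsub : ((univ : Finset (Fin n → Mo m d e → ZMod p)).filter fun A =>
        ∃ j k l : Fin n, j ≠ k ∧ j ≠ l ∧ k ≠ l ∧ ∃ z w : IsLocalRing.ResidueField V,
          ∑ a : Fin (d + 1), ψ (B j a) * z ^ (a : ℕ) = 0 ∧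
          w ^ (e + 1) = ∑ b : Fin (e + 1), (g b).eval₂ ψ z * w ^ (b : ℕ) ∧
          IsoV V ((∑ t : Mo m d e, ψ (A k t) * z ^ (t.2 : ℕ) * w ^ (t.1 : ℕ)) / ∑ a : Fin (d + 1), ψ (B k a) * z ^ (a : ℕ))
            ((∑ t : Mo m d e, ψ (A l t) * z ^ (t.2 : ℕ) * w ^ (t.1 : ℕ)) / ∑ a : Fin (d + 1), ψ (B l a) * z ^ (a : ℕ))) ⊆
      (univ : Finset (Fin n × Fin n × Fin n)).biUnion fun x => (Z x.1).biUnion fun z => (W z).biUnion fun w => Ev x z w := by
    intro A hA
    rw [mem_filter] at hA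
    obtain ⟨j, k, l, h1, h2, h3, z, w, h4, h5, h6⟩ := hA.2
    simp only [mem_biUnion]
    refine ⟨(j, k, l), mem_univ _, z, hZ j z h4, w, hW z w h5, ?_⟩
    simp only [Ev]
    rw [mem_filter]
    exact ⟨mem_univ _, ⟨h1, h2, h3⟩, h6⟩
  have hcard : (((univ : Finset (Fin n × Fin n × Fin n)).biUnion fun x => (Z x.1).biUnion fun z =>
      (W z).biUnion fun w => Ev x z w).card : ℝ) ≤ (n : ℝ) * n * n * (d * (e + 1)) * M := by
    calc (((univ : Finset (Fin n × Fin n × Fin n)).biUnion fun x => (Z x.1).biUnion fun z =>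
      (W z).biUnion fun w => Ev x z w).card : ℝ)
        ≤ ∑ x : Fin n × Fin n × Fin n, ∑ z ∈ Z x.1, ∑ w ∈ W z, ((Ev x z w).card : ℝ) := by
          have h1 : ((univ : Finset (Fin n × Fin n × Fin n)).biUnion fun x => (Z x.1).biUnion fun z =>
            (W z).biUnion fun w => Ev x z w).card ≤ ∑ x : Fin n × Fin n × Fin n, ∑ z ∈ Z x.1, ∑ w ∈ W z, (Ev x z w).card :=
            card_biUnion_le.trans (sum_le_sum fun x _ => card_biUnion_le.trans (sum_le_sum fun z _ => card_biUnion_le))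
          exact_mod_cast h1
      _ ≤ ∑ _x : Fin n × Fin n × Fin n, (d : ℝ) * ((e + 1) * M) := by
          refine sum_le_sum fun x _ => ?_
          calc ∑ z ∈ Z x.1, ∑ w ∈ W z, ((Ev x z w).card : ℝ) ≤ ∑ _z ∈ Z x.1, ((e + 1 : ℝ) * M) := by
                refine sum_le_sum fun z hz => ?_
                calc ∑ w ∈ W z, ((Ev x z w).card : ℝ) ≤ ∑ _w ∈ W z, M := sum_le_sum fun w hw => hEv x z hz w hw
                  _ = (W z).card * M := by rw [sum_const, nsmul_eq_mul]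
                  _ ≤ (e + 1 : ℝ) * M := by
                    refine mul_le_mul_of_nonneg_right ?_ hM0
                    exact_mod_cast hWc z
            _ = (Z x.1).card * ((e + 1 : ℝ) * M) := by rw [sum_const, nsmul_eq_mul]
            _ ≤ (d : ℝ) * ((e + 1) * M) := by
                refine mul_le_mul_of_nonneg_right ?_ (by positivity)
                exact_mod_cast hZc x.1
      _ = (n : ℝ) * n * n * (d * (e + 1)) * M := by
          rw [sum_const, card_univ, Fintype.card_prod, Fintype.card_prod, Fintype.card_fin, nsmul_eq_mul]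
          push_cast
          ring
  calc _ ≤ (((univ : Finset (Fin n × Fin n × Fin n)).biUnion fun x => (Z x.1).biUnion fun z =>
      (W z).biUnion fun w => Ev x z w).card : ℝ) := by exact_mod_cast card_le_card hsub
    _ ≤ (n : ℝ) * n * n * (d * (e + 1)) * M := hcard
    _ = (n : ℝ) * n * n * (d * (e + 1)) * (2 + C) * ρ * (p : ℝ) ^ (n * N) := by rw [hM]; ring
    _ ≤ K * ρ * (p : ℝ) ^ (n * N) := by
        gcongr
        rw [hK]
        linarith
    _ ≤ ε * (p : ℝ) ^ (n * N) := by gcongr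

end

end Pool.Agent.ZPF
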